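import Mathlib
import Pool.Agent.N989.MK.Bare

/-!
# The plaquette field of the hierarchical gauge theory
-/

open MeasureTheory Matrix Filter
open scoped Topology
open Pool.Agent.N989.MK

namespace Pool.Agent.N109.T3

noncomputable section

/-- The plaquettes `α` of the square of level `j` are the blocks of the square of level `k + j`:
`jn α p` is the plaquette `p` of the block `α`, which is a square of level `k`. -/
def jn {k : ℕ} : ∀ {j : ℕ}, Pq j → Pq k → Pq (k + j)
  | 0, _, p => p
  | _ + 1, (s, q, α), p => (s, q, jn α p)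

/-- The plaquettes `p` and `q` lie in different sheets of the smallest hierarchical square which
contains both. -/
def Sep : ∀ {n : ℕ}, Pq n → Pq n → Prop
  | 0, _, _ => False
  | _ + 1, (s, r, p), (s', r', q) => s ≠ s' ∨ (r = r' ∧ Sep p q)

section

variable {G : Type*} [Group G] [MeasurableSpace G]

/-- The centred correlation function of the observables `O` of the plaquettes `p a`, `a : Fin r`,
in the theory with plaquette weight `w` on the square of level `n`. -/
def Cn (μ : Measure G) (w : G → ℝ) (n : ℕ) {r : ℕ} (p : Fin r → Pq n) (O : G → ℝ) : ℝ :=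
  Ex μ w n (fun U => ∏ a, (O (hol U (p a)) - Ex μ w n (fun U => O (hol U (p a)))))

/-- The conditional expectation of `O` given the values `V` of the field on the boundary of the
square of level `n`. -/
def CE (μ : Measure G) (w : G → ℝ) (n : ℕ) (V : BE n → G) (O : (Ed n → G) → ℝ) : ℝ :=
  (∫ I : IE n → G, O (Sum.elim V I) * wt w (Sum.elim V I) ∂(Measure.pi fun _ => μ)) /
    Zb μ w n V

end

variable {N n : ℕ} {G : Subgroup (unitaryGroup (Fin N) ℂ)}

/-- `O` is a class function, invariant under the inversion and polynomial in the matrix entries. -/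
structure ClassPoly (G : Subgroup (unitaryGroup (Fin N) ℂ)) (O : G → ℝ) : Prop where
  poly : ∃ p : MvPolynomial ((Fin N × Fin N) ⊕ (Fin N × Fin N)) ℝ,
    ∀ g, O g = MvPolynomial.eval (entries g) p
  cls : ∀ h g, O (h * g * h⁻¹) = O g
  sym : ∀ g, O g⁻¹ = O g

variable [MeasurableSpace G]

/-- The lattice theories with the polynomial action `S` at the inverse couplings `β i`, with
`2 ^ l i` lattice units as unit of length, converge to the theory `F`: for every scale `2 ^ k`, the
normalised partition functions of the square with this side, as functions of the field on the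
boundary, converge uniformly to `F k`. -/
structure Appr (μ : Measure G) (F : ℤ → G → ℝ) (S : G → ℝ) (β : ℕ → ℝ) (l : ℕ → ℕ) : Prop where
  bare : BareAction G S
  pos : ∀ i, 0 < β i
  len : Tendsto l atTop atTop
  conv : ∀ (k : ℤ) (ε : ℝ), 0 < ε → ∀ᶠ i in atTop, ∀ V : BE (((l i : ℤ) + k).toNat) → G,
    |Zb μ (bw S (β i)) (((l i : ℤ) + k).toNat) V / Zt μ (bw S (β i)) (((l i : ℤ) + k).toNat) -
      F k (lp V)| < ε

/-- The properties of the renormalised field `φ` of the limit theory `F`: `φ k` is the field of a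
plaquette with side `2 ^ k` in the theory with the cutoff `2 ^ k`, multiplied by the fourth power
of the cutoff. -/
structure RenField (μ : Measure G) (X : Fin n → Matrix (Fin N) (Fin N) ℂ) (cA : ℝ)
    (F φ : ℤ → G → ℝ) : Prop where
  cont : ∀ k, Continuous (φ k)
  cls : ∀ k g x, φ k (g * x * g⁻¹) = φ k x
  sym : ∀ k x, φ k x⁻¹ = φ k x
  one : ∀ k, φ k 1 = 0
  /-- The field at the cutoff `2 ^ (k + j)` is the field at the cutoff `2 ^ k`, averaged with the
  given values of the gauge field on the boundary of the square with the side `2 ^ (k + j)`,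
  rescaled with the dimension four and renormalised by the subtraction of a constant. -/
  step : ∀ (k : ℤ) (j : ℕ), ∃ c : ℝ, ∀ (p : Pq j) (V : BE j → G),
    16 ^ j * CE μ (F k) j V (fun U => φ k (hol U p)) = φ (k + j) (lp V) + c
  /-- The correlation functions of distinct plaquettes do not depend on the cutoff. -/
  cutoff : ∀ (k : ℤ) (m j r : ℕ) (α : Fin r → Pq j), Function.Injective α →
    ∀ p : Fin r → Pq m,
      (16 : ℝ) ^ (r * m) * Cn μ (F k) (m + j) (fun a => jn (α a) (p a)) (φ k) =
        Cn μ (F (k + m)) j α (φ (k + m))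
  /-- Small plaquettes: up to corrections of the relative order `1 / j` at the cutoff `2 ^ (-j)`,
  the field is minus one half of the square of the curvature. -/
  near : ∃ (j0 : ℕ) (C r : ℝ), 0 < r ∧ ∀ j : ℕ, j0 ≤ j → ∃ a : ℝ, |a - 1| ≤ C / j ∧
    ∀ (y : Fin n → ℝ) (g : G), (∑ b, y b ^ 2) ≤ r ^ 2 → mx g = NormedSpace.exp (∑ b, y b • X b) →
      |φ (-j) g + a / 2 * ∑ b, y b ^ 2| ≤ C / j * (∑ b, y b ^ 2) ^ 2
  /-- Short distances: the two-point function at the distance `d = 2 ^ m` is of the order
  `d ^ (-8) (log d) ^ (-2)`, uniformly in the volume. -/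
  short : ∃ (m0 : ℕ) (c C : ℝ), 0 < c ∧ ∀ (k : ℤ) (j : ℕ) (p q : Pq j), Sep p q →
    k + anc j p q ≤ -m0 →
    c ≤ 16 ^ (2 * anc j p q) * (k + anc j p q : ℝ) ^ 2 * Cv μ (F k) j p q (φ k) (φ k) ∧
      16 ^ (2 * anc j p q) * (k + anc j p q : ℝ) ^ 2 * Cv μ (F k) j p q (φ k) (φ k) ≤ C
  /-- The constant of the short distance behaviour, in the smallest volume. -/
  exact : ∀ ε : ℝ, 0 < ε → ∃ m0 : ℕ, ∀ (m j : ℕ) (p q : Pq j), m0 ≤ m → Sep p q → anc j p q = j →
    |(16 : ℝ) ^ (2 * j) * m ^ 2 * Cv μ (F (-m - j)) j p q (φ (-m - j)) (φ (-m - j)) -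
      n / 2 * (8 / cA) ^ 2| ≤ ε
  /-- Positivity. -/
  pos : ∀ (k : ℤ) (j : ℕ) (p q : Pq j), Sep p q → 0 ≤ Cv μ (F k) j p q (φ k) (φ k)
  /-- Large distances: exponential clustering, with the same rate at all cutoffs. -/
  gap : ∃ C c : ℝ, 0 < c ∧ ∀ (k : ℤ) (j : ℕ) (p q : Pq j), k ≤ 0 → 1 ≤ k + anc j p q →
    |(16 : ℝ) ^ (-2 * k) * Cv μ (F k) j p q (φ k) (φ k)| ≤
      C * Real.exp (-(c * (4 : ℝ) ^ (k + anc j p q)))

end

end Pool.Agent.N109.T3
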