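import Mathlib
import Pool.Agent.N989.MK.Uniq3

/-!
# The tangent map of the renormalisation map, and its continuity

`TN` is the renormalisation map with the normalisation `f 1 = 1`, `DT f H` its derivative at `f` in
the direction `H`, `KK f u` the conditional expectation of `u` (of a quarter of a sheet) given the
loop variable of the larger square.
-/

open MeasureTheory Pool.Agent.N991.MK Pool.Agent.N989.MK Filter
open scoped Topology

namespace Pool.Agent.N109.T3

set_option linter.unusedSectionVars false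

noncomputable section

variable {G : Type*} [Group G] [TopologicalSpace G] [IsTopologicalGroup G] [CompactSpace G]
  [MeasurableSpace G] [BorelSpace G] [SecondCountableTopology G]
  (μ : Measure G) [IsProbabilityMeasure μ] [μ.IsHaarMeasure] [μ.IsMulRightInvariant]
  [μ.IsInvInvariant]

/-- the threefold convolution of `f` convolved with `H` -/
def F3 (f H : G → ℝ) : G → ℝ := conv μ (conv μ f f) (conv μ f H)

/-- the renormalisation map with the normalisation at `1` -/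
def TN (f : G → ℝ) : G → ℝ := fun x => (H4 μ f x / H4 μ f 1) ^ 4

/-- the derivative of `TN` at `f` in the direction `H` -/
def DT (f H : G → ℝ) : G → ℝ := fun x =>
  16 * (H4 μ f x / H4 μ f 1) ^ 3 *
    (F3 μ f H x / H4 μ f 1 - H4 μ f x / H4 μ f 1 * (F3 μ f H 1 / H4 μ f 1))

/-- the conditional expectation of `u` of a quarter given the loop variable of the square -/
def KK (f u : G → ℝ) : G → ℝ := fun x => F3 μ f (fun y => f y * u y) x / H4 μ f x

/-- the tangent map for logarithmic derivatives -/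
def RG (f u : G → ℝ) : G → ℝ := fun x => 16 * (KK μ f u x - KK μ f u 1)

/-- iterations of `TN` -/
def TNn (f : G → ℝ) : ℕ → G → ℝ
  | 0 => f
  | k + 1 => TN μ (TNn f k)

/-- iterations of the tangent map -/
def DTn (f H : G → ℝ) : ℕ → G → ℝ
  | 0 => H
  | k + 1 => DT μ (TNn μ f k) (DTn f H k)

/-- iterations of the tangent map for logarithmic derivatives -/
def RGn (f u : G → ℝ) : ℕ → G → ℝ
  | 0 => u
  | k + 1 => RG μ (TNn μ f k) (RGn f u k)

variable {μ}

/-! ### Algebra -/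

lemma conv_add_right {f h k : G → ℝ} (hf : Continuous f) (hh : Continuous h) (hk : Continuous k) :
    conv μ f (fun x => h x + k x) = fun x => conv μ f h x + conv μ f k x := by
  funext x
  unfold Pool.Agent.N991.MK.conv
  rw [← integral_add (integrable_of_cont (by fun_prop)) (integrable_of_cont (by fun_prop))]
  refine integral_congr_ae (Eventually.of_forall fun y => ?_)
  beta_reduce
  ring

lemma conv_smul_right (a : ℝ) (f h : G → ℝ) :
    conv μ f (fun x => a * h x) = fun x => a * conv μ f h x := by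
  funext x
  unfold Pool.Agent.N991.MK.conv
  rw [← integral_const_mul]
  refine integral_congr_ae (Eventually.of_forall fun y => ?_)
  beta_reduce
  ring

lemma conv_smul_left (a : ℝ) (f h : G → ℝ) :
    conv μ (fun x => a * f x) h = fun x => a * conv μ f h x := by
  funext x
  unfold Pool.Agent.N991.MK.conv
  rw [← integral_const_mul]
  refine integral_congr_ae (Eventually.of_forall fun y => ?_)
  beta_reduce
  ring

lemma F3_self (f : G → ℝ) : F3 μ f f = H4 μ f := rfl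

lemma F3_add {f H K : G → ℝ} (hf : Continuous f) (hH : Continuous H) (hK : Continuous K) :
    F3 μ f (fun x => H x + K x) = fun x => F3 μ f H x + F3 μ f K x := by
  unfold F3
  rw [conv_add_right hf hH hK, conv_add_right (cont_conv hf hf) (cont_conv hf hH)
    (cont_conv hf hK)]

lemma F3_smul (a : ℝ) (f H : G → ℝ) : F3 μ f (fun x => a * H x) = fun x => a * F3 μ f H x := by
  unfold F3
  rw [conv_smul_right, conv_smul_right]

lemma F3_scale (a : ℝ) (f H : G → ℝ) :
    F3 μ (fun x => a * f x) H = fun x => a ^ 3 * F3 μ f H x := by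
  unfold F3
  rw [conv_scale, conv_smul_left, conv_smul_left, conv_smul_right]
  funext x
  ring

lemma H4_scale (a : ℝ) (f : G → ℝ) : H4 μ (fun x => a * f x) = fun x => a ^ 4 * H4 μ f x := by
  unfold H4
  rw [conv_scale, conv_scale]
  funext x
  ring

lemma TN_eq (f : G → ℝ) : TN μ f = fun x => (TT μ f 1)⁻¹ * TT μ f x := by
  funext x
  unfold TN TT
  rw [div_pow, div_eq_inv_mul]

lemma TN_one {f : G → ℝ} (h : H4 μ f 1 ≠ 0) : TN μ f 1 = 1 := by
  unfold TN
  rw [div_self h, one_pow]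

lemma TN_scale {a : ℝ} (ha : a ≠ 0) (f : G → ℝ) : TN μ (fun x => a * f x) = TN μ f := by
  unfold TN
  rw [H4_scale]
  funext x
  rw [mul_div_mul_left _ _ (pow_ne_zero 4 ha)]

lemma DT_scale {a : ℝ} (ha : a ≠ 0) (f H : G → ℝ) :
    DT μ (fun x => a * f x) (fun x => a * H x) = DT μ f H := by
  have ha4 : a ^ 4 ≠ 0 := pow_ne_zero 4 ha
  have e : F3 μ (fun x => a * f x) (fun x => a * H x) = fun x => a ^ 4 * F3 μ f H x := by
    rw [F3_smul, F3_scale]
    funext x
    ring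
  unfold DT
  rw [H4_scale, e]
  funext x
  rw [mul_div_mul_left _ _ ha4, mul_div_mul_left _ _ ha4, mul_div_mul_left _ _ ha4]

lemma DT_add {f H K : G → ℝ} (hf : Continuous f) (hH : Continuous H) (hK : Continuous K) :
    DT μ f (fun x => H x + K x) = fun x => DT μ f H x + DT μ f K x := by
  unfold DT
  rw [F3_add hf hH hK]
  funext x
  ring

lemma DT_smul (a : ℝ) (f H : G → ℝ) :
    DT μ f (fun x => a * H x) = fun x => a * DT μ f H x := by
  unfold DT
  rw [F3_smul]
  funext x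
  ring

lemma DT_sub {f H K : G → ℝ} (hf : Continuous f) (hH : Continuous H) (hK : Continuous K) :
    DT μ f (fun x => H x - K x) = fun x => DT μ f H x - DT μ f K x := by
  have hK' : Continuous fun x => -1 * K x := by fun_prop
  have h1 := DT_add (μ := μ) hf hH hK'
  rw [DT_smul] at h1
  have e : (fun x => H x - K x) = fun x => H x + -1 * K x := by
    funext x
    ring
  rw [e, h1]
  funext x
  ring

/-- the direction `f` is in the kernel -/
lemma DT_self {f : G → ℝ} (h : H4 μ f 1 ≠ 0) : DT μ f f = fun _ => 0 := by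
  unfold DT
  rw [F3_self]
  funext x
  rw [div_self h]
  ring

lemma DT_one {f : G → ℝ} (h : H4 μ f 1 ≠ 0) (H : G → ℝ) : DT μ f H 1 = 0 := by
  unfold DT
  rw [div_self h]
  ring

/-- the tangent map for the logarithmic derivative -/
lemma DT_log {f : G → ℝ} (h : ∀ x, H4 μ f x ≠ 0) (u : G → ℝ) :
    DT μ f (fun x => f x * u x) = fun x => TN μ f x * RG μ f u x := by
  funext x
  unfold DT TN RG KK
  have h1 := h 1
  have h2 := h x
  field_simp

lemma KK_scale {a : ℝ} (ha : a ≠ 0) (f u : G → ℝ) : KK μ (fun x => a * f x) u = KK μ f u := by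
  have ha4 : a ^ 4 ≠ 0 := pow_ne_zero 4 ha
  have e : F3 μ (fun x => a * f x) (fun y => a * f y * u y) = fun x =>
      a ^ 4 * F3 μ f (fun y => f y * u y) x := by
    have e1 : (fun y => a * f y * u y) = fun y => a * (f y * u y) := by
      funext y
      ring
    rw [e1, F3_smul, F3_scale]
    funext x
    ring
  unfold KK
  rw [H4_scale, e]
  funext x
  rw [mul_div_mul_left _ _ ha4]

lemma RG_scale {a : ℝ} (ha : a ≠ 0) (f u : G → ℝ) : RG μ (fun x => a * f x) u = RG μ f u := by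
  unfold RG
  rw [KK_scale ha]

/-- the conditional expectation of a constant -/
lemma KK_const {f : G → ℝ} (h : ∀ x, H4 μ f x ≠ 0) (a : ℝ) :
    KK μ f (fun _ => a) = fun _ => a := by
  funext x
  unfold KK
  have e1 : (fun y => f y * a) = fun y => a * f y := by
    funext y
    ring
  rw [e1, F3_smul, F3_self, mul_div_assoc, div_self (h x), mul_one]

lemma TNn_eq (f : G → ℝ) (hA : Adm f) (k : ℕ) :
    ∃ a : ℝ, 0 < a ∧ TNn μ f k = fun x => a * TTn μ f k x := by
  induction k with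
  | zero => exact ⟨1, one_pos, by funext x; simp [TNn, TTn]⟩
  | succ k ih =>
    obtain ⟨a, ha, h1⟩ := ih
    have hT := (hA.TTn (μ := μ) k).TT (μ := μ)
    refine ⟨(TT μ (TTn μ f k) 1)⁻¹, inv_pos.2 (hT.pos 1), ?_⟩
    change TN μ (TNn μ f k) = _
    rw [h1, TN_scale ha.ne', TN_eq]
    rfl

/-! ### Regularity -/

lemma cont_F3 {f H : G → ℝ} (hf : Continuous f) (hH : Continuous H) : Continuous (F3 μ f H) :=
  cont_conv (cont_conv hf hf) (cont_conv hf hH)

lemma cont_H4 {f : G → ℝ} (hf : Continuous f) : Continuous (H4 μ f) := cont_F3 hf hf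

lemma cont_TN {f : G → ℝ} (hf : Continuous f) : Continuous (TN μ f) :=
  ((cont_H4 hf).div_const _).pow 4

lemma cont_TNn {f : G → ℝ} (hf : Continuous f) : ∀ k, Continuous (TNn μ f k)
  | 0 => hf
  | k + 1 => cont_TN (cont_TNn hf k)

lemma cont_DT {f H : G → ℝ} (hf : Continuous f) (hH : Continuous H) : Continuous (DT μ f H) := by
  have h1 := cont_H4 (μ := μ) hf
  have h2 := cont_F3 (μ := μ) hf hH
  unfold DT
  fun_prop

lemma cont_DTn {f H : G → ℝ} (hf : Continuous f) (hH : Continuous H) :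
    ∀ k, Continuous (DTn μ f H k)
  | 0 => hH
  | k + 1 => cont_DT (cont_TNn hf k) (cont_DTn hf hH k)

lemma DTn_sub {f H K : G → ℝ} (hf : Continuous f) (hH : Continuous H) (hK : Continuous K) :
    ∀ k, DTn μ f (fun x => H x - K x) k = fun x => DTn μ f H k x - DTn μ f K k x
  | 0 => rfl
  | k + 1 => by
    change DT μ (TNn μ f k) (DTn μ f (fun x => H x - K x) k) = _
    rw [DTn_sub hf hH hK k, DT_sub (cont_TNn hf k) (cont_DTn hf hH k) (cont_DTn hf hK k)]
    rfl

lemma cls_F3 {f H : G → ℝ} (hf : Cls f) (hH : Cls H) : Cls (F3 μ f H) :=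
  conv_cls (conv_cls hf hf) (conv_cls hf hH)

lemma sy_F3 {f H : G → ℝ} (hf : Cls f) (hH : Cls H) (sf : Sy f) (sH : Sy H) : Sy (F3 μ f H) :=
  conv_sy (conv_cls hf hf) (conv_cls hf hH) (conv_sy hf hf sf sf) (conv_sy hf hH sf sH)

lemma cls_DT {f H : G → ℝ} (hf : Cls f) (hH : Cls H) : Cls (DT μ f H) := by
  intro g x
  unfold DT
  have h1 : H4 μ f (g * x * g⁻¹) = H4 μ f x := cls_F3 (μ := μ) hf hf g x
  rw [h1, cls_F3 hf hH g x]

lemma sy_DT {f H : G → ℝ} (hf : Cls f) (hH : Cls H) (sf : Sy f) (sH : Sy H) :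
    Sy (DT μ f H) := by
  intro x
  unfold DT
  have h1 : H4 μ f x⁻¹ = H4 μ f x := sy_F3 (μ := μ) hf hf sf sf x
  rw [h1, sy_F3 hf hH sf sH x]

/-! ### Uniform closeness along a filter -/

variable {ι : Type*} {l : Filter ι}

/-- the difference of the two families tends to zero uniformly -/
def UL (l : Filter ι) (f g : ι → G → ℝ) : Prop :=
  ∀ ε : ℝ, 0 < ε → ∀ᶠ i in l, ∀ x, |f i x - g i x| < ε

/-- eventually uniformly bounded families of continuous functions -/
def Bd (l : Filter ι) (f : ι → G → ℝ) : Prop :=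
  (∀ i, Continuous (f i)) ∧ ∃ B : ℝ, ∀ᶠ i in l, ∀ x, |f i x| ≤ B

/-- families with positive uniform bounds -/
def Gd (l : Filter ι) (f : ι → G → ℝ) : Prop :=
  (∀ i, Continuous (f i)) ∧ ∃ c B : ℝ, 0 < c ∧ ∀ᶠ i in l, ∀ x, c ≤ f i x ∧ f i x ≤ B

lemma Gd.bd {f : ι → G → ℝ} (h : Gd l f) : Bd l f := by
  obtain ⟨h1, c, B, hc, h2⟩ := h
  refine ⟨h1, B, ?_⟩
  filter_upwards [h2] with i hi x
  have h3 := hi x
  rw [abs_le]
  constructor <;> linarith

lemma Bd.exists_pos {f : ι → G → ℝ} (h : Bd l f) :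
    ∃ B : ℝ, 1 ≤ B ∧ ∀ᶠ i in l, ∀ x, |f i x| ≤ B := by
  obtain ⟨h1, B, h2⟩ := h
  refine ⟨max B 1, le_max_right _ _, ?_⟩
  filter_upwards [h2] with i hi x
  exact (hi x).trans (le_max_left _ _)

lemma abs_conv_le {f h : G → ℝ} {A B : ℝ} (hA : 0 ≤ A) (hf : ∀ x, |f x| ≤ A)
    (hh : ∀ x, |h x| ≤ B) (x : G) : |conv μ f h x| ≤ A * B := by
  unfold Pool.Agent.N991.MK.conv
  have h3 : ∀ y, ‖f y * h (y⁻¹ * x)‖ ≤ A * B := by
    intro y
    rw [Real.norm_eq_abs, abs_mul]
    exact mul_le_mul (hf y) (hh _) (abs_nonneg _) hA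
  have h4 := norm_integral_le_of_norm_le_const (μ := μ) (Eventually.of_forall h3)
  simpa using h4

lemma conv_lower {f h : G → ℝ} (hf : Continuous f) (hh : Continuous h) {a b : ℝ} (ha : 0 ≤ a)
    (hb : 0 ≤ b) (h1 : ∀ x, a ≤ f x) (h2 : ∀ x, b ≤ h x) (x : G) : a * b ≤ conv μ f h x := by
  unfold Pool.Agent.N991.MK.conv
  have h3 : ∫ _ : G, a * b ∂μ ≤ ∫ y, f y * h (y⁻¹ * x) ∂μ := by
    refine integral_mono (integrable_const _) (integrable_of_cont (by fun_prop)) fun y => ?_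
    exact mul_le_mul (h1 y) (h2 _) hb (ha.trans (h1 y))
  simpa using h3

lemma Bd.conv {f h : ι → G → ℝ} (hf : Bd l f) (hh : Bd l h) :
    Bd l (fun i => conv μ (f i) (h i)) := by
  obtain ⟨A, hA, h1⟩ := hf.exists_pos
  obtain ⟨B, hB, h2⟩ := hh.exists_pos
  refine ⟨fun i => cont_conv (hf.1 i) (hh.1 i), A * B, ?_⟩
  filter_upwards [h1, h2] with i a b x
  exact abs_conv_le (by linarith) a b x

lemma Gd.conv {f h : ι → G → ℝ} (hf : Gd l f) (hh : Gd l h) :
    Gd l (fun i => conv μ (f i) (h i)) := by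
  obtain ⟨hfc, a, A, ha, h1⟩ := hf
  obtain ⟨hhc, b, B, hb, h2⟩ := hh
  refine ⟨fun i => cont_conv (hfc i) (hhc i), a * b, |A| * B, mul_pos ha hb, ?_⟩
  filter_upwards [h1, h2] with i h1 h2 x
  refine ⟨conv_lower (hfc i) (hhc i) ha.le hb.le (fun x => (h1 x).1) (fun x => (h2 x).1) x, ?_⟩
  refine (le_abs_self _).trans (abs_conv_le (abs_nonneg A) (fun x => ?_) (fun x => ?_) x)
  · rw [abs_of_pos (ha.trans_le (h1 x).1)]
    exact (h1 x).2.trans (le_abs_self A)
  · rw [abs_of_pos (hb.trans_le (h2 x).1)]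
    exact (h2 x).2

lemma UL.conv {f f' h h' : ι → G → ℝ} (hf : Bd l f) (hf' : Bd l f') (hh : Bd l h)
    (hh' : Bd l h') (uf : UL l f f') (uh : UL l h h') :
    UL l (fun i => conv μ (f i) (h i)) (fun i => conv μ (f' i) (h' i)) := by
  obtain ⟨A, hA, h1⟩ := hf'.exists_pos
  obtain ⟨B, hB, h2⟩ := hh.exists_pos
  intro ε hε
  have hA0 : 0 < A := by linarith
  have hB0 : 0 < B := by linarith
  filter_upwards [h1, h2, uf (ε / (4 * B)) (by positivity), uh (ε / (4 * A)) (by positivity)]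
    with i g1 g2 g3 g4 x
  unfold Pool.Agent.N991.MK.conv
  have c1 : Continuous fun y => f i y * h i (y⁻¹ * x) := by
    have := hf.1 i
    have := hh.1 i
    fun_prop
  have c2 : Continuous fun y => f' i y * h' i (y⁻¹ * x) := by
    have := hf'.1 i
    have := hh'.1 i
    fun_prop
  rw [← integral_sub (integrable_of_cont c1) (integrable_of_cont c2)]
  have h3 : ∀ y, ‖f i y * h i (y⁻¹ * x) - f' i y * h' i (y⁻¹ * x)‖ ≤ ε / 2 := by
    intro y
    have e : f i y * h i (y⁻¹ * x) - f' i y * h' i (y⁻¹ * x) =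
        (f i y - f' i y) * h i (y⁻¹ * x) + f' i y * (h i (y⁻¹ * x) - h' i (y⁻¹ * x)) := by ring
    rw [e, Real.norm_eq_abs]
    refine (abs_add_le _ _).trans ?_
    rw [abs_mul, abs_mul]
    have k1 := mul_le_mul (g3 y).le (g2 (y⁻¹ * x)) (abs_nonneg _) (by positivity)
    have k2 := mul_le_mul (g1 y) (g4 (y⁻¹ * x)).le (abs_nonneg _) hA0.le
    have e2 : ε / (4 * B) * B = ε / 4 := by field_simp
    have e3 : A * (ε / (4 * A)) = ε / 4 := by field_simp
    rw [e2] at k1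
    rw [e3] at k2
    linarith
  have h4 := norm_integral_le_of_norm_le_const (μ := μ) (Eventually.of_forall h3)
  simp only [probReal_univ, mul_one] at h4
  rw [Real.norm_eq_abs] at h4
  linarith

lemma Bd.mul {f h : ι → G → ℝ} (hf : Bd l f) (hh : Bd l h) :
    Bd l (fun i x => f i x * h i x) := by
  obtain ⟨hfc, A, h1⟩ := hf
  obtain ⟨hhc, B, h2⟩ := hh
  refine ⟨fun i => (hfc i).mul (hhc i), A * B, ?_⟩
  filter_upwards [h1, h2] with i a b x
  rw [abs_mul]
  exact mul_le_mul (a x) (b x) (abs_nonneg _) ((abs_nonneg _).trans (a x))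

lemma Bd.sub {f h : ι → G → ℝ} (hf : Bd l f) (hh : Bd l h) :
    Bd l (fun i x => f i x - h i x) := by
  obtain ⟨hfc, A, h1⟩ := hf
  obtain ⟨hhc, B, h2⟩ := hh
  refine ⟨fun i => (hfc i).sub (hhc i), A + B, ?_⟩
  filter_upwards [h1, h2] with i a b x
  have := abs_sub (f i x) (h i x)
  have := a x
  have := b x
  linarith

lemma UL.mul {f f' h h' : ι → G → ℝ} (hf' : Bd l f') (hh : Bd l h) (uf : UL l f f')
    (uh : UL l h h') : UL l (fun i x => f i x * h i x) (fun i x => f' i x * h' i x) := by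
  obtain ⟨A, hA, h1⟩ := hf'.exists_pos
  obtain ⟨B, hB, h2⟩ := hh.exists_pos
  intro ε hε
  have hA0 : 0 < A := by linarith
  have hB0 : 0 < B := by linarith
  filter_upwards [h1, h2, uf (ε / (4 * B)) (by positivity), uh (ε / (4 * A)) (by positivity)]
    with i g1 g2 g3 g4 y
  have e : f i y * h i y - f' i y * h' i y =
      (f i y - f' i y) * h i y + f' i y * (h i y - h' i y) := by ring
  rw [e]
  refine (abs_add_le _ _).trans_lt ?_
  rw [abs_mul, abs_mul]
  have k1 := mul_le_mul (g3 y).le (g2 y) (abs_nonneg _) (by positivity)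
  have k2 := mul_le_mul (g1 y) (g4 y).le (abs_nonneg _) hA0.le
  have e2 : ε / (4 * B) * B = ε / 4 := by field_simp
  have e3 : A * (ε / (4 * A)) = ε / 4 := by field_simp
  rw [e2] at k1
  rw [e3] at k2
  linarith

lemma UL.sub {f f' h h' : ι → G → ℝ} (uf : UL l f f') (uh : UL l h h') :
    UL l (fun i x => f i x - h i x) (fun i x => f' i x - h' i x) := by
  intro ε hε
  filter_upwards [uf (ε / 2) (half_pos hε), uh (ε / 2) (half_pos hε)] with i g1 g2 x
  have e : f i x - h i x - (f' i x - h' i x) = (f i x - f' i x) - (h i x - h' i x) := by ring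
  rw [e]
  refine (abs_sub _ _).trans_lt ?_
  have := g1 x
  have := g2 x
  linarith

lemma UL.symm {f f' : ι → G → ℝ} (uf : UL l f f') : UL l f' f := by
  intro ε hε
  filter_upwards [uf ε hε] with i g1 x
  rw [abs_sub_comm]
  exact g1 x

lemma UL.trans {f f' f'' : ι → G → ℝ} (uf : UL l f f') (uh : UL l f' f'') : UL l f f'' := by
  intro ε hε
  filter_upwards [uf (ε / 2) (half_pos hε), uh (ε / 2) (half_pos hε)] with i g1 g2 x
  have := g1 x
  have := g2 x
  have := abs_sub_le (f i x) (f' i x) (f'' i x)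
  linarith

lemma UL.refl (f : ι → G → ℝ) : UL l f f := by
  intro ε hε
  exact Eventually.of_forall fun i x => by simpa using hε

/-- constants -/
lemma UL.at {f f' : ι → G → ℝ} (uf : UL l f f') (y : G) :
    UL l (fun i (_ : G) => f i y) (fun i _ => f' i y) := by
  intro ε hε
  filter_upwards [uf ε hε] with i g1 x
  exact g1 y

lemma Bd.at {f : ι → G → ℝ} (hf : Bd l f) (y : G) : Bd l (fun i (_ : G) => f i y) := by
  obtain ⟨hfc, A, h1⟩ := hf
  refine ⟨fun i => continuous_const, A, ?_⟩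
  filter_upwards [h1] with i a x
  exact a y

lemma Gd.at {f : ι → G → ℝ} (hf : Gd l f) (y : G) : Gd l (fun i (_ : G) => f i y) := by
  obtain ⟨hfc, c, A, hc, h1⟩ := hf
  refine ⟨fun i => continuous_const, c, A, hc, ?_⟩
  filter_upwards [h1] with i a x
  exact a y

/-- the inverse; the continuity of the inverse is a hypothesis, since the functions are positive
only eventually -/
lemma UL.inv {f f' : ι → G → ℝ} (hf : Gd l f) (hf' : Gd l f') (uf : UL l f f') :
    UL l (fun i x => (f i x)⁻¹) (fun i x => (f' i x)⁻¹) := by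
  obtain ⟨-, c, A, hc, h1⟩ := hf
  obtain ⟨-, c', A', hc', h1'⟩ := hf'
  intro ε hε
  filter_upwards [h1, h1', uf (ε * (c * c')) (by positivity)] with i g1 g2 g3 x
  have a1 := (g1 x).1
  have a2 := (g2 x).1
  have p1 : 0 < f i x := hc.trans_le a1
  have p2 : 0 < f' i x := hc'.trans_le a2
  have e : (f i x)⁻¹ - (f' i x)⁻¹ = (f' i x - f i x) / (f i x * f' i x) := by
    field_simp
  rw [e, abs_div, abs_of_pos (mul_pos p1 p2), div_lt_iff₀ (mul_pos p1 p2), abs_sub_comm]
  refine (g3 x).trans_le (mul_le_mul_of_nonneg_left ?_ hε.le)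
  exact mul_le_mul a1 a2 hc'.le p1.le

lemma Bd.inv1 {f : ι → G → ℝ} (hf : Gd l f) (y : G) : Bd l (fun i (_ : G) => (f i y)⁻¹) := by
  obtain ⟨-, c, A, hc, h1⟩ := hf
  refine ⟨fun i => continuous_const, c⁻¹, ?_⟩
  filter_upwards [h1] with i g1 x
  rw [abs_of_pos (inv_pos.2 (hc.trans_le (g1 y).1))]
  exact inv_anti₀ hc (g1 y).1

lemma Gd.F3 {f h : ι → G → ℝ} (hf : Gd l f) (hh : Gd l h) :
    Gd l (fun i => F3 μ (f i) (h i)) := Gd.conv (hf.conv hf) (hf.conv hh)

lemma Bd.F3 {f h : ι → G → ℝ} (hf : Bd l f) (hh : Bd l h) :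
    Bd l (fun i => F3 μ (f i) (h i)) := (hf.conv hf).conv (hf.conv hh)

lemma UL.F3 {f f' h h' : ι → G → ℝ} (hf : Bd l f) (hf' : Bd l f') (hh : Bd l h)
    (hh' : Bd l h') (uf : UL l f f') (uh : UL l h h') :
    UL l (fun i => F3 μ (f i) (h i)) (fun i => F3 μ (f' i) (h' i)) :=
  UL.conv (hf.conv hf) (hf'.conv hf') (hf.conv hh) (hf'.conv hh') (UL.conv hf hf' hf hf' uf uf)
    (UL.conv hf hf' hh hh' uf uh)

lemma Gd.H4 {f : ι → G → ℝ} (hf : Gd l f) : Gd l (fun i => H4 μ (f i)) := hf.F3 hf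

/-- the quotient by the value at one -/
lemma Bd.quo {f h : ι → G → ℝ} (hf : Gd l f) (hh : Bd l h) :
    Bd l (fun i x => h i x / f i 1) := by
  have h1 := hh.mul (Bd.inv1 hf (1 : G))
  exact h1

lemma UL.quo {f f' h h' : ι → G → ℝ} (hf : Gd l f) (hf' : Gd l f') (hh : Bd l h)
    (hh' : Bd l h') (uf : UL l f f') (uh : UL l h h') :
    UL l (fun i x => h i x / f i 1) (fun i x => h' i x / f' i 1) :=
  UL.mul hh' (Bd.inv1 hf 1) uh (UL.inv (hf.at 1) (hf'.at 1) (uf.at 1))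

lemma Gd.quo {f : ι → G → ℝ} (hf : Gd l f) : Gd l (fun i x => f i x / f i 1) := by
  obtain ⟨hfc, c, A, hc, h1⟩ := hf
  refine ⟨fun i => (hfc i).div_const _, c / (|A| + c), |A| / c, by positivity, ?_⟩
  filter_upwards [h1] with i g x
  have p1 : 0 < f i 1 := hc.trans_le (g 1).1
  have p2 : f i 1 ≤ |A| + c := ((g 1).2.trans (le_abs_self A)).trans (by linarith)
  refine ⟨?_, ?_⟩
  · exact div_le_div₀ (hc.le.trans (g x).1) (g x).1 p1 p2
  · exact div_le_div₀ (abs_nonneg _) ((g x).2.trans (le_abs_self A)) hc (g 1).1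

lemma Gd.pow {f : ι → G → ℝ} (hf : Gd l f) (m : ℕ) : Gd l (fun i x => f i x ^ m) := by
  obtain ⟨hfc, c, A, hc, h1⟩ := hf
  refine ⟨fun i => (hfc i).pow m, c ^ m, A ^ m, by positivity, ?_⟩
  filter_upwards [h1] with i g x
  exact ⟨pow_le_pow_left₀ hc.le (g x).1 m, pow_le_pow_left₀ (hc.le.trans (g x).1) (g x).2 m⟩

lemma UL.pow {f f' : ι → G → ℝ} (hf : Bd l f) (hf' : Bd l f') (uf : UL l f f') :
    ∀ m : ℕ, UL l (fun i x => f i x ^ m) (fun i x => f' i x ^ m) ∧
      Bd l (fun i x => f i x ^ m) ∧ Bd l (fun i x => f' i x ^ m)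
  | 0 => by
    have hb : Bd l (fun (_ : ι) (_ : G) => (1 : ℝ)) :=
      ⟨fun i => continuous_const, 1, Eventually.of_forall fun i x => by simp⟩
    have e1 : (fun i x => f i x ^ 0) = fun (_ : ι) (_ : G) => (1 : ℝ) := by
      funext i x
      simp
    have e2 : (fun i x => f' i x ^ 0) = fun (_ : ι) (_ : G) => (1 : ℝ) := by
      funext i x
      simp
    rw [e1, e2]
    exact ⟨UL.refl _, hb, hb⟩
  | m + 1 => by
    obtain ⟨h1, h2, h3⟩ := UL.pow hf hf' uf m
    have e1 : (fun i x => f i x ^ (m + 1)) = fun i x => f i x ^ m * f i x := by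
      funext i x
      rw [pow_succ]
    have e2 : (fun i x => f' i x ^ (m + 1)) = fun i x => f' i x ^ m * f' i x := by
      funext i x
      rw [pow_succ]
    rw [e1, e2]
    exact ⟨UL.mul h3 hf h1 uf, h2.mul hf, h3.mul hf'⟩

lemma Gd.TN {f : ι → G → ℝ} (hf : Gd l f) : Gd l (fun i => TN μ (f i)) :=
  ((hf.H4 (μ := μ)).quo).pow 4

lemma UL.H4 {f f' : ι → G → ℝ} (hf : Bd l f) (hf' : Bd l f') (uf : UL l f f') :
    UL l (fun i => H4 μ (f i)) (fun i => H4 μ (f' i)) := UL.F3 hf hf' hf hf' uf uf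

lemma UL.gg {f f' : ι → G → ℝ} (hf : Gd l f) (hf' : Gd l f') (uf : UL l f f') :
    UL l (fun i x => Pool.Agent.N989.MK.H4 μ (f i) x / Pool.Agent.N989.MK.H4 μ (f i) 1)
      (fun i x => Pool.Agent.N989.MK.H4 μ (f' i) x / Pool.Agent.N989.MK.H4 μ (f' i) 1) :=
  UL.quo hf.H4 hf'.H4 hf.H4.bd hf'.H4.bd (UL.H4 hf.bd hf'.bd uf) (UL.H4 hf.bd hf'.bd uf)

lemma UL.TN {f f' : ι → G → ℝ} (hf : Gd l f) (hf' : Gd l f') (uf : UL l f f') :
    UL l (fun i => TN μ (f i)) (fun i => TN μ (f' i)) :=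
  (UL.pow (hf.H4 (μ := μ)).quo.bd (hf'.H4 (μ := μ)).quo.bd (UL.gg hf hf' uf) 4).1

/-- the quotient which occurs in the tangent map -/
lemma UL.vv {f f' H H' : ι → G → ℝ} (hf : Gd l f) (hf' : Gd l f') (hH : Bd l H) (hH' : Bd l H')
    (uf : UL l f f') (uH : UL l H H') :
    UL l (fun i x => Pool.Agent.N109.T3.F3 μ (f i) (H i) x / Pool.Agent.N989.MK.H4 μ (f i) 1)
      (fun i x => Pool.Agent.N109.T3.F3 μ (f' i) (H' i) x /
        Pool.Agent.N989.MK.H4 μ (f' i) 1) :=
  UL.quo hf.H4 hf'.H4 (hf.bd.F3 hH) (hf'.bd.F3 hH') (UL.H4 hf.bd hf'.bd uf)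
    (UL.F3 hf.bd hf'.bd hH hH' uf uH)

lemma Bd.const (a : ℝ) : Bd l (fun (_ : ι) (_ : G) => a) :=
  ⟨fun _ => continuous_const, |a|, Eventually.of_forall fun _ _ => le_rfl⟩

lemma Bd.DT {f H : ι → G → ℝ} (hf : Gd l f) (hH : Bd l H) : Bd l (fun i => DT μ (f i) (H i)) := by
  have b1 := (hf.H4 (μ := μ)).quo
  have b2 := Bd.quo (hf.H4 (μ := μ)) (hf.bd.F3 (μ := μ) hH)
  exact ((Bd.const 16).mul (b1.pow 3).bd).mul (b2.sub (b1.bd.mul (b2.at 1)))

lemma UL.DT {f f' H H' : ι → G → ℝ} (hf : Gd l f) (hf' : Gd l f') (hH : Bd l H) (hH' : Bd l H')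
    (uf : UL l f f') (uH : UL l H H') :
    UL l (fun i => DT μ (f i) (H i)) (fun i => DT μ (f' i) (H' i)) := by
  have b1 := (hf.H4 (μ := μ)).quo
  have b2 := Bd.quo (hf.H4 (μ := μ)) (hf.bd.F3 (μ := μ) hH)
  have b1' := (hf'.H4 (μ := μ)).quo
  have b2' := Bd.quo (hf'.H4 (μ := μ)) (hf'.bd.F3 (μ := μ) hH')
  have u1 := UL.gg (μ := μ) hf hf' uf
  have u2 := UL.vv (μ := μ) hf hf' hH hH' uf uH
  have u3 := (UL.pow b1.bd b1'.bd u1 3).1
  have u4 := UL.mul (Bd.const (16 : ℝ)) (b1.pow 3).bd (UL.refl _) u3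
  have u5 := UL.mul b1'.bd (b2.at 1) u1 (u2.at 1)
  exact UL.mul ((Bd.const 16).mul (b1'.pow 3).bd) (b2.sub (b1.bd.mul (b2.at 1))) u4 (u2.sub u5)

/-! ### Iterations -/

lemma Gd.TNn {f : ι → G → ℝ} (hf : Gd l f) : ∀ n : ℕ, Gd l (fun i => TNn μ (f i) n)
  | 0 => hf
  | n + 1 => (Gd.TNn hf n).TN

lemma UL.TNn {f f' : ι → G → ℝ} (hf : Gd l f) (hf' : Gd l f') (uf : UL l f f') :
    ∀ n : ℕ, UL l (fun i => TNn μ (f i) n) (fun i => TNn μ (f' i) n)
  | 0 => uf
  | n + 1 => UL.TN (hf.TNn n) (hf'.TNn n) (UL.TNn hf hf' uf n)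

lemma Bd.DTn {f H : ι → G → ℝ} (hf : Gd l f) (hH : Bd l H) :
    ∀ n : ℕ, Bd l (fun i => DTn μ (f i) (H i) n)
  | 0 => hH
  | n + 1 => Bd.DT (hf.TNn (μ := μ) n) (Bd.DTn hf hH n)

/-- **The continuity of the tangent map** -/
theorem UL.DTn {f f' H H' : ι → G → ℝ} (hf : Gd l f) (hf' : Gd l f') (hH : Bd l H)
    (hH' : Bd l H') (uf : UL l f f') (uH : UL l H H') :
    ∀ n : ℕ, UL l (fun i => DTn μ (f i) (H i) n) (fun i => DTn μ (f' i) (H' i) n)
  | 0 => uH
  | n + 1 => UL.DT (hf.TNn (μ := μ) n) (hf'.TNn (μ := μ) n) (Bd.DTn hf hH n)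
      (Bd.DTn hf' hH' n) (UL.TNn hf hf' uf n) (UL.DTn hf hf' hH hH' uf uH n)

/-! ### Limits of sequences -/

lemma gd_of_UT {f : ℕ → G → ℝ} {F : G → ℝ} (hc : ∀ i, Continuous (f i)) (hF : Continuous F)
    (hp : ∀ x, 0 < F x) (h : UT f F) : Gd atTop f := by
  obtain ⟨x0, -, hx0⟩ := isCompact_univ.exists_isMinOn (Set.univ_nonempty (α := G))
    hF.continuousOn
  obtain ⟨B, hB1, hB⟩ := exists_bd hF
  refine ⟨hc, F x0 / 2, B, half_pos (hp x0), ?_⟩
  filter_upwards [h (F x0 / 2) (half_pos (hp x0)), h 1 one_pos] with i a b x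
  have h1 := abs_lt.1 (a x)
  have h2 := abs_lt.1 (b x)
  have h3 : F x0 ≤ F x := hx0 (Set.mem_univ x)
  have h4 := hB x
  have h5 := le_abs_self (F x)
  constructor <;> linarith

/-- a uniform Cauchy sequence has a limit -/
lemma exists_UT_of_cauchy {H : ℕ → G → ℝ} (hc : ∀ i, Continuous (H i))
    (h : UL (atTop ×ˢ atTop) (fun p : ℕ × ℕ => H p.1) (fun p => H p.2)) :
    ∃ L : G → ℝ, Continuous L ∧ UT H L := by
  have hC : UniformCauchySeqOn H atTop Set.univ := by
    rw [Metric.uniformCauchySeqOn_iff]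
    intro ε hε
    have h1 := h ε hε
    rw [prod_atTop_atTop_eq, eventually_atTop_prod_self] at h1
    obtain ⟨N, hN⟩ := h1
    refine ⟨N, fun m hm n hn x _ => ?_⟩
    rw [Real.dist_eq]
    exact hN m n hm hn x
  have hp : ∀ x, ∃ y, Tendsto (fun i => H i x) atTop (𝓝 y) := fun x =>
    cauchySeq_tendsto_of_complete (hC.cauchySeq (Set.mem_univ x))
  choose L hL using hp
  have hU : TendstoUniformlyOn H L atTop Set.univ :=
    hC.tendstoUniformlyOn_of_tendsto fun x _ => hL x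
  rw [tendstoUniformlyOn_univ] at hU
  refine ⟨L, hU.continuous (Eventually.of_forall hc).frequently, fun ε hε => ?_⟩
  have h2 := Metric.tendstoUniformly_iff.1 hU ε hε
  filter_upwards [h2] with i hi x
  have h3 := hi x
  rwa [dist_comm, Real.dist_eq] at h3

lemma UL.of_UT {f f' : ℕ → G → ℝ} {F : G → ℝ} (h : UT f F) (h' : UT f' F) {ι : Type*}
    {l : Filter ι} {a b : ι → ℕ} (ha : Tendsto a l atTop) (hb : Tendsto b l atTop) :
    UL l (fun i => f (a i)) (fun i => f' (b i)) := by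
  intro ε hε
  filter_upwards [ha.eventually (h (ε / 2) (half_pos hε)),
    hb.eventually (h' (ε / 2) (half_pos hε))] with i g1 g2 x
  have h1 := g1 x
  have h2 := g2 x
  rw [abs_sub_comm] at h2
  have := abs_sub_le (f (a i) x) (F x) (f' (b i) x)
  linarith

lemma UL.tendsto_left {f : ℕ → G → ℝ} {F : G → ℝ} (h : UT f F) : UL atTop f (fun _ => F) := h

lemma Gd.comp {ι : Type*} {l : Filter ι} {f : ℕ → G → ℝ} (h : Gd atTop f) {a : ι → ℕ}
    (ha : Tendsto a l atTop) : Gd l (fun i => f (a i)) := by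
  obtain ⟨h1, c, B, hc, h2⟩ := h
  exact ⟨fun i => h1 _, c, B, hc, ha.eventually h2⟩

lemma Bd.comp {ι : Type*} {l : Filter ι} {f : ℕ → G → ℝ} (h : Bd atTop f) {a : ι → ℕ}
    (ha : Tendsto a l atTop) : Bd l (fun i => f (a i)) := by
  obtain ⟨h1, B, h2⟩ := h
  exact ⟨fun i => h1 _, B, ha.eventually h2⟩

end

end Pool.Agent.N109.T3
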