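import Mathlib
import Pool.Agent.N109.T3.Cont

/-!
# The tangent map for logarithmic derivatives
-/

open MeasureTheory Pool.Agent.N991.MK Pool.Agent.N989.MK Filter
open scoped Topology

namespace Pool.Agent.N109.T3

set_option linter.unusedSectionVars false

noncomputable section

variable {G : Type*} [Group G] [TopologicalSpace G] [IsTopologicalGroup G] [CompactSpace G]
  [MeasurableSpace G] [BorelSpace G] [SecondCountableTopology G]
  {μ : Measure G} [IsProbabilityMeasure μ] [μ.IsHaarMeasure] [μ.IsMulRightInvariant]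
  [μ.IsInvInvariant]

/-! ### Algebra of the tangent map -/

lemma F3_mul_add {f u v : G → ℝ} (hf : Continuous f) (hu : Continuous u) (hv : Continuous v) :
    F3 μ f (fun y => f y * (u y + v y)) =
      fun x => F3 μ f (fun y => f y * u y) x + F3 μ f (fun y => f y * v y) x := by
  have e : (fun y => f y * (u y + v y)) = fun y => f y * u y + f y * v y := by
    funext y
    ring
  rw [e]
  exact F3_add (H := fun y => f y * u y) (K := fun y => f y * v y) hf (hf.mul hu) (hf.mul hv)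

lemma RG_sub {f u v : G → ℝ} (hf : Continuous f) (hu : Continuous u) (hv : Continuous v) :
    RG μ f (fun x => u x - v x) = fun x => RG μ f u x - RG μ f v x := by
  have h1 : F3 μ f (fun y => f y * u y) =
      fun x => F3 μ f (fun y => f y * (u y - v y)) x + F3 μ f (fun y => f y * v y) x := by
    rw [← F3_mul_add (u := fun y => u y - v y) hf (hu.sub hv) hv]
    congr 1
    funext y
    ring
  funext x
  unfold RG KK
  rw [h1]
  ring

lemma RG_smul (a : ℝ) (f u : G → ℝ) : RG μ f (fun x => a * u x) = fun x => a * RG μ f u x := by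
  have h1 : F3 μ f (fun y => f y * (a * u y)) =
      fun x => a * F3 μ f (fun y => f y * u y) x := by
    rw [← F3_smul]
    congr 1
    funext y
    ring
  funext x
  unfold RG KK
  rw [h1]
  ring

lemma RG_one (f u : G → ℝ) : RG μ f u 1 = 0 := by
  unfold RG
  ring

lemma cont_KK {f u : G → ℝ} (hf : Adm f) (hu : Continuous u) : Continuous (KK μ f u) :=
  (cont_F3 hf.cont (hf.cont.mul hu)).div (cont_H4 hf.cont) fun x => ((hf.H4 (μ := μ)).pos x).ne'

lemma cont_RG {f u : G → ℝ} (hf : Adm f) (hu : Continuous u) : Continuous (RG μ f u) :=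
  continuous_const.mul ((cont_KK hf hu).sub continuous_const)

lemma cls_RG {f u : G → ℝ} (hf : Adm f) (hu : Cls u) : Cls (RG μ f u) := by
  intro g x
  unfold RG KK
  rw [(hf.H4 (μ := μ)).cls g x]
  have h1 : Cls (fun y => f y * u y) := fun g x => by
    beta_reduce
    rw [hf.cls, hu]
  rw [cls_F3 hf.cls h1 g x]

lemma sy_RG {f u : G → ℝ} (hf : Adm f) (hu : Cls u) (su : Sy u) : Sy (RG μ f u) := by
  intro x
  unfold RG KK
  rw [(hf.H4 (μ := μ)).sy x]
  have h1 : Cls (fun y => f y * u y) := fun g x => by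
    beta_reduce
    rw [hf.cls, hu]
  have h2 : Sy (fun y => f y * u y) := fun x => by
    beta_reduce
    rw [hf.sy, su]
  rw [sy_F3 hf.cls h1 hf.sy h2 x]

lemma RG_TNn (f : G → ℝ) (hA : Adm f) (k : ℕ) (v : G → ℝ) :
    RG μ (TNn μ f k) v = RG μ (TTn μ f k) v := by
  obtain ⟨a, ha, h1⟩ := TNn_eq (μ := μ) f hA k
  rw [h1, RG_scale ha.ne']

lemma RGn_succ {f : G → ℝ} (hA : Adm f) (u : G → ℝ) (k : ℕ) :
    RGn μ f u (k + 1) = RG μ (TTn μ f k) (RGn μ f u k) := RG_TNn f hA k _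

lemma RGn_scale {a : ℝ} (ha : 0 < a) {f : G → ℝ} (hA : Adm f) (u : G → ℝ) :
    ∀ n, RGn μ (fun x => a * f x) u n = RGn μ f u n
  | 0 => rfl
  | n + 1 => by
    have hA' : Adm (fun x => a * f x) := hA.scale ha
    rw [RGn_succ hA', RGn_succ hA, RGn_scale ha hA u n]
    have key : ∀ k, ∃ b : ℝ, 0 < b ∧ TTn μ (fun x => a * f x) k = fun x => b * TTn μ f k x := by
      intro k
      induction k with
      | zero => exact ⟨a, ha, rfl⟩
      | succ k ih =>
        obtain ⟨b, hb, h1⟩ := ih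
        refine ⟨b ^ 16, by positivity, ?_⟩
        change TT μ (TTn μ (fun x => a * f x) k) = _
        rw [h1, TT_scale]
        rfl
    obtain ⟨b, hb, h1⟩ := key n
    rw [h1, RG_scale hb.ne']

lemma RGn_add {f : G → ℝ} (hA : Adm f) (u : G → ℝ) (m : ℕ) :
    ∀ n, RGn μ f u (m + n) = RGn μ (TTn μ f m) (RGn μ f u m) n
  | 0 => rfl
  | n + 1 => by
    rw [← add_assoc, RGn_succ hA, RGn_add hA u m n, RGn_succ (hA.TTn (μ := μ) m), TTn_add]

lemma cont_RGn {f u : G → ℝ} (hf : Adm f) (hu : Continuous u) : ∀ k, Continuous (RGn μ f u k)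
  | 0 => hu
  | k + 1 => by
    rw [RGn_succ hf]
    exact cont_RG (hf.TTn k) (cont_RGn hf hu k)

lemma cls_RGn {f u : G → ℝ} (hf : Adm f) (hu : Cls u) : ∀ k, Cls (RGn μ f u k)
  | 0 => hu
  | k + 1 => by
    rw [RGn_succ hf]
    exact cls_RG (hf.TTn k) (cls_RGn hf hu k)

lemma sy_RGn {f u : G → ℝ} (hf : Adm f) (hu : Cls u) (su : Sy u) : ∀ k, Sy (RGn μ f u k)
  | 0 => su
  | k + 1 => by
    rw [RGn_succ hf]
    exact sy_RG (hf.TTn k) (cls_RGn hf hu k) (sy_RGn hf hu su k)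

lemma RGn_sub {f u v : G → ℝ} (hf : Adm f) (hu : Continuous u) (hv : Continuous v) :
    ∀ k, RGn μ f (fun x => u x - v x) k = fun x => RGn μ f u k x - RGn μ f v k x
  | 0 => rfl
  | k + 1 => by
    rw [RGn_succ hf, RGn_sub hf hu hv k, RG_sub ((hf.TTn (μ := μ) k)).cont
      (cont_RGn hf hu k) (cont_RGn hf hv k), RGn_succ hf, RGn_succ hf]

lemma RGn_smul (a : ℝ) (f u : G → ℝ) :
    ∀ k, RGn μ f (fun x => a * u x) k = fun x => a * RGn μ f u k x
  | 0 => rfl
  | k + 1 => by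
    change RG μ (TNn μ f k) (RGn μ f (fun x => a * u x) k) = _
    rw [RGn_smul a f u k, RG_smul]
    rfl

/-! ### Continuity of the tangent map -/

variable {ι : Type*} {l : Filter ι}

lemma Bd.inv {f : ι → G → ℝ} (hf : Gd l f) (hp : ∀ i x, 0 < f i x) :
    Bd l (fun i x => (f i x)⁻¹) := by
  obtain ⟨hfc, c, A, hc, h1⟩ := hf
  refine ⟨fun i => (hfc i).inv₀ fun x => (hp i x).ne', c⁻¹, ?_⟩
  filter_upwards [h1] with i g1 x
  rw [abs_of_pos (inv_pos.2 (hp i x))]
  exact inv_anti₀ hc (g1 x).1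

lemma pos_H4 {f : G → ℝ} (hf : Continuous f) (hp : ∀ x, 0 < f x) (x : G) : 0 < H4 μ f x :=
  conv_pos (cont_conv hf hf) (cont_conv hf hf) (conv_pos hf hf hp hp) (conv_pos hf hf hp hp) x

lemma Bd.RG {f u : ι → G → ℝ} (hf : Gd l f) (hp : ∀ i x, 0 < f i x) (hu : Bd l u) :
    Bd l (fun i => RG μ (f i) (u i)) := by
  have h1 := Bd.F3 (μ := μ) hf.bd (hf.bd.mul hu)
  have h2 := Bd.inv (hf.H4 (μ := μ)) fun i x => pos_H4 (hf.1 i) (hp i) x
  have h3 := h1.mul h2
  exact (Bd.const 16).mul (h3.sub (h3.at 1))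

lemma UL.RG {f f' u u' : ι → G → ℝ} (hf : Gd l f) (hp : ∀ i x, 0 < f i x) (hf' : Gd l f')
    (hp' : ∀ i x, 0 < f' i x) (hu : Bd l u) (hu' : Bd l u') (uf : UL l f f') (uu : UL l u u') :
    UL l (fun i => RG μ (f i) (u i)) (fun i => RG μ (f' i) (u' i)) := by
  have a1 := Bd.F3 (μ := μ) hf.bd (hf.bd.mul hu)
  have a1' := Bd.F3 (μ := μ) hf'.bd (hf'.bd.mul hu')
  have a2 := Bd.inv (hf.H4 (μ := μ)) fun i x => pos_H4 (hf.1 i) (hp i) x
  have u1 := UL.F3 (μ := μ) hf.bd hf'.bd (hf.bd.mul hu) (hf'.bd.mul hu') uf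
    (UL.mul hf'.bd hu uf uu)
  have u2 := UL.inv (hf.H4 (μ := μ)) (hf'.H4 (μ := μ)) (UL.H4 hf.bd hf'.bd uf)
  have u3 := UL.mul a1' a2 u1 u2
  have a3 := a1.mul a2
  have u4 := u3.sub (u3.at 1)
  exact UL.mul (Bd.const (16 : ℝ)) (a3.sub (a3.at 1)) (UL.refl _) u4

lemma pos_TNn {f : G → ℝ} (hf : Continuous f) (hp : ∀ x, 0 < f x) : ∀ k x, 0 < TNn μ f k x
  | 0, x => hp x
  | k + 1, x => pow_pos (div_pos (pos_H4 (cont_TNn hf k) (pos_TNn hf hp k) x)
      (pos_H4 (cont_TNn hf k) (pos_TNn hf hp k) 1)) 4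

lemma Bd.RGn {f u : ι → G → ℝ} (hf : Gd l f) (hp : ∀ i x, 0 < f i x) (hu : Bd l u) :
    ∀ n : ℕ, Bd l (fun i => RGn μ (f i) (u i) n)
  | 0 => hu
  | n + 1 => Bd.RG (hf.TNn (μ := μ) n) (fun i x => pos_TNn (hf.1 i) (hp i) n x)
      (Bd.RGn hf hp hu n)

/-- **The continuity of the tangent map for logarithmic derivatives** -/
theorem UL.RGn {f f' u u' : ι → G → ℝ} (hf : Gd l f) (hp : ∀ i x, 0 < f i x) (hf' : Gd l f')
    (hp' : ∀ i x, 0 < f' i x) (hu : Bd l u) (hu' : Bd l u') (uf : UL l f f') (uu : UL l u u') :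
    ∀ n : ℕ, UL l (fun i => RGn μ (f i) (u i) n) (fun i => RGn μ (f' i) (u' i) n)
  | 0 => uu
  | n + 1 => UL.RG (hf.TNn (μ := μ) n) (fun i x => pos_TNn (hf.1 i) (hp i) n x)
      (hf'.TNn (μ := μ) n) (fun i x => pos_TNn (hf'.1 i) (hp' i) n x) (Bd.RGn hf hp hu n)
      (Bd.RGn hf' hp' hu' n) (UL.TNn hf hf' uf n) (UL.RGn hf hp hf' hp' hu hu' uf uu n)

/-- constant families -/
lemma gd_const [l.NeBot] {F : G → ℝ} (hF : Continuous F) (hp : ∀ x, 0 < F x) :
    Gd l (fun _ : ι => F) := by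
  obtain ⟨x0, -, hx0⟩ := isCompact_univ.exists_isMinOn (Set.univ_nonempty (α := G))
    hF.continuousOn
  obtain ⟨B, hB1, hB⟩ := exists_bd hF
  refine ⟨fun _ => hF, F x0, B, hp x0, Eventually.of_forall fun i x => ⟨?_, ?_⟩⟩
  · exact hx0 (Set.mem_univ x)
  · have := hB x
    have := le_abs_self (F x)
    linarith

lemma bd_const {F : G → ℝ} (hF : Continuous F) : Bd l (fun _ : ι => F) := by
  obtain ⟨B, hB1, hB⟩ := exists_bd hF
  refine ⟨fun _ => hF, B, Eventually.of_forall fun i x => ?_⟩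
  have := hB x
  linarith

/-- the convergence of the tangent maps along a sequence of weights -/
lemma UT.RGn {f u : ℕ → G → ℝ} {F U : G → ℝ} (hf : ∀ i, Adm (f i)) (hF : Adm F)
    (hu : ∀ i, Continuous (u i)) (hU : Continuous U) (h : UT f F) (h' : UT u U) (n : ℕ) :
    UT (fun i => RGn μ (f i) (u i) n) (RGn μ F U n) := by
  have b1 : Gd atTop f := gd_of_UT (fun i => (hf i).cont) hF.cont hF.pos h
  have b2 : Gd atTop (fun _ : ℕ => F) := gd_const hF.cont hF.pos
  have b3 : Bd atTop u := by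
    obtain ⟨B, hB1, hB⟩ := exists_bd hU
    refine ⟨hu, B, ?_⟩
    filter_upwards [h' 1 one_pos] with i g x
    have := abs_sub_abs_le_abs_sub (u i x) (U x)
    have := hB x
    have := g x
    linarith
  exact UL.RGn b1 (fun i => (hf i).pos) b2 (fun _ => hF.pos) b3 (bd_const hU) h h' n

end

end Pool.Agent.N109.T3
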