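import Mathlib
import Pool.Agent.N109.T3.Field
import Pool.Agent.N109.T3.Defs
import Pool.Agent.N681.MK.Tan4
import Pool.Agent.N989.MK.Cov

/-!
# The block formula: the correlation functions on the fine lattice are those on the coarse lattice
-/

open MeasureTheory Pool.Agent.N991.MK Pool.Agent.N989.MK Filter
open scoped Topology

namespace Pool.Agent.N109.T3

set_option linter.unusedSectionVars false

noncomputable section

variable {G : Type*} [Group G] [TopologicalSpace G] [IsTopologicalGroup G] [CompactSpace G]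
  [MeasurableSpace G] [BorelSpace G] [SecondCountableTopology G]
  {μ : Measure G} [IsProbabilityMeasure μ] [μ.IsHaarMeasure] [μ.IsMulRightInvariant]
  [μ.IsInvInvariant]

/-! ### The blocks -/

lemma jn_inj {k : ℕ} : ∀ {j : ℕ} {α β : Pq j} {p q : Pq k}, jn α p = jn β q → α = β ∧ p = q
  | 0, (), (), _, _, h => ⟨rfl, h⟩
  | j + 1, (s, r, α), (s', r', β), p, q, h => by
    have h1 : s = s' := congrArg Prod.fst h
    have h2 : r = r' := congrArg (fun x : Fin 4 × Fin 4 × Pq (k + j) => x.2.1) h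
    have h3 : jn α p = jn β q := congrArg (fun x : Fin 4 × Fin 4 × Pq (k + j) => x.2.2) h
    obtain ⟨h4, h5⟩ := jn_inj h3
    exact ⟨by rw [h1, h2, h4], h5⟩

lemma jn_surj {k : ℕ} : ∀ {j : ℕ} (q : Pq (k + j)), ∃ (α : Pq j) (p : Pq k), jn α p = q
  | 0, q => ⟨(), q, rfl⟩
  | j + 1, (s, r, q) => by
    obtain ⟨α, p, h⟩ := jn_surj (j := j) q
    refine ⟨((s, r, α) : Fin 4 × Fin 4 × Pq j), p, ?_⟩
    change ((s, r, jn α p) : Fin 4 × Fin 4 × Pq (k + j)) = _
    rw [h]

lemma anc_jn {k : ℕ} : ∀ {j : ℕ} {α β : Pq j} (p q : Pq k), α ≠ β →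
    anc (k + j) (jn α p) (jn β q) = k + anc j α β
  | 0, (), (), _, _, h => absurd rfl h
  | j + 1, (s, r, α), (s', r', β), p, q, h => by
    change (if s = s' ∧ r = r' then anc (k + j) (jn α p) (jn β q) else k + j + 1) =
      k + (if s = s' ∧ r = r' then anc j α β else j + 1)
    by_cases h1 : s = s' ∧ r = r'
    · simp only [h1, and_self, if_true]
      refine anc_jn p q fun h2 => h ?_
      rw [h1.1, h1.2, h2]
    · simp only [h1, if_false]
      rfl

lemma sep_jn {k : ℕ} : ∀ {j : ℕ} {α β : Pq j} (p q : Pq k), Sep α β → Sep (jn α p) (jn β q)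
  | 0, _, _, _, _, h => absurd h (by simp [Sep])
  | j + 1, (s, r, α), (s', r', β), p, q, h => by
    change s ≠ s' ∨ (r = r' ∧ Sep α β) at h
    change s ≠ s' ∨ (r = r' ∧ Sep (jn α p) (jn β q))
    rcases h with h | ⟨h1, h2⟩
    · exact Or.inl h
    · exact Or.inr ⟨h1, sep_jn p q h2⟩

lemma Sep.ne : ∀ {j : ℕ} {α β : Pq j}, Sep α β → α ≠ β
  | 0, _, _, h, _ => by simp [Sep] at h
  | j + 1, (s, r, α), (s', r', β), h, e => by
    change s ≠ s' ∨ (r = r' ∧ Sep α β) at h
    have e1 : s = s' := congrArg Prod.fst e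
    have e2 : α = β := congrArg (fun x : Fin 4 × Fin 4 × Pq j => x.2.2) e
    rcases h with h | ⟨h1, h2⟩
    · exact h e1
    · exact Sep.ne h2 e2

lemma ZZ_add (k : ℕ) : ∀ (j : ℕ) (w : Pq (k + j) → G → ℝ),
    ZZ μ (k + j) w = ZZ μ j (fun α => ZZ μ k (fun p => w (jn α p)))
  | 0, w => rfl
  | j + 1, w => by
    funext x
    change ∏ s : Fin 4, c4 μ (fun r => ZZ μ (k + j) (fun p => w (s, r, p))) x =
      ∏ s : Fin 4, c4 μ (fun r => ZZ μ j (fun α : Pq j => ZZ μ k
        (fun p => w (jn ((s, r, α) : Fin 4 × Fin 4 × Pq j) p)))) x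
    refine Finset.prod_congr rfl fun s _ => ?_
    congr 1
    have h : (fun r : Fin 4 => ZZ μ (k + j) (fun p => w (s, r, p))) = fun r => ZZ μ j
        (fun α : Pq j => ZZ μ k (fun p => w (jn ((s, r, α) : Fin 4 × Fin 4 × Pq j) p))) := by
      funext r
      exact ZZ_add k j (fun p => w (s, r, p))
    rw [h]

/-! ### Insertions -/

open Classical in
/-- several insertions -/
def inss {n r : ℕ} (p : Fin r → Pq n) (O : Fin r → G → ℝ) : Pq n → G → ℝ :=
  fun q x => ∏ a, if q = p a then O a x else 1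

lemma prod_inss {n r : ℕ} (p : Fin r → Pq n) (O : Fin r → G → ℝ) (U : Ed n → G) :
    ∏ q : Pq n, inss p O q (hol U q) = ∏ a, O a (hol U (p a)) := by
  unfold inss
  rw [Finset.prod_comm]
  refine Finset.prod_congr rfl fun a _ => ?_
  rw [Finset.prod_eq_single (p a)]
  · simp
  · intro b _ hb
    simp [hb]
  · intro h
    exact absurd (Finset.mem_univ _) h

lemma inss_cont {n r : ℕ} (p : Fin r → Pq n) {O : Fin r → G → ℝ} (hO : ∀ a, Continuous (O a))
    (q : Pq n) : Continuous (inss p O q) := by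
  unfold inss
  refine continuous_finsetProd _ fun a _ => ?_
  by_cases h : q = p a
  · simpa [h] using hO a
  · simpa [h] using continuous_const

lemma inss_cls {n r : ℕ} (p : Fin r → Pq n) {O : Fin r → G → ℝ} (hO : ∀ a, Cls (O a))
    (q : Pq n) : Cls (inss p O q) := by
  intro g x
  unfold inss
  refine Finset.prod_congr rfl fun a _ => ?_
  rw [hO a g x]

variable {Z : G → ℝ}

/-- the numerator of an expectation -/
lemma num_inss (hZ : Adm Z) {n r : ℕ} (p : Fin r → Pq n) {O : Fin r → G → ℝ}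
    (hO : ∀ a, Continuous (O a)) (hc : ∀ a, Cls (O a)) :
    ∫ U : Ed n → G, (∏ a, O a (hol U (p a))) * wt Z U ∂(Measure.pi fun _ => μ) =
      ∫ x, ZZ μ n (fun q x => Z x * inss p O q x) x ∂μ := by
  have h1 := int_ZZ (μ := μ) (n := n) (w := fun q x => Z x * inss p O q x)
    (fun q => hZ.cont.mul (inss_cont p hO q)) (fun q g x => by
      beta_reduce; rw [hZ.cls, inss_cls p hc q])
  rw [← h1]
  refine integral_congr_ae (Eventually.of_forall fun U => ?_)
  beta_reduce
  unfold wtt wt
  rw [Finset.prod_mul_distrib, prod_inss, mul_comm]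

lemma Ex_inss (hZ : Adm Z) {n r : ℕ} (p : Fin r → Pq n) {O : Fin r → G → ℝ}
    (hO : ∀ a, Continuous (O a)) (hc : ∀ a, Cls (O a)) :
    Ex μ Z n (fun U => ∏ a, O a (hol U (p a))) =
      (∫ x, ZZ μ n (fun q x => Z x * inss p O q x) x ∂μ) / ∫ x, TTn μ Z n x ∂μ := by
  unfold Ex
  rw [part_eq hZ, num_inss hZ p hO hc]

/-! ### The conditional expectation given the boundary of the block -/

/-- the conditional expectation of `O` of a plaquette of a square of level `k` -/
def PP (μ : Measure G) (Z O : G → ℝ) : ℕ → G → ℝ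
  | 0 => O
  | k + 1 => KK μ (TTn μ Z k) (PP μ Z O k)

lemma PP_cont (hZ : Adm Z) {O : G → ℝ} (hO : Continuous O) : ∀ k, Continuous (PP μ Z O k)
  | 0 => hO
  | k + 1 => cont_KK (hZ.TTn k) (PP_cont hZ hO k)

lemma PP_cls (hZ : Adm Z) {O : G → ℝ} (hO : Cls O) : ∀ k, Cls (PP μ Z O k)
  | 0 => hO
  | k + 1 => by
    have ih := PP_cls hZ hO k
    have hA := hZ.TTn (μ := μ) k
    intro g x
    change KK μ (TTn μ Z k) (PP μ Z O k) (g * x * g⁻¹) = KK μ (TTn μ Z k) (PP μ Z O k) x
    unfold KK
    have h1 : Cls (fun y => TTn μ Z k y * PP μ Z O k y) := fun g x => by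
      beta_reduce
      rw [hA.cls, ih]
    rw [(hA.H4 (μ := μ)).cls g x, cls_F3 hA.cls h1 g x]

lemma PP_sub (hZ : Adm Z) {O : G → ℝ} (hO : Continuous O) (m : ℝ) : ∀ k,
    PP μ Z (fun x => O x - m) k = fun x => PP μ Z O k x - m
  | 0 => rfl
  | k + 1 => by
    have hA := hZ.TTn (μ := μ) k
    have hP := PP_cont (μ := μ) hZ hO k
    change KK μ (TTn μ Z k) (PP μ Z (fun x => O x - m) k) =
      fun x => KK μ (TTn μ Z k) (PP μ Z O k) x - m
    rw [PP_sub hZ hO m k]
    have h1 : F3 μ (TTn μ Z k) (fun y => TTn μ Z k y * PP μ Z O k y) =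
        fun x => F3 μ (TTn μ Z k) (fun y => TTn μ Z k y * (PP μ Z O k y - m)) x +
          F3 μ (TTn μ Z k) (fun y => TTn μ Z k y * m) x := by
      rw [← F3_mul_add (u := fun y => PP μ Z O k y - m) (v := fun _ => m) hA.cont
        (hP.sub continuous_const) continuous_const]
      congr 1
      funext y
      ring
    have h2 := KK_const (μ := μ) (f := TTn μ Z k) (fun x => ((hA.H4 (μ := μ)).pos x).ne') m
    funext x
    have h3 := congrFun h2 x
    unfold KK at h3 ⊢
    rw [h1]
    beta_reduce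
    rw [add_div, h3]
    ring

/-- four factors, one of which is different -/
lemma c4_one {f u : G → ℝ} (hf : Adm f) (hu : Cls u) (r0 : Fin 4) :
    c4 μ (fun r => if r = r0 then (fun y => f y * u y) else f) =
      F3 μ f (fun y => f y * u y) := by
  have hfu : Cls (fun y => f y * u y) := fun g x => by
    beta_reduce
    rw [hf.cls, hu]
  unfold c4 F3
  fin_cases r0
  · change conv μ (conv μ (fun y => f y * u y) f) (conv μ f f) = _
    rw [conv_comm (conv_cls hfu hf.cls) (conv_cls hf.cls hf.cls), conv_comm hfu hf.cls]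
  · change conv μ (conv μ f (fun y => f y * u y)) (conv μ f f) = _
    rw [conv_comm (conv_cls hf.cls hfu) (conv_cls hf.cls hf.cls)]
  · change conv μ (conv μ f f) (conv μ (fun y => f y * u y) f) = _
    rw [conv_comm hfu hf.cls]
  · rfl

/-- one insertion in a square -/
lemma WF_ins1 (hZ : Adm Z) {O : G → ℝ} (hO : Continuous O) (hc : Cls O) : ∀ (k : ℕ) (p : Pq k),
    WF μ Z k (ins1 p O) = fun x => TTn μ Z k x * PP μ Z O k x
  | 0, () => by
    funext x
    change Z x * ins1 (n := 0) () O () x = Z x * O x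
    have h : ins1 (n := 0) () O () x = O x := if_pos rfl
    rw [h]
  | k + 1, (s0, r0, p0) => by
    classical
    have hA := hZ.TTn (μ := μ) k
    funext x
    have h1 : ∀ s r : Fin 4, WF μ Z k (fun p => ins1 (n := k + 1) (s0, r0, p0) O (s, r, p)) =
        if s = s0 then (if r = r0 then (fun y => TTn μ Z k y * PP μ Z O k y) else TTn μ Z k)
          else TTn μ Z k := by
      intro s r
      by_cases h2 : s = s0
      · by_cases h3 : r = r0
        · rw [if_pos h2, if_pos h3, ← WF_ins1 hZ hO hc k p0]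
          congr 1
          funext p y
          unfold ins1
          subst h2 h3
          by_cases h4 : p = p0
          · subst h4
            exact (if_pos rfl).trans (if_pos rfl).symm
          · have : ¬ ((s, r, p) : Fin 4 × Fin 4 × Pq k) = (s, r, p0) := fun h => h4
              (congrArg (fun x : Fin 4 × Fin 4 × Pq k => x.2.2) h)
            rw [if_neg h4]
            exact if_neg this
        · rw [if_pos h2, if_neg h3]
          refine WF_one k _ fun p y => ?_
          have : ¬ ((s, r, p) : Fin 4 × Fin 4 × Pq k) = (s0, r0, p0) := fun h => h3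
            (congrArg (fun x : Fin 4 × Fin 4 × Pq k => x.2.1) h)
          exact if_neg this
      · rw [if_neg h2]
        refine WF_one k _ fun p y => ?_
        have : ¬ ((s, r, p) : Fin 4 × Fin 4 × Pq k) = (s0, r0, p0) := fun h => h2
          (congrArg (fun x : Fin 4 × Fin 4 × Pq k => x.1) h)
        exact if_neg this
    change ∏ s : Fin 4, c4 μ (fun r => WF μ Z k
      (fun p => ins1 (n := k + 1) (s0, r0, p0) O (s, r, p))) x =
      (H4 μ (TTn μ Z k) x) ^ 4 * KK μ (TTn μ Z k) (PP μ Z O k) x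
    simp only [h1]
    have h2 : ∀ s : Fin 4, c4 μ (fun r => if s = s0 then
        (if r = r0 then (fun y => TTn μ Z k y * PP μ Z O k y) else TTn μ Z k) else TTn μ Z k) x =
        if s = s0 then F3 μ (TTn μ Z k) (fun y => TTn μ Z k y * PP μ Z O k y) x
          else H4 μ (TTn μ Z k) x := by
      intro s
      by_cases h3 : s = s0
      · simp only [h3, if_true]
        rw [c4_one hA (PP_cls hZ hc k) r0]
      · simp only [h3, if_false]
        rfl
    simp only [h2]
    have h3 : ∏ s : Fin 4, (if s = s0 then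
        F3 μ (TTn μ Z k) (fun y => TTn μ Z k y * PP μ Z O k y) x else H4 μ (TTn μ Z k) x) =
        F3 μ (TTn μ Z k) (fun y => TTn μ Z k y * PP μ Z O k y) x * H4 μ (TTn μ Z k) x ^ 3 := by
      rw [← Finset.mul_prod_erase Finset.univ _ (Finset.mem_univ s0), if_pos rfl]
      congr 1
      rw [Finset.prod_congr rfl (g := fun _ => H4 μ (TTn μ Z k) x) fun s hs => by
        rw [if_neg (Finset.ne_of_mem_erase hs)]]
      rw [Finset.prod_const, Finset.card_erase_of_mem (Finset.mem_univ _), Finset.card_univ,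
        Fintype.card_fin]
    rw [h3]
    unfold KK
    have h4 := ((hA.H4 (μ := μ)).pos x).ne'
    field_simp

/-! ### The block formula -/

/-- the insertions in the blocks -/
lemma ZZ_blocks (hZ : Adm Z) {k j r : ℕ} {α : Fin r → Pq j} (hα : Function.Injective α)
    (p : Fin r → Pq k) {O : Fin r → G → ℝ} (hO : ∀ a, Continuous (O a)) (hc : ∀ a, Cls (O a)) :
    ZZ μ (k + j) (fun q x => Z x * inss (fun a => jn (α a) (p a)) O q x) =
      ZZ μ j (fun β x => TTn μ Z k x * inss α (fun a => PP μ Z (O a) k) β x) := by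
  classical
  rw [ZZ_add k j]
  congr 1
  funext β
  by_cases h : ∃ a, α a = β
  · obtain ⟨a, rfl⟩ := h
    have h1 : (fun (q : Pq k) x => Z x * inss (fun a => jn (α a) (p a)) O (jn (α a) q) x) =
        fun q x => Z x * ins1 (p a) (O a) q x := by
      funext q x
      congr 1
      unfold inss ins1
      rw [Finset.prod_eq_single a]
      · by_cases h2 : q = p a
        · subst h2
          rw [if_pos rfl, if_pos rfl]
        · rw [if_neg h2, if_neg fun h3 => h2 (jn_inj h3).2]
      · intro b _ hb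
        rw [if_neg fun h3 => hb (hα (jn_inj h3).1).symm]
      · intro h
        exact absurd (Finset.mem_univ _) h
    rw [h1]
    have h2 := WF_ins1 (μ := μ) hZ (hO a) (hc a) k (p a)
    unfold WF at h2
    rw [h2]
    funext x
    congr 1
    unfold inss
    rw [Finset.prod_eq_single a]
    · rw [if_pos rfl]
    · intro b _ hb
      rw [if_neg fun h3 => hb (hα h3).symm]
    · intro h
      exact absurd (Finset.mem_univ _) h
  · have h1 : ∀ (q : Pq k) x, inss (fun a => jn (α a) (p a)) O (jn β q) x = 1 := by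
      intro q x
      unfold inss
      refine Finset.prod_eq_one fun a _ => ?_
      rw [if_neg fun h3 => h ⟨a, (jn_inj h3).1.symm⟩]
    have h2 : ∀ x, inss α (fun a => PP μ Z (O a) k) β x = 1 := by
      intro x
      unfold inss
      refine Finset.prod_eq_one fun a _ => ?_
      rw [if_neg fun h3 => h ⟨a, h3.symm⟩]
    have h3 := WF_one (μ := μ) (Z := Z) k
      (fun q x => inss (fun a => jn (α a) (p a)) O (jn β q) x) h1
    unfold WF at h3
    rw [h3]
    funext x
    rw [h2 x, mul_one]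

/-- the expectation of a product of observables in different blocks -/
theorem Ex_blocks (hZ : Adm Z) {k j r : ℕ} {α : Fin r → Pq j} (hα : Function.Injective α)
    (p : Fin r → Pq k) {O : Fin r → G → ℝ} (hO : ∀ a, Continuous (O a)) (hc : ∀ a, Cls (O a)) :
    Ex μ Z (k + j) (fun U => ∏ a, O a (hol U (jn (α a) (p a)))) =
      Ex μ (TTn μ Z k) j (fun U => ∏ a, PP μ Z (O a) k (hol U (α a))) := by
  rw [Ex_inss hZ (fun a => jn (α a) (p a)) hO hc, ZZ_blocks hZ hα p hO hc,
    Ex_inss (hZ.TTn k) α (fun a => PP_cont hZ (hO a) k) (fun a => PP_cls hZ (hc a) k), TTn_add]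

/-- one observable -/
theorem Ex_block1 (hZ : Adm Z) {k j : ℕ} (α : Pq j) (p : Pq k) {O : G → ℝ}
    (hO : Continuous O) (hc : Cls O) :
    Ex μ Z (k + j) (fun U => O (hol U (jn α p))) =
      Ex μ (TTn μ Z k) j (fun U => PP μ Z O k (hol U α)) := by
  have h := Ex_blocks (μ := μ) hZ (α := fun _ : Fin 1 => α) (fun a b _ => Subsingleton.elim a b)
    (fun _ => p) (O := fun _ => O) (fun _ => hO) (fun _ => hc)
  simpa using h

/-- **The block formula for the centred correlation functions** -/
theorem Cn_blocks (hZ : Adm Z) {k j r : ℕ} {α : Fin r → Pq j} (hα : Function.Injective α)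
    (p : Fin r → Pq k) {O : G → ℝ} (hO : Continuous O) (hc : Cls O) :
    Cn μ Z (k + j) (fun a => jn (α a) (p a)) O = Cn μ (TTn μ Z k) j α (PP μ Z O k) := by
  unfold Cn
  have h1 := Ex_blocks (μ := μ) hZ hα p
    (O := fun a x => O x - Ex μ Z (k + j) (fun U => O (hol U (jn (α a) (p a)))))
    (fun a => hO.sub continuous_const) (fun a g x => by beta_reduce; rw [hc g x])
  rw [h1]
  congr 1
  funext U
  refine Finset.prod_congr rfl fun a _ => ?_
  rw [PP_sub hZ hO, Ex_block1 hZ (α a) (p a) hO hc]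

/-! ### The relation with the tangent map -/

open Pool.Agent.N681.MK (dcv dH4 dTT dTn fld evo)

lemma dcv_cls {f g : G → ℝ} (hf : Cls f) (hg : Cls g) :
    dcv μ f g = fun x => 2 * conv μ f g x := by
  funext x
  unfold Pool.Agent.N681.MK.dcv
  rw [conv_comm hg hf]
  ring

lemma dH4_cls {f g : G → ℝ} (hf : Cls f) (hg : Cls g) :
    dH4 μ f g = fun x => 4 * F3 μ f g x := by
  unfold Pool.Agent.N681.MK.dH4
  have h1 : Cls (fun x => 2 * conv μ f g x) := fun a x => by
    beta_reduce
    rw [conv_cls hf hg a x]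
  rw [dcv_cls hf hg, dcv_cls (conv_cls hf hf) h1, conv_smul_right]
  funext x
  unfold F3
  ring

lemma dTn_eq (hZ : Adm Z) {O : G → ℝ} (hO : Continuous O) (hc : Cls O) : ∀ n,
    dTn μ Z (fun x => O x * Z x) n = fun x => 16 ^ n * (TTn μ Z n x * PP μ Z O n x)
  | 0 => by
    funext x
    change O x * Z x = 16 ^ 0 * (Z x * O x)
    ring
  | n + 1 => by
    have hA := hZ.TTn (μ := μ) n
    have hP := PP_cls (μ := μ) hZ hc n
    have h1 : Cls (fun y => TTn μ Z n y * PP μ Z O n y) := fun g x => by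
      beta_reduce
      rw [hA.cls, hP]
    have h2 : Cls (fun x => 16 ^ n * (TTn μ Z n x * PP μ Z O n x)) := fun g x => by
      beta_reduce
      rw [hA.cls, hP]
    change dTT μ (TTn μ Z n) (dTn μ Z (fun x => O x * Z x) n) =
      fun x => 16 ^ (n + 1) * ((H4 μ (TTn μ Z n) x) ^ 4 * KK μ (TTn μ Z n) (PP μ Z O n) x)
    rw [dTn_eq hZ hO hc n]
    unfold Pool.Agent.N681.MK.dTT
    rw [dH4_cls hA.cls h2, F3_smul]
    funext x
    unfold KK
    have h4 := ((hA.H4 (μ := μ)).pos x).ne'
    beta_reduce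
    field_simp
    ring

/-- **the evolution of the field is the conditional expectation** -/
theorem evo_eq (hZ : Adm Z) {O : G → ℝ} (hO : Continuous O) (hc : Cls O) (n : ℕ) :
    evo μ Z O n = fun x => 16 ^ n * (PP μ Z O n x - PP μ Z O n 1) := by
  unfold Pool.Agent.N681.MK.evo
  rw [dTn_eq hZ hO hc n]
  have hA := hZ.TTn (μ := μ) n
  funext x
  unfold Pool.Agent.N681.MK.fld
  have h1 := (hA.pos x).ne'
  have h2 := (hA.pos 1).ne'
  field_simp

lemma evo_cls (hZ : Adm Z) {O : G → ℝ} (hO : Continuous O) (hc : Cls O) (n : ℕ) :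
    Cls (evo μ Z O n) := by
  rw [evo_eq hZ hO hc n]
  intro g x
  beta_reduce
  rw [PP_cls hZ hc n g x]

lemma PP_sy (hZ : Adm Z) {O : G → ℝ} (hc : Cls O) (hs : Sy O) : ∀ k, Sy (PP μ Z O k)
  | 0 => hs
  | k + 1 => by
    have ih := PP_sy hZ hc hs k
    have ihc := PP_cls (μ := μ) hZ hc k
    have hA := hZ.TTn (μ := μ) k
    intro x
    change KK μ (TTn μ Z k) (PP μ Z O k) x⁻¹ = KK μ (TTn μ Z k) (PP μ Z O k) x
    unfold KK
    have h1 : Cls (fun y => TTn μ Z k y * PP μ Z O k y) := fun g x => by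
      beta_reduce
      rw [hA.cls, ihc]
    have h2 : Sy (fun y => TTn μ Z k y * PP μ Z O k y) := fun x => by
      beta_reduce
      rw [hA.sy, ih]
    rw [(hA.H4 (μ := μ)).sy x, sy_F3 hA.cls h1 hA.sy h2 x]

lemma evo_sy (hZ : Adm Z) {O : G → ℝ} (hO : Continuous O) (hc : Cls O) (hs : Sy O) (n : ℕ) :
    Sy (evo μ Z O n) := by
  rw [evo_eq hZ hO hc n]
  intro x
  beta_reduce
  rw [PP_sy hZ hc hs n x]

/-! ### Affine changes of the observable -/

lemma Ex_prod_smul (w : G → ℝ) (n : ℕ) (a : ℝ) (O : (Ed n → G) → ℝ) :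
    Ex μ w n (fun U => a * O U) = a * Ex μ w n O := by
  unfold Ex
  have e : ∀ U, a * O U * wt w U = a * (O U * wt w U) := fun U => by ring
  simp only [e]
  rw [integral_const_mul, mul_div_assoc]

lemma cont_obs {n : ℕ} {O : G → ℝ} (hO : Continuous O) (p : Pq n) :
    Continuous fun U : Ed n → G => O (hol U p) := hO.comp (hol_cont p)

lemma Ex_affine (hZ : Adm Z) {n : ℕ} {O : (Ed n → G) → ℝ} (hO : Continuous O) (a b : ℝ) :
    Ex μ Z n (fun U => a * O U + b) = a * Ex μ Z n O + b := by
  have hw : Continuous fun U : Ed n → G => wt Z U := wt_cont hZ.cont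
  have hI : ∀ {g : (Ed n → G) → ℝ}, Continuous g → Integrable g (Measure.pi fun _ => μ) :=
    fun hg => hg.integrable_of_hasCompactSupport (HasCompactSupport.of_compactSpace _)
  have hp : 0 < ∫ U : Ed n → G, wt Z U ∂(Measure.pi fun _ => μ) := by
    rw [part_eq hZ]
    exact (hZ.TTn (μ := μ) n).ipos
  unfold Ex
  have e : ∀ U, (a * O U + b) * wt Z U = a * (O U * wt Z U) + b * wt Z U := fun U => by ring
  simp only [e]
  have i1 : Integrable (fun U : Ed n → G => a * (O U * wt Z U)) (Measure.pi fun _ => μ) :=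
    hI (continuous_const.mul (hO.mul hw))
  have i2 : Integrable (fun U : Ed n → G => b * wt Z U) (Measure.pi fun _ => μ) :=
    hI (continuous_const.mul hw)
  rw [integral_add i1 i2, integral_const_mul, integral_const_mul]
  field_simp

/-- affine changes of the observable -/
lemma Cn_affine (hZ : Adm Z) {n r : ℕ} (p : Fin r → Pq n) {O : G → ℝ} (hO : Continuous O)
    (a b : ℝ) : Cn μ Z n p (fun x => a * O x + b) = a ^ r * Cn μ Z n p O := by
  unfold Cn
  rw [← Ex_prod_smul]
  congr 1
  funext U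
  have h1 : ∀ c : Fin r, (a * O (hol U (p c)) + b -
      Ex μ Z n (fun U => a * O (hol U (p c)) + b)) =
      a * (O (hol U (p c)) - Ex μ Z n (fun U => O (hol U (p c)))) := by
    intro c
    rw [Ex_affine hZ (cont_obs hO (p c)) a b]
    ring
  simp only [h1]
  rw [Finset.prod_mul_distrib, Finset.prod_const, Finset.card_univ, Fintype.card_fin]

/-- **the block formula with the field** -/
theorem Cn_evo (hZ : Adm Z) {k j r : ℕ} {α : Fin r → Pq j} (hα : Function.Injective α)
    (p : Fin r → Pq k) {O : G → ℝ} (hO : Continuous O) (hc : Cls O) :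
    (16 : ℝ) ^ (r * k) * Cn μ Z (k + j) (fun a => jn (α a) (p a)) O =
      Cn μ (TTn μ Z k) j α (evo μ Z O k) := by
  rw [Cn_blocks hZ hα p hO hc, evo_eq hZ hO hc k]
  have e : (fun x => 16 ^ k * (PP μ Z O k x - PP μ Z O k 1)) =
      fun x => 16 ^ k * PP μ Z O k x + -(16 ^ k * PP μ Z O k 1) := by
    funext x
    ring
  rw [e, Cn_affine (hZ.TTn k) α (PP_cont hZ hO k), ← pow_mul, mul_comm k r]

/-- the covariance is the centred correlation function of two observables -/
lemma Cv_eq (hZ : Adm Z) {n : ℕ} (p q : Pq n) {O : G → ℝ} (hO : Continuous O) :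
    Cv μ Z n p q O O = Cn μ Z n ![p, q] O := by
  unfold Cv Cn
  have hw : Continuous fun U : Ed n → G => wt Z U := wt_cont hZ.cont
  have hI : ∀ {g : (Ed n → G) → ℝ}, Continuous g → Integrable g (Measure.pi fun _ => μ) :=
    fun hg => hg.integrable_of_hasCompactSupport (HasCompactSupport.of_compactSpace _)
  have hp : 0 < ∫ U : Ed n → G, wt Z U ∂(Measure.pi fun _ => μ) := by
    rw [part_eq hZ]
    exact (hZ.TTn (μ := μ) n).ipos
  obtain ⟨A, hA⟩ : ∃ A, A = Ex μ Z n (fun U => O (hol U p)) := ⟨_, rfl⟩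
  obtain ⟨B, hB⟩ : ∃ B, B = Ex μ Z n (fun U => O (hol U q)) := ⟨_, rfl⟩
  simp only [Fin.prod_univ_two, Matrix.cons_val_zero, Matrix.cons_val_one]
  rw [← hA, ← hB]
  have cp := cont_obs hO p
  have cq := cont_obs hO q
  have e : ∀ U : Ed n → G, (O (hol U p) - A) * (O (hol U q) - B) * wt Z U =
      O (hol U p) * O (hol U q) * wt Z U - B * (O (hol U p) * wt Z U) -
        A * (O (hol U q) * wt Z U) + A * B * wt Z U := fun U => by ring
  have hAe : A * ∫ U : Ed n → G, wt Z U ∂(Measure.pi fun _ => μ) =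
      ∫ U : Ed n → G, O (hol U p) * wt Z U ∂(Measure.pi fun _ => μ) := by
    rw [hA]
    unfold Ex
    field_simp
  have hBe : B * ∫ U : Ed n → G, wt Z U ∂(Measure.pi fun _ => μ) =
      ∫ U : Ed n → G, O (hol U q) * wt Z U ∂(Measure.pi fun _ => μ) := by
    rw [hB]
    unfold Ex
    field_simp
  unfold Ex
  simp only [e]
  have i1 : Integrable (fun U : Ed n → G => O (hol U p) * O (hol U q) * wt Z U)
    (Measure.pi fun _ => μ) := hI ((cp.mul cq).mul hw)
  have i2 : Integrable (fun U : Ed n → G => B * (O (hol U p) * wt Z U))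
    (Measure.pi fun _ => μ) := hI (continuous_const.mul (cp.mul hw))
  have i3 : Integrable (fun U : Ed n → G => A * (O (hol U q) * wt Z U))
    (Measure.pi fun _ => μ) := hI (continuous_const.mul (cq.mul hw))
  have i4 : Integrable (fun U : Ed n → G => A * B * wt Z U)
    (Measure.pi fun _ => μ) := hI (continuous_const.mul hw)
  have i12 : Integrable (fun U : Ed n → G => O (hol U p) * O (hol U q) * wt Z U -
    B * (O (hol U p) * wt Z U)) (Measure.pi fun _ => μ) := i1.sub i2
  have i123 : Integrable (fun U : Ed n → G => O (hol U p) * O (hol U q) * wt Z U -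
    B * (O (hol U p) * wt Z U) - A * (O (hol U q) * wt Z U)) (Measure.pi fun _ => μ) :=
    i12.sub i3
  rw [integral_add i123 i4, integral_sub i12 i3, integral_sub i1 i2,
    integral_const_mul, integral_const_mul, integral_const_mul, ← hAe, ← hBe]
  field_simp
  ring

end

end Pool.Agent.N109.T3
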