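import Mathlib
import Pool.Agent.N989.MK.Defs

/-!
# The free Maxwell theory on the hierarchical squares
-/

open MeasureTheory ProbabilityTheory
open Pool.Agent.N989.MK

namespace Pool.Agent.N109.T3

noncomputable section

/-- The curvature of the one-form `A` on the edges of the square of level `j`. -/
def cur {j : ℕ} (A : Ed j → ℝ) (p : Pq j) : ℝ :=
  A (bd j p 0) + A (bd j p 1) - A (bd j p 2) - A (bd j p 3)

/-- The space of the curvatures of the one-forms. -/
def cf (j : ℕ) : Submodule ℝ (EuclideanSpace ℝ (Pq j)) where
  carrier := {Y | ∃ A : Ed j → ℝ, ∀ p, Y p = cur A p}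
  zero_mem' := ⟨0, fun p => by simp [cur]⟩
  add_mem' := by
    rintro Y Y' ⟨A, hA⟩ ⟨A', hA'⟩
    refine ⟨A + A', fun p => ?_⟩
    rw [PiLp.add_apply, hA, hA']
    unfold cur
    simp only [Pi.add_apply]
    ring
  smul_mem' := by
    rintro c Y ⟨A, hA⟩
    refine ⟨c • A, fun p => ?_⟩
    rw [PiLp.smul_apply, hA]
    unfold cur
    simp only [Pi.smul_apply, smul_eq_mul]
    ring

/-- Minus one half of the square of the curvature. -/
def fq {n j : ℕ} (Y : Fin n → cf j) (p : Pq j) : ℝ := -(∑ b, (Y b).1 p ^ 2) / 2

/-- The free Maxwell theory with `n` colours on the square of level `j`: the curvatures of the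
colours are independent, and distributed by the standard Gaussian measure on the space of the
curvatures of one-forms. -/
def free (n j : ℕ) : Measure (Fin n → cf j) := Measure.pi fun _ => stdGaussian (cf j)

/-- The centred correlation functions of the square of the curvature in the free theory. -/
def CG (n : ℕ) {j r : ℕ} (α : Fin r → Pq j) : ℝ :=
  ∫ Y : Fin n → cf j, ∏ a, (fq Y (α a) - ∫ Y', fq Y' (α a) ∂(free n j)) ∂(free n j)

end

end Pool.Agent.N109.T3
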