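import Mathlib
import Pool.Agent.N109.T3.Defs
import Pool.Agent.N109.T3.FreeDefs

/-!
# The renormalised field: infinite volume limit and short distance behaviour
-/

open MeasureTheory Matrix Filter
open scoped Topology
open Pool.Agent.N989.MK

namespace Pool.Agent.N109.T3

noncomputable section

variable {N n : ℕ} {G : Subgroup (unitaryGroup (Fin N) ℂ)} [MeasurableSpace G]

/-- The properties of the renormalised field of the limit theory `F`, with its infinite volume limit
and its asymptotic freedom: at short distances all its correlation functions are those of minus
one half of the square of the curvature in the free Maxwell theory. -/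
structure GluonField (μ : Measure G) (X : Fin n → Matrix (Fin N) (Fin N) ℂ) (cA : ℝ)
    (F φ : ℤ → G → ℝ) : Prop extends RenField μ X cA F φ where
  /-- Short distances: the correlation functions of distinct plaquettes with side `2 ^ (-m)` in a
  square with side `2 ^ (j - m)`, multiplied by `m ^ r`, converge to those of the free theory. -/
  free : ∀ (j r : ℕ) (α : Fin r → Pq j), Function.Injective α →
    Tendsto (fun m : ℕ => (m : ℝ) ^ r * Cn μ (F (-m)) j α (φ (-m))) atTop
      (𝓝 ((8 / cA) ^ r * CG n α))
  /-- Infinite volume: the correlation functions in the blocks `β` of the squares with side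
  `2 ^ (k + j + d)` converge, exponentially fast in the area, wherever the blocks are. -/
  vol : ∀ (k : ℤ) (j r : ℕ) (α : Fin r → Pq j), ∃ L C c : ℝ, 0 < c ∧ ∀ (d : ℕ) (β : Pq d),
    |Cn μ (F k) (j + d) (fun a => jn β (α a)) (φ k) - L| ≤ C * Real.exp (-(c * 4 ^ d))

end

end Pool.Agent.N109.T3
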