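import Mathlib
import Pool.Agent.N681.MK.Tan5
import Pool.Agent.N988.MK.Tan7

/-!
# The renormalised operators of the lattice models
-/

open MeasureTheory Matrix Filter Pool.Agent.N991.MK Pool.Agent.N988.MK Pool.Agent.N989.MK
open scoped Matrix.Norms.Frobenius Topology
open Pool.Agent.H906R3.YM Pool.Agent.W793.YM Pool.Agent.TH618.YM Pool.Agent.N984.TW
open Pool.Agent.N681.MK (evo dTn fld TanFlow TP_weaken)

namespace Pool.Agent.N109.T3

set_option linter.unusedSectionVars false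

noncomputable section

/-! ### The loop around the boundary takes all values -/

lemma prod_first {G : Type*} [Group G] (x : G) : ∀ M : ℕ, 0 < M →
    (List.ofFn fun k : Fin M => if (k : ℕ) = 0 then x else 1).prod = x
  | 0, h => absurd h (lt_irrefl _)
  | M + 1, _ => by
    rw [List.ofFn_succ, List.prod_cons]
    have h2 : (List.ofFn fun i : Fin M => if ((Fin.succ i : Fin (M + 1)) : ℕ) = 0 then x else 1).prod
        = 1 := by
      refine List.prod_eq_one fun y hy => ?_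
      rw [List.mem_ofFn] at hy
      obtain ⟨i, rfl⟩ := hy
      simp
    rw [h2]
    simp

lemma lp_surj {G : Type*} [Group G] (n : ℕ) (x : G) : ∃ V : BE n → G, Pool.Agent.N989.MK.lp V = x := by
  refine ⟨fun e => if e.1 = 0 ∧ (e.2 : ℕ) = 0 then x else 1, ?_⟩
  have h0 : sd (fun e : BE n => if e.1 = 0 ∧ (e.2 : ℕ) = 0 then x else 1) 0 = x := by
    unfold sd
    have := prod_first x (2 ^ n) (by positivity)
    simpa using this
  have h1 : ∀ i : Fin 4, i ≠ 0 →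
      sd (fun e : BE n => if e.1 = 0 ∧ (e.2 : ℕ) = 0 then x else 1) i = 1 := by
    intro i hi
    unfold sd
    refine List.prod_eq_one fun y hy => ?_
    rw [List.mem_ofFn] at hy
    obtain ⟨k, rfl⟩ := hy
    simp [hi]
  unfold Pool.Agent.N989.MK.lp
  rw [h0, h1 1 (by decide), h1 2 (by decide), h1 3 (by decide)]
  simp

/-! ### Signed multiples of tangent vectors -/

section

variable {N n : ℕ} {G : Subgroup (UN N)} {B : Frame G n}

lemma Tg_smul {r k a lam L : ℝ} {F H : (Mat N)ˣ → ℂ} {η : (Fin n → ℂ) → ℂ}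
    (T : Tg B r k a lam L F H η) (c : ℝ) :
    Tg B r k (c * a) (|c| * lam) (|c| * L) F (fun u => (c : ℂ) * H u)
      (fun x => (c : ℂ) * η x) where
  lam0 := mul_nonneg (abs_nonneg c) T.lam0
  L0 := mul_nonneg (abs_nonneg c) T.L0
  near x hx := by
    rw [T.near x hx]
    push_cast
    ring
  md x hx := (differentiableAt_const _).mul (T.md x hx)
  even x hx := by rw [T.even x hx]
  bd x hx := by
    rw [norm_mul, Complex.norm_real, Real.norm_eq_abs, mul_assoc]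
    exact mul_le_mul_of_nonneg_left (T.bd x hx) (abs_nonneg c)
  far v y hv hcs := by
    rw [norm_mul, Complex.norm_real, Real.norm_eq_abs, mul_assoc]
    exact mul_le_mul_of_nonneg_left (T.far v y hv hcs) (abs_nonneg c)

variable [CompactSpace G] [MeasurableSpace G] [BorelSpace G]

lemma TSt_smul {r h a l : ℝ} {f g : G → ℝ} (T : TSt B r f g h a l) (c : ℝ) :
    TSt B r f (fun x => c * g x) h (c * a) (|c| * l) := by
  obtain ⟨F, H, η, h1, h2, T⟩ := T
  refine ⟨F, _, _, h1, ?_, Tg_smul T c⟩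
  have e : ng f (fun x => c * g x) = fun x => c * ng f g x := by
    funext x
    unfold ng
    ring
  rw [e]
  exact cf_smul h2 c

end

section

variable {G : Type*} [Group G] [TopologicalSpace G] [IsTopologicalGroup G] [CompactSpace G]
  [MeasurableSpace G] [BorelSpace G] [SecondCountableTopology G]
  {μ : Measure G} [IsProbabilityMeasure μ] [μ.IsHaarMeasure] [μ.IsMulRightInvariant]
  [μ.IsInvInvariant]
  {P : (G → ℝ) → ℝ → ℝ → Prop} {T : (G → ℝ) → (G → ℝ) → ℝ → ℝ → ℝ → Prop}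
  {o : G → ℝ} {κ h1 C' : ℝ} {Dm : ℕ} {c C R : ℝ}

lemma TanFlow_mono (TF : TanFlow μ P T o κ h1 C' Dm) {h2 : ℝ} (h : h1 ≤ h2) :
    TanFlow μ P T o κ h2 C' Dm :=
  ⟨TF.C_nn, TF.nn, TF.sub, fun f h' ρ hp hh => TF.init f h' ρ hp (h.trans hh),
    fun f g h₁ ρ h' ρ' a l a1 a2 a3 a4 a5 => TF.step f g h₁ ρ h' ρ' a l a1 a2 a3 (h.trans a4)
      (h.trans a5),
    fun f g h₁ ρ a l a1 a2 a3 => TF.close f g h₁ ρ a l a1 a2 (h.trans a3)⟩

variable {χ : G → ℝ} {n : ℕ} {D : ED G n} {Zb : ℝ → G → ℝ} {h0 A K : ℝ}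

/-- the Wilson loop is uniformly small for large areas at bounded inverse coupling -/
lemma far_of (ho : Obs μ χ) (hadm : ∀ β, Adm (Zb β)) (hK : 0 ≤ K)
    (hsc : ∀ β, 0 ≤ β → SC D (K * β) (Zb β)) {m : ℕ} (hg : Gen D m 1) {u : ℝ} (hu : 0 < u)
    (B : ℝ) : ∃ n0 : ℕ, ∀ k ≥ n0, ∀ β, 0 ≤ β → β ≤ B → WW μ χ (TTn μ (Zb β) k) < u := by
  obtain ⟨k0, hk0⟩ := exists_small (μ := μ) hg (abs_nonneg (K * B))
  have h1 : Tendsto (fun l : ℕ => (21 / 100 : ℝ) ^ 4 ^ l) atTop (𝓝 0) :=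
    (tendsto_pow_atTop_nhds_zero_of_lt_one (by norm_num) (by norm_num)).comp
      (tendsto_pow_atTop_atTop_of_one_lt (by norm_num))
  obtain ⟨l0, hl0⟩ := eventually_atTop.1 (h1.eventually (gt_mem_nhds hu))
  refine ⟨k0 + l0, fun k hk β hβ hβB => ?_⟩
  obtain ⟨l, rfl⟩ := Nat.exists_eq_add_of_le hk
  have hA := (hadm β).TTn (μ := μ) k0
  have h2 := hk0 (Zb β) (hadm β) (SC.mono
    ((mul_le_mul_of_nonneg_left hβB hK).trans (le_abs_self (K * B))) (hsc β hβ))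
  have h3 := h2.TTn hA (l0 + l)
  have h4 := WW_le_Sm ho (hA.TTn (l0 + l)) h3
  rw [← TTn_add, ← add_assoc] at h4
  have h5 := hl0 (l0 + l) (by omega)
  have h6 : (0 : ℝ) ≤ (21 / 100) ^ 4 ^ (l0 + l) := by positivity
  linarith

/-- the trajectories of a convergent sequence of theories -/
theorem hex_of (F : Flow μ χ D Zb P c h0 C A R) (ho : Obs μ χ) (hadm : ∀ β, Adm (Zb β))
    (hK : 0 ≤ K) (hsc : ∀ β, 0 ≤ β → SC D (K * β) (Zb β)) {m : ℕ}
    (hg : Gen D m 1) {β : ℕ → ℝ} (hβ : ∀ i, 0 < β i) {l : ℕ → ℕ} (hl : Tendsto l atTop atTop)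
    {Fk : ℤ → G → ℝ} (hF : ∀ k, Adm (Fk k))
    (hconv : ∀ k : ℤ, UT (fun i x => nrm μ (TTn μ (Zb (β i)) ((l i : ℤ) + k).toNat) x) (Fk k))
    (hW1 : Tendsto (fun j : ℕ => WW μ χ (Fk (-j))) atTop (𝓝 1)) (hW : ∀ k, WW μ χ (Fk k) < 1) :
    ∀ hq : ℝ, ∃ k0 : ℕ, ∀ k : ℕ, k0 ≤ k → ∃ Hu : ℝ, ∀ᶠ i in atTop, ∃ h ρ,
      TP μ P c C hq R (Zb (β i)) (l i - k) h ρ ∧ h (l i - k) ≤ Hu := by
  intro hq
  have hA := F.A_nn
  have hC := F.C_nn
  have hR := F.R_nn
  set hq' := max (max hq (C + 1)) h0 with hhq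
  have q1 : h0 ≤ hq' := le_max_right _ _
  have q2 : hq ≤ hq' := (le_max_left _ _).trans (le_max_left _ _)
  have q3 : C + 1 ≤ hq' := (le_max_right _ _).trans (le_max_left _ _)
  obtain ⟨H, u1, hu1, hqH, hex⟩ := extract F ho hg hadm q1
  have hu1' : max u1 0 < 1 := max_lt hu1 one_pos
  obtain ⟨k0, hk0⟩ := eventually_atTop.1 (hW1.eventually (lt_mem_nhds hu1'))
  refine ⟨k0, fun k hk => ?_⟩
  set w := WW μ χ (Fk (-k)) with hw
  have hwu : max u1 0 < w := hk0 k hk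
  have hw1 : w < 1 := hW _
  have hw0 : 0 < w := (le_max_right _ _).trans_lt hwu
  have hwu1 : u1 < w := (le_max_left _ _).trans_lt hwu
  have htW : Tendsto (fun i => WW μ χ (TTn μ (Zb (β i)) (l i - k))) atTop (𝓝 w) := by
    have h2 := Pool.Agent.N681.MK.UT.WW ho
      (fun i => (((hadm (β i)).TTn (μ := μ) ((l i : ℤ) + -k).toNat).nrm
      (μ := μ)).cont) (hF (-k)) (hconv (-k))
    refine h2.congr fun i => ?_
    have e : ((l i : ℤ) + -(k : ℤ)).toNat = l i - k := by omega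
    rw [e]
    exact WW_nrm ((hadm (β i)).TTn (l i - k))
  obtain ⟨n0, hn0⟩ := far_of ho hadm hK hsc hg (half_pos hw0) H
  have hlk : Tendsto (fun i => l i - k) atTop atTop := by
    refine tendsto_atTop.2 fun b => ?_
    filter_upwards [hl.eventually (eventually_ge_atTop (b + k))] with i hi
    omega
  refine ⟨(A + C * (R + 3)) * (2 / (1 - w)), ?_⟩
  filter_upwards [htW.eventually (lt_mem_nhds hwu1),
    htW.eventually (gt_mem_nhds (show w < 1 - (1 - w) / 2 by linarith)),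
    htW.eventually (lt_mem_nhds (show w / 2 < w by linarith)),
    hlk.eventually (eventually_ge_atTop n0)] with i g1 g2 g3 g4
  have hβH : H ≤ β i := by
    by_contra hcon
    push Not at hcon
    have := hn0 (l i - k) g4 (β i) (hβ i).le hcon.le
    linarith
  obtain ⟨h, ρ, tp⟩ := hex (β i) hβH (l i - k) g1
  refine ⟨h, ρ, TP_weaken q2 tp, ?_⟩
  set J := l i - k with hJ
  have hlo := tp.lo J le_rfl
  have hJ0 : 0 < h J := by linarith
  have h3 := F.wil _ _ _ (tp.p J le_rfl) (q1.trans hlo)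
  have h4 := tp.t.bd (show 0 < hq' by linarith) hC (by linarith) tp.r0 tp.r J le_rfl
  have h5 : 1 / h J ≤ 1 := by
    rw [div_le_one hJ0]
    linarith
  have h6 : C * (ρ J + 1 / h J) ≤ C * (R + 3) := mul_le_mul_of_nonneg_left (by linarith) hC
  have h7 : 1 - WW μ χ (TTn μ (Zb (β i)) J) ≤ (A + C * (R + 3)) / h J := by
    have h8 := (abs_le.1 h3).2
    have h9 : C * (ρ J + 1 / h J) / h J ≤ C * (R + 3) / h J :=
      div_le_div_of_nonneg_right h6 hJ0.le
    rw [add_div]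
    linarith
  rw [le_div_iff₀ hJ0] at h7
  rw [mul_div_assoc', le_div_iff₀ (by linarith)]
  have h8 : (1 - w) / 2 * h J ≤ (1 - WW μ χ (TTn μ (Zb (β i)) J)) * h J :=
    mul_le_mul_of_nonneg_right (by linarith) hJ0.le
  linarith

/-- the universality of the renormalised operators: the limits for the operator `o'` are those
intrinsically given by the operator `o` -/
theorem lim_op {κ' s C'' : ℝ} {o' : G → ℝ} {Dm' : ℕ} {h1' : ℝ}
    (TF : TanFlow μ P T o κ h1 C' Dm) (TF' : TanFlow μ P T o' κ' h1' C'' Dm') (hκ : κ' = s * κ)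
    (hsm : ∀ f g h a e (s : ℝ), T f g h a e → T f (fun x => s * g x) h (s * a) (|s| * e))
    (hc : 0 < c) (hC : 0 ≤ C) (hR : 0 ≤ R)
    (ho : Continuous o) (ho' : Continuous o') {f : ℕ → G → ℝ} {l : ℕ → ℕ} (hf : ∀ i, Adm (f i))
    (hl : Tendsto l atTop atTop) {Fk : ℤ → G → ℝ} (hF : ∀ k, Adm (Fk k))
    (hFs : ∀ k, Fk (k + 1) = nrm μ (TT μ (Fk k)))
    (hconv : ∀ k : ℤ, UT (fun i x => nrm μ (TTn μ (f i) ((l i : ℤ) + k).toNat) x) (Fk k))
    (hex : ∀ hq : ℝ, ∃ k0 : ℕ, ∀ k : ℕ, k0 ≤ k → ∃ Hu : ℝ, ∀ᶠ i in atTop, ∃ h ρ,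
      TP μ P c C hq R (f i) (l i - k) h ρ ∧ h (l i - k) ≤ Hu)
    {Φ : ℤ → G → ℝ} (hΦ : ∀ k : ℤ, UT (fun m : ℕ => evo μ (Fk (-m)) o ((m : ℤ) + k).toNat) (Φ k)) :
    (∀ k : ℤ, UT (fun i => evo μ (f i) o ((l i : ℤ) + k).toNat) (Φ k)) ∧
    ∀ k : ℤ, UT (fun i => evo μ (f i) o' ((l i : ℤ) + k).toNat) (fun x => s * Φ k x) := by
  obtain ⟨Φ1, a1, a2, a3, a4, a5⟩ := TF.conv hc hC hR ho hf hl hF hFs hconv hex
  obtain ⟨Φ2, b1, b2, b3, b4, b5⟩ := TF'.conv hc hC hR ho' hf hl hF hFs hconv hex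
  have e1 : ∀ k, Φ1 k = Φ k := fun k => Pool.Agent.N681.MK.UT.uniq (a4 k) (hΦ k)
  have h3 := TanFlow.univ (TanFlow_mono TF (le_max_left h1 h1'))
    (TanFlow_mono TF' (le_max_right h1 h1')) hκ hsm hc hC hR ho ho' hf hl hF hconv hex a3 b3
  refine ⟨fun k => ?_, fun k => ?_⟩
  · rw [← e1]
    exact a3 k
  · have e2 : (fun x => s * Φ k x) = Φ2 k := by
      funext x
      rw [h3 k x, e1]
    rw [e2]
    exact b3 k

end

end

end Pool.Agent.N109.T3
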