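import Mathlib
import Pool.Agent.N109.T3.Defs
import Pool.Agent.N109.T3.Flw
import Pool.Agent.N988.MK.CharP
import Pool.Agent.N988.MK.Tan14
import Pool.Agent.N988.MK.Tan15
import Pool.Agent.N989.MK.Main

/-!
# The lattice models: the states and the tangent vectors
-/

open MeasureTheory Matrix Filter Pool.Agent.N991.MK Pool.Agent.N988.MK Pool.Agent.N989.MK
open scoped Matrix.Norms.Frobenius Topology
open Pool.Agent.H906R3.YM Pool.Agent.W793.YM Pool.Agent.TH618.YM Pool.Agent.N984.TW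
open Pool.Agent.N681.MK (evo dTn fld TanFlow TP_weaken)

namespace Pool.Agent.N109.T3

set_option linter.unusedSectionVars false

noncomputable section

variable {N n : ℕ} {G : Subgroup (UN N)}

/-- Wilson's action has the curvature one -/
lemma curv_tr (B : Frame G n) (hG : IsClosed (G : Set (UN N))) :
    Curv B.X (fun g : G => (trace (mx g)).re) 1 := by
  obtain ⟨CW, r0, hCW, hr0, hst⟩ := wil_state B
  intro a γ hγ
  have hγ2 : ∀ t, γ t = Eg B hG (t • Pi.single a 1) := by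
    intro t
    apply mt_inj
    have h1 : mt (γ t) = NormedSpace.exp (t • B.X a) := hγ t
    rw [h1, mt_Eg]
    unfold EM
    rw [LX_smul]
    congr 2
    unfold LX
    simp [Pi.single_apply]
  have hn1 : nE (Pi.single a (1 : ℝ)) = 1 := by
    unfold nE
    rw [Finset.sum_eq_single a]
    · simp
    · intro b _ hb
      simp [hb]
    · intro h
      exact absurd (Finset.mem_univ _) h
  have hone : (trace (mx (1 : G))).re = N := by
    have : mx (1 : G) = 1 := rfl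
    rw [this, trace_one, Fintype.card_fin]
    simp
  have key : ∀ t : ℝ, |t| < r0 →
      |(trace (mx (1 : G))).re - (trace (mx (γ t))).re - 1 / 2 * t ^ 2| ≤ CW * t ^ 4 := by
    intro t ht
    obtain ⟨v, hv⟩ : ∃ v : Fin n → ℝ, v = t • Pi.single a 1 := ⟨_, rfl⟩
    have hnv : nE v = |t| := by rw [hv, Pool.Agent.N988.MK.nE_smul, hn1, mul_one]
    have h1 := (hst r0 hr0 le_rfl 1 zero_le_one).bd (rl v) (by rw [Pool.Agent.N988.MK.nC_rl, hnv]; exact ht)
    have e1 : EC B (rl v) = mt (γ t) := by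
      have h2 := congrArg (fun u : (Mat N)ˣ => (u : Mat N)) (uE_rl B hG v)
      rw [hγ2 t, ← hv]
      exact h2
    have e2 : EC B (-rl v) = mt (γ t)⁻¹ := by
      have h2 := congrArg (fun u : (Mat N)ˣ => ((u⁻¹ : (Mat N)ˣ) : Mat N)) (uE_rl B hG v)
      rw [hγ2 t, ← hv]
      exact h2
    rw [Pool.Agent.N988.MK.nC_rl, hnv, mul_one] at h1
    unfold mW at h1
    rw [e1, e2, mt_inv, trace_conjTranspose, Pool.Agent.N988.MK.qC_rl, hnv, sq_abs] at h1
    have h3 : |t| ^ 4 = t ^ 4 := by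
      rw [show (4 : ℕ) = 2 * 2 by norm_num, pow_mul, pow_mul, sq_abs]
    rw [h3] at h1
    refine le_trans (le_of_eq ?_) ((Complex.abs_re_le_norm _).trans h1)
    congr 1
    have e3 : mx (γ t) = mt (γ t) := rfl
    rw [hone, e3]
    simp only [Complex.mul_re, Complex.sub_re, Complex.sub_im, Complex.ofReal_re,
      Complex.ofReal_im, Complex.star_def, Complex.conj_re, Complex.conj_im]
    norm_num
    ring
  rw [tendsto_iff_norm_sub_tendsto_zero]
  have h2 : Tendsto (fun t : ℝ => CW * t ^ 2) (𝓝[≠] 0) (𝓝 0) := by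
    have h3 : Continuous fun t : ℝ => CW * t ^ 2 := by fun_prop
    have h4 := h3.tendsto 0
    rw [zero_pow (by norm_num), mul_zero] at h4
    exact h4.mono_left nhdsWithin_le_nhds
  refine squeeze_zero' (Eventually.of_forall fun t => norm_nonneg _) ?_ h2
  have h5 : ∀ᶠ t : ℝ in 𝓝[≠] 0, |t| < r0 := by
    have : ∀ᶠ t : ℝ in 𝓝 0, |t| < r0 := by
      have h6 := (continuous_abs (G := ℝ)).tendsto 0
      rw [abs_zero] at h6
      exact h6.eventually (gt_mem_nhds hr0)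
    exact this.filter_mono nhdsWithin_le_nhds
  filter_upwards [h5, self_mem_nhdsWithin] with t ht ht0
  have ht0' : t ≠ 0 := ht0
  have h6 := key t ht
  have h7 : ((trace (mx (1 : G))).re - (trace (mx (γ t))).re) / t ^ 2 - 1 / 2 =
      ((trace (mx (1 : G))).re - (trace (mx (γ t))).re - 1 / 2 * t ^ 2) / t ^ 2 := by
    field_simp
  rw [Real.norm_eq_abs, h7, abs_div, abs_of_pos (by positivity : 0 < t ^ 2),
    div_le_iff₀ (by positivity)]
  calc _ ≤ CW * t ^ 4 := h6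
    _ = _ := by ring

/-- the trace is a polynomial class function -/
lemma cp_tr : ClassPoly G (fun g : G => (trace (mx g)).re) where
  poly := by
    refine ⟨∑ i : Fin N, MvPolynomial.X (Sum.inl (i, i)), fun g => ?_⟩
    rw [map_sum]
    simp only [MvPolynomial.eval_X]
    unfold entries trace
    simp
  cls h g := by
    have : mx (h * g * h⁻¹) = mt (h * g * h⁻¹) := rfl
    rw [this, mt_ctr]
    rfl
  sym g := by
    have : mx g⁻¹ = (mt g)ᴴ := mt_inv g
    rw [this, trace_conjTranspose]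
    simp
    rfl

/-- Wilson's action is an admissible action -/
lemma bare_tr : BareAction G (fun g : G => (trace (mx g)).re) where
  poly := cp_tr.poly
  cls := cp_tr.cls
  sym := cp_tr.sym
  max := by
    refine ⟨1, one_pos, fun g => ?_⟩
    have : mx (1 : G) = 1 := rfl
    rw [this, trace_one, Fintype.card_fin, one_mul]
    simp

variable [MeasurableSpace G] [BorelSpace G] {μ : Measure G} [IsProbabilityMeasure μ]
  [μ.IsHaarMeasure]

lemma cls_obs {O : G → ℝ} (hO : ClassPoly G O) : Cls O := fun g x => hO.cls g x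

lemma sy_obs {O : G → ℝ} (hO : ClassPoly G O) : Sy O := fun x => hO.sym x

section

variable [CompactSpace G] [ConnectedSpace G] [SecondCountableTopology G] [μ.IsMulRightInvariant]
  [μ.IsInvInvariant]

variable (μ) in
/-- **the states and the tangent vectors of an action** -/
theorem setup_S (hG : SimpleGroup G) (B : Frame G n) {P : Matrix (Fin N) (Fin N) ℂ}
    (hP : Constituent G P) {cA : ℝ} (hcA0 : 0 < cA)
    (hcA : ∀ x : Fin n → ℝ, ∑ a, ‖LX B x * B.X a - B.X a * LX B x‖ ^ 2 = cA * ∑ a, x a ^ 2)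
    {S : G → ℝ} (hS : BareAction G S) {r₃ ε₃ : ℝ} (hr₃ : 0 < r₃) (hε₃ : 0 < ε₃) :
    ∃ κ r ε h1 K h0 C A R K' : ℝ, 0 < κ ∧ 0 < r ∧ r ≤ r₃ ∧ r ≤ 1 ∧ 0 < ε ∧ ε ≤ ε₃ ∧ 0 ≤ K' ∧
      GoodR B r ∧ (∀ β, Adm (wS S κ β)) ∧
      (∀ β, 0 ≤ β → SC (EDG B hG.closed) (K' * β) (wS S κ β)) ∧
      (∀ β, bw S β = wS S κ (κ * β)) ∧
      Flow μ (chiP P : G → ℝ) (EDG B hG.closed) (wS S κ) (PT B μ r ε h1 K) (cA / 8) h0 C A R ∧
      ∀ (o : G → ℝ) (κo : ℝ), ClassPoly G o → Curv B.X o κo → Continuous o ∧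
        ∃ h2 C' : ℝ, 1 ≤ h2 ∧ TanFlow μ (PT B μ r ε h1 K) (TSt B r) o κo h2 C' 0 := by
  have hGc : IsClosed (G : Set (UN N)) := hG.closed
  have hI : IrC G P := ⟨⟨hP.herm, hP.idem, hP.comm⟩, hP.ne, hP.irr, hP.nontriv⟩
  have hP0 : 0 < (trace P).re := hI.tr_pos
  have hIs : IsoG B := isoG_of_simple B hGc hG.nonabelian hG.simple
  have hn : 0 < n := frame_pos B hGc hG.nonabelian
  obtain ⟨κ, W, mw, r0, CW, Λ, K', hκ, hK', hE, hsc, hct, -⟩ := ent_pol (B := B) hGc hIs hn μ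
      (S := S) hS.poly (fun g h => hS.cls h g) hS.sym hS.max
  obtain ⟨r₁, ε₁, hr₁, hr₁1, hε₁, -, hF⟩ := weak_flowT B hGc μ hG.nonabelian hG.simple
    ⟨hP.herm, hP.idem, hP.comm⟩ hP0 hcA0 hcA (Λ := Λ) hE.r_pos hE.C_nn
  obtain ⟨ε, hε⟩ : ∃ ε, ε = min ε₁ ε₃ := ⟨_, rfl⟩
  have hε0 : 0 < ε := by rw [hε]; exact lt_min hε₁ hε₃
  have hCW := hE.C_nn
  obtain ⟨r, hr⟩ : ∃ r, r = min (min r₁ r₃) (ε / (CW + 1)) := ⟨_, rfl⟩
  have hr0 : 0 < r := by
    rw [hr]
    exact lt_min (lt_min hr₁ hr₃) (by positivity)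
  have hrr₁ : r ≤ r₁ := by rw [hr]; exact (min_le_left _ _).trans (min_le_left _ _)
  have hrr₃ : r ≤ r₃ := by rw [hr]; exact (min_le_left _ _).trans (min_le_right _ _)
  have hr1 : r ≤ 1 := hrr₁.trans hr₁1
  have hrε : r * (CW + 1) ≤ ε := by
    have : r ≤ ε / (CW + 1) := by rw [hr]; exact min_le_right _ _
    rwa [le_div_iff₀ (by positivity)] at this
  have hCr : CW * r ^ 2 ≤ ε := by
    have h1 : CW * r ^ 2 ≤ CW * r := by
      have : r ^ 2 ≤ r := by nlinarith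
      exact mul_le_mul_of_nonneg_left this hCW
    nlinarith
  obtain ⟨hgr, h1, K, h0, C, -, -, hFl, hT⟩ := hF ε hε0 (by rw [hε]; exact min_le_left _ _) r hr0
    hrr₁ hCr
  refine ⟨κ, r, ε, h1, K, h0, C, _, CW, K', hκ, hr0, hrr₃, hr1, hε0,
    by rw [hε]; exact min_le_right _ _, hK', hgr, fun β =>
      ⟨hct.comp (continuous_const.prodMk continuous_id), fun _ => Real.exp_pos _,
        fun g x => by unfold wS; rw [hS.cls], fun x => by unfold wS; rw [hS.sym]⟩, hsc, ?_,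
    hFl _ _ _ hE, ?_⟩
  · intro β
    funext g
    unfold bw wS
    congr 1
    field_simp
  · intro o κo ho hκo
    obtain ⟨O, C2, hcf, hC2, h2⟩ := obs_pol (B := B) hGc hIs hn μ (o := o) ho.poly
      (fun g h => ho.cls h g) ho.sym hκo
    exact ⟨hcf.cont, hT o O κo C2 hcf hC2 h2⟩

/-- the convergence of the lattice theories in terms of the iterated renormalisation map -/
lemma appr_ut {S : G → ℝ} (hadm : ∀ β, Adm (bw S β)) {F : ℤ → G → ℝ} {β : ℕ → ℝ} {l : ℕ → ℕ}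
    (h : ∀ (k : ℤ) (ε : ℝ), 0 < ε → ∀ᶠ i in atTop, ∀ V : BE (((l i : ℤ) + k).toNat) → G,
      |Zb μ (bw S (β i)) (((l i : ℤ) + k).toNat) V / Zt μ (bw S (β i)) (((l i : ℤ) + k).toNat) -
      F k (lp V)| < ε) (k : ℤ) :
    UT (fun i x => nrm μ (TTn μ (bw S (β i)) ((l i : ℤ) + k).toNat) x) (F k) := by
  intro ε hε
  filter_upwards [h k ε hε] with i hi x
  obtain ⟨V, rfl⟩ := lp_surj (((l i : ℤ) + k).toNat) x
  have h1 := hi V
  rw [Zb_TTn (hadm _), Zt_TTn (hadm _)] at h1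
  unfold nrm
  rwa [inv_mul_eq_div]

/-- **the renormalised operators of all the lattice theories which converge to a limit theory** -/
theorem model_op (hG : SimpleGroup G) (B : Frame G n) {P : Matrix (Fin N) (Fin N) ℂ}
    (hP : Constituent G P) {cA : ℝ} (hcA0 : 0 < cA)
    (hcA : ∀ x : Fin n → ℝ, ∑ a, ‖LX B x * B.X a - B.X a * LX B x‖ ^ 2 = cA * ∑ a, x a ^ 2)
    {Fk : ℤ → G → ℝ} (hF : ∀ k, Adm (Fk k)) (hFs : ∀ k, Fk (k + 1) = nrm μ (TT μ (Fk k)))
    (hW1 : Tendsto (fun j : ℕ => WW μ (chiP P) (Fk (-j))) atTop (𝓝 1))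
    (hW : ∀ k, WW μ (chiP P) (Fk k) < 1) {Φ : ℤ → G → ℝ}
    (hΦ : ∀ k : ℤ, UT (fun m : ℕ => evo μ (Fk (-m)) (fun g : G => (trace (mx g)).re)
      ((m : ℤ) + k).toNat) (Φ k))
    {S : G → ℝ} {β : ℕ → ℝ} {l : ℕ → ℕ} (ha : Appr μ Fk S β l)
    {O : G → ℝ} (hO : ClassPoly G O) {κ : ℝ} (hκ : Curv B.X O κ) :
    (∀ β, Adm (bw S β)) ∧ Continuous O ∧
    (∀ k : ℤ, UT (fun i => nrm μ (TTn μ (bw S (β i)) ((l i : ℤ) + k).toNat)) (Fk k)) ∧
    ∀ k : ℤ, UT (fun i => evo μ (bw S (β i)) O ((l i : ℤ) + k).toNat) (fun x => κ * Φ k x) := by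
  obtain ⟨m, hg⟩ := exists_gen B hG.closed hG.connected
  have hI : IrC G P := ⟨⟨hP.herm, hP.idem, hP.comm⟩, hP.ne, hP.irr, hP.nontriv⟩
  have ho : Obs μ (chiP P : G → ℝ) := obs_chiP hI
  obtain ⟨κS, r, ε, h1, K, h0, C, A, R, K', hκS, hr, -, -, hε, -, hK', hgr, hadm, hsc, hbw, Fl,
    hT⟩ := setup_S μ hG B hP hcA0 hcA ha.bare one_pos one_pos
  have hadm' : ∀ β, Adm (bw S β) := fun β => by rw [hbw]; exact hadm _
  have hconv := appr_ut (μ := μ) hadm' ha.conv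
  have hex := hex_of Fl ho hadm hK' hsc hg (β := fun i => κS * β i)
    (fun i => mul_pos hκS (ha.pos i)) ha.len hF (fun k => by
      simpa only [← hbw] using hconv k) hW1 hW
  simp only [← hbw] at hex
  obtain ⟨hc0, h2, C2, -, T0⟩ := hT _ 1 cp_tr (curv_tr B hG.closed)
  obtain ⟨hcO, h2', C2', -, T1⟩ := hT O κ hO hκ
  exact ⟨hadm', hcO, hconv, (lim_op T0 T1 (mul_one κ).symm
    (fun f g h a e s T => TSt_smul T s) Fl.c_pos Fl.C_nn Fl.R_nn hc0 hcO (fun i => hadm' _) ha.len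
    hF hFs hconv hex hΦ).2⟩

end

end

end Pool.Agent.N109.T3
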