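import Mathlib
import Pool.Agent.N109.T3.Mod

/-!
# The renormalised field of small plaquettes
-/

open MeasureTheory Matrix Filter Pool.Agent.N991.MK Pool.Agent.N988.MK Pool.Agent.N989.MK
open scoped Matrix.Norms.Frobenius Topology
open Pool.Agent.H906R3.YM Pool.Agent.W793.YM Pool.Agent.TH618.YM Pool.Agent.N984.TW
open Pool.Agent.N681.MK (evo dTn fld TanFlow TP_weaken)

namespace Pool.Agent.N109.T3

set_option linter.unusedSectionVars false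

noncomputable section

section

variable {G : Type*} [Group G] [TopologicalSpace G] [IsTopologicalGroup G] [CompactSpace G]
  [MeasurableSpace G] [BorelSpace G] [SecondCountableTopology G]
  {μ : Measure G} [IsProbabilityMeasure μ] [μ.IsHaarMeasure] [μ.IsMulRightInvariant]
  [μ.IsInvInvariant]
  {P : (G → ℝ) → ℝ → ℝ → Prop} {T : (G → ℝ) → (G → ℝ) → ℝ → ℝ → ℝ → Prop}
  {o : G → ℝ} {κ h1 C' : ℝ} {Dm : ℕ} {c C R : ℝ}

/-- **the near form of the limit** -/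
theorem near_lim0 (TF : TanFlow μ P T o κ h1 C' Dm) (hc : 0 < c) (hC : 0 ≤ C)
    (hR : 0 ≤ R) {f : ℕ → G → ℝ} {l : ℕ → ℕ} (hl : Tendsto l atTop atTop)
    (hex : ∀ hq : ℝ, ∃ k0 : ℕ, ∀ k : ℕ, k0 ≤ k → ∃ Hu : ℝ, ∀ᶠ i in atTop, ∃ h ρ,
      TP μ P c C hq R (f i) (l i - k) h ρ ∧ h (l i - k) ≤ Hu)
    {ι : Type*} {x : ι → G} {q : ι → ℝ}
    (hnear : ∀ f g h ρ a e, P f h ρ → T f g h a e → ∀ y, |fld f g (x y) + a / 2 * q y| ≤
      e * q y ^ 2)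
    {Φ : ℤ → G → ℝ}
    (hΦ : ∀ k : ℤ, UT (fun i => evo μ (f i) o ((l i : ℤ) + k).toNat) (Φ k)) :
    ∃ (k1 : ℕ) (B : ℝ), 1 ≤ k1 ∧ 0 ≤ B ∧ ∀ k : ℕ, k1 ≤ k → ∃ a : ℝ, |a - κ| ≤ B / k ∧
      ∀ y, |Φ (-k) (x y) + a / 2 * q y| ≤ B / k * q y ^ 2 := by
  obtain ⟨k1, B, hB, hd⟩ := TF.data hc hC hR hl hex
  refine ⟨k1 + 1, B, by omega, hB, fun k hk => ?_⟩
  have hkp : (0 : ℝ) < k := by exact_mod_cast (by omega : 0 < k)
  have hd' := hd k (by omega)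
  obtain ⟨N1, hN1⟩ := eventually_atTop.1 hd'
  choose! h ρ a e d1 d2 d3 d4 d5 d6 d7 d8 d9 using hN1
  -- a convergent subsequence of the coefficients
  have hmem : ∀ i : ℕ, a (N1 + i) ∈ Set.Icc (κ - B / k) (κ + B / k) := by
    intro i
    have := abs_le.1 (d4 (N1 + i) (by omega))
    exact ⟨by linarith [this.1], by linarith [this.2]⟩
  obtain ⟨a', ha', φ, hφ, hlim⟩ := isCompact_Icc.tendsto_subseq hmem
  refine ⟨a', ?_, fun y => ?_⟩
  · rw [abs_le]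
    exact ⟨by linarith [ha'.1], by linarith [ha'.2]⟩
  · have hU : Tendsto (fun i => evo μ (f i) o ((l i : ℤ) + -k).toNat (x y)) atTop
        (𝓝 (Φ (-k) (x y))) := by
      rw [Metric.tendsto_atTop']
      intro ε hε
      obtain ⟨n, hn⟩ := eventually_atTop.1 (hΦ (-k) ε hε)
      exact ⟨n, fun i hi => hn i hi.le (x y)⟩
    have hsub : Tendsto (fun i => N1 + φ i) atTop atTop :=
      tendsto_atTop_mono (fun i => Nat.le_add_left _ _) hφ.tendsto_atTop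
    have hU2 := hU.comp hsub
    have hT : Tendsto (fun i => |evo μ (f (N1 + φ i)) o ((l (N1 + φ i) : ℤ) + -k).toNat (x y) +
        a (N1 + φ i) / 2 * q y|) atTop (𝓝 |Φ (-k) (x y) + a' / 2 * q y|) :=
      (hU2.add ((hlim.div_const 2).mul_const (q y))).abs
    refine le_of_tendsto hT (Eventually.of_forall fun i => ?_)
    have h4 := hnear _ _ _ _ _ _ (d1 (N1 + φ i) (by omega)) (d3 (N1 + φ i) (by omega)) y
    have e1 : ((l (N1 + φ i) : ℤ) + -(k : ℤ)).toNat = l (N1 + φ i) - k := by omega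
    rw [e1]
    refine h4.trans ?_
    exact mul_le_mul_of_nonneg_right (d5 (N1 + φ i) (by omega)) (sq_nonneg _)

end

variable {N n : ℕ} {G : Subgroup (UN N)}
variable [MeasurableSpace G] [BorelSpace G] {μ : Measure G} [IsProbabilityMeasure μ]
  [μ.IsHaarMeasure]
variable [CompactSpace G] [SecondCountableTopology G] [μ.IsMulRightInvariant]
  [μ.IsInvInvariant]

/-- **the near form of the limit, in terms of matrices** -/
theorem near_mat (B : Frame G n) (hG : IsClosed (G : Set (UN N))) {r ε hq K c C R : ℝ}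
    (hr : 0 < r) {o : G → ℝ} {κ h2 C' : ℝ}
    (TF : TanFlow μ (PT B μ r ε hq K) (TSt B r) o κ h2 C' 0) (hc : 0 < c) (hC : 0 ≤ C)
    (hR : 0 ≤ R) {f : ℕ → G → ℝ} {l : ℕ → ℕ} (hl : Tendsto l atTop atTop)
    (hex : ∀ hq' : ℝ, ∃ k0 : ℕ, ∀ k : ℕ, k0 ≤ k → ∃ Hu : ℝ, ∀ᶠ i in atTop, ∃ h ρ,
      TP μ (PT B μ r ε hq K) c C hq' R (f i) (l i - k) h ρ ∧ h (l i - k) ≤ Hu)
    {Φ : ℤ → G → ℝ}
    (hΦ : ∀ k : ℤ, UT (fun i => evo μ (f i) o ((l i : ℤ) + k).toNat) (Φ k)) :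
    ∃ (j0 : ℕ) (C r : ℝ), 0 < r ∧ ∀ j : ℕ, j0 ≤ j → ∃ a : ℝ, |a - κ| ≤ C / j ∧
      ∀ (y : Fin n → ℝ) (g : G), (∑ b, y b ^ 2) ≤ r ^ 2 →
        mx g = NormedSpace.exp (∑ b, y b • B.X b) →
        |Φ (-j) g + a / 2 * ∑ b, y b ^ 2| ≤ C / j * (∑ b, y b ^ 2) ^ 2 := by
  obtain ⟨k1, Bd, hk1, hBd, hm⟩ := near_lim0 (ι := {v : Fin n → ℝ // nE v < r})
    (x := fun v => Eg B hG v.1) (q := fun v => nE v.1 ^ 2) TF hc hC hR hl hex
    (fun f g h ρ a e hP T v => by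
      have := TSt.near hG hP.1 T v.2
      rwa [← pow_mul]) hΦ
  refine ⟨k1, Bd, r / 2, by positivity, fun j hj => ?_⟩
  obtain ⟨a, ha, hy⟩ := hm j hj
  refine ⟨a, ha, fun y g hyr hg => ?_⟩
  have e1 : nE y ^ 2 = ∑ b, y b ^ 2 := Pool.Agent.N991.MK.nE_sq y
  have h1 : nE y < r := by
    have h2 : nE y ^ 2 ≤ (r / 2) ^ 2 := e1.trans_le hyr
    have h3 := abs_le_of_sq_le_sq h2 (by positivity)
    have h4 := le_abs_self (nE y)
    linarith [(abs_le.1 (abs_le_of_sq_le_sq h2 (by positivity))).2]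
  have e2 : g = Eg B hG y := by
    apply mt_inj
    rw [mt_Eg]
    exact hg
  have h5 := hy ⟨y, h1⟩
  rw [← e1, e2]
  exact h5

end

end Pool.Agent.N109.T3
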