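import Mathlib
import Pool.Agent.N109.T3.Blk

/-!
# The convergence of the correlation functions in a fixed volume
-/

open MeasureTheory Pool.Agent.N991.MK Pool.Agent.N989.MK Filter
open scoped Topology

namespace Pool.Agent.N109.T3

set_option linter.unusedSectionVars false

noncomputable section

section
variable {X Y : Type*} [TopologicalSpace X] [CompactSpace X]

lemma ut_comp {a : ℕ → Y → ℝ} {A : Y → ℝ} (h : UT a A) (g : X → Y) :
    UT (fun i x => a i (g x)) fun x => A (g x) := by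
  intro ε hε
  filter_upwards [h ε hε] with i hi x
  exact hi (g x)

lemma ut_prod {κ : Type*} (s : Finset κ) {f : κ → ℕ → X → ℝ} {F : κ → X → ℝ}
    (h : ∀ a ∈ s, UT (f a) (F a)) (hF : ∀ a ∈ s, Continuous (F a)) :
    UT (fun i x => ∏ a ∈ s, f a i x) fun x => ∏ a ∈ s, F a x := by
  classical
  induction s using Finset.induction_on with
  | empty =>
    simp only [Finset.prod_empty]
    exact Pool.Agent.N681.MK.UT.const _
  | insert a s ha ih =>
    simp only [Finset.prod_insert ha]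
    refine Pool.Agent.N681.MK.UT.mul (hF a (Finset.mem_insert_self a s)) ?_
      (h a (Finset.mem_insert_self a s)) (ih (fun b hb => h b (Finset.mem_insert_of_mem hb))
      fun b hb => hF b (Finset.mem_insert_of_mem hb))
    exact continuous_finsetProd _ fun b hb => hF b (Finset.mem_insert_of_mem hb)

lemma ut_int [MeasurableSpace X] {ν : Measure X} [IsProbabilityMeasure ν] {f : ℕ → X → ℝ}
    {F : X → ℝ} (hf : ∀ i, Integrable (f i) ν) (hF : Integrable F ν) (h : UT f F) :
    Tendsto (fun i => ∫ x, f i x ∂ν) atTop (𝓝 (∫ x, F x ∂ν)) := by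
  rw [Metric.tendsto_atTop']
  intro ε hε
  obtain ⟨n, hn⟩ := eventually_atTop.1 (h (ε / 2) (half_pos hε))
  refine ⟨n, fun i hi => ?_⟩
  rw [Real.dist_eq, ← integral_sub (hf i) hF]
  have h3 : ∀ y, ‖f i y - F y‖ ≤ ε / 2 := fun y => (hn i hi.le y).le
  have h4 := norm_integral_le_of_norm_le_const (μ := ν) (Eventually.of_forall h3)
  simp only [probReal_univ, mul_one] at h4
  rw [Real.norm_eq_abs] at h4
  linarith

lemma ut_tendsto {a : ℕ → ℝ} {A : ℝ} (h : Tendsto a atTop (𝓝 A)) :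
    UT (fun i (_ : X) => a i) fun _ => A := by
  intro ε hε
  rw [Metric.tendsto_atTop] at h
  obtain ⟨n, hn⟩ := h ε hε
  filter_upwards [eventually_ge_atTop n] with i hi x
  have := hn i hi
  rwa [Real.dist_eq] at this

end

variable {G : Type*} [Group G] [TopologicalSpace G] [IsTopologicalGroup G] [CompactSpace G]
  [MeasurableSpace G] [BorelSpace G] [SecondCountableTopology G]
  {μ : Measure G} [IsProbabilityMeasure μ] [μ.IsHaarMeasure] [μ.IsMulRightInvariant]
  [μ.IsInvInvariant]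

/-- the convergence of expectations in a fixed volume -/
theorem Ex_tendsto {w : ℕ → G → ℝ} {F : G → ℝ} (hw : ∀ i, Adm (w i)) (hF : Adm F)
    (h : UT w F) {n : ℕ} {O : ℕ → (Ed n → G) → ℝ} {O' : (Ed n → G) → ℝ}
    (hO : ∀ i, Continuous (O i)) (hO' : Continuous O') (h' : UT O O') :
    Tendsto (fun i => Ex μ (w i) n (O i)) atTop (𝓝 (Ex μ F n O')) := by
  have hI : ∀ {g : (Ed n → G) → ℝ}, Continuous g → Integrable g (Measure.pi fun _ => μ) :=
    fun hg => hg.integrable_of_hasCompactSupport (HasCompactSupport.of_compactSpace _)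
  have c1 : ∀ i, Continuous fun U : Ed n → G => wt (w i) U := fun i => wt_cont (hw i).cont
  have c2 : Continuous fun U : Ed n → G => wt F U := wt_cont hF.cont
  have h1 : UT (fun i (U : Ed n → G) => wt (w i) U) fun U => wt F U := by
    unfold wt
    exact ut_prod Finset.univ (fun p _ => ut_comp h fun U : Ed n → G => hol U p)
      fun p _ => hF.cont.comp (hol_cont p)
  have h2 := Pool.Agent.N681.MK.UT.mul hO' c2 h' h1
  have t1 := ut_int (fun i => hI ((hO i).mul (c1 i))) (hI (hO'.mul c2)) h2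
  have t2 := ut_int (fun i => hI (c1 i)) (hI c2) h1
  have hp : (∫ U : Ed n → G, wt F U ∂(Measure.pi fun _ => μ)) ≠ 0 := by
    rw [part_eq hF]
    exact (hF.TTn (μ := μ) n).ipos.ne'
  exact t1.div t2 hp

/-- the convergence of the centred correlation functions in a fixed volume -/
theorem Cn_tendsto {w : ℕ → G → ℝ} {F : G → ℝ} (hw : ∀ i, Adm (w i)) (hF : Adm F)
    (h : UT w F) {ψ : ℕ → G → ℝ} {Ψ : G → ℝ} (hψ : ∀ i, Continuous (ψ i)) (hΨ : Continuous Ψ)
    (h' : UT ψ Ψ) {n r : ℕ} (p : Fin r → Pq n) :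
    Tendsto (fun i => Cn μ (w i) n p (ψ i)) atTop (𝓝 (Cn μ F n p Ψ)) := by
  unfold Cn
  have h1 : ∀ a : Fin r, Tendsto (fun i => Ex μ (w i) n (fun U => ψ i (hol U (p a)))) atTop
      (𝓝 (Ex μ F n (fun U => Ψ (hol U (p a))))) := fun a =>
    Ex_tendsto hw hF h (fun i => cont_obs (hψ i) (p a)) (cont_obs hΨ (p a))
      (ut_comp h' fun U : Ed n → G => hol U (p a))
  refine Ex_tendsto hw hF h (fun i => ?_) ?_ ?_
  · exact continuous_finsetProd _ fun a _ => (cont_obs (hψ i) (p a)).sub continuous_const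
  · exact continuous_finsetProd _ fun a _ => (cont_obs hΨ (p a)).sub continuous_const
  · refine ut_prod Finset.univ (fun a _ => ?_) fun a _ =>
      (cont_obs hΨ (p a)).sub continuous_const
    exact Pool.Agent.N681.MK.UT.sub (ut_comp h' fun U : Ed n → G => hol U (p a))
      (ut_tendsto (h1 a))

/-! ### Homogeneity in the weight -/

lemma wt_scale (c : ℝ) (w : G → ℝ) {n : ℕ} (U : Ed n → G) :
    wt (fun x => c * w x) U = c ^ Fintype.card (Pq n) * wt w U := by
  unfold wt
  rw [Finset.prod_mul_distrib, Finset.prod_const, Finset.card_univ]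

lemma Ex_scale {c : ℝ} (hc : c ≠ 0) (w : G → ℝ) (n : ℕ) (O : (Ed n → G) → ℝ) :
    Ex μ (fun x => c * w x) n O = Ex μ w n O := by
  unfold Ex
  have e : ∀ U : Ed n → G, O U * wt (fun x => c * w x) U =
      c ^ Fintype.card (Pq n) * (O U * wt w U) := fun U => by
    rw [wt_scale]
    ring
  simp only [e]
  simp only [wt_scale]
  rw [integral_const_mul, integral_const_mul, mul_div_mul_left _ _ (pow_ne_zero _ hc)]

lemma Cn_scale {c : ℝ} (hc : c ≠ 0) (w : G → ℝ) (n : ℕ) {r : ℕ} (p : Fin r → Pq n)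
    (O : G → ℝ) : Cn μ (fun x => c * w x) n p O = Cn μ w n p O := by
  unfold Cn
  rw [Ex_scale hc]
  congr 1
  funext U
  refine Finset.prod_congr rfl fun a _ => ?_
  rw [Ex_scale hc]

lemma Cn_nrm {w : G → ℝ} (hw : Adm w) (n : ℕ) {r : ℕ} (p : Fin r → Pq n) (O : G → ℝ) :
    Cn μ (nrm μ w) n p O = Cn μ w n p O :=
  Cn_scale (inv_pos.2 hw.ipos).ne' w n p O

/-- **The convergence of all correlation functions** -/
theorem corr_conv {w : ℕ → G → ℝ} (hw : ∀ i, Adm (w i)) {m : ℕ → ℕ} {F : G → ℝ} (hF : Adm F)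
    (h : UT (fun i => nrm μ (TTn μ (w i) (m i))) F) {O : G → ℝ} (hO : Continuous O)
    (hc : Cls O) {Ψ : G → ℝ} (hΨ : Continuous Ψ)
    (h' : UT (fun i => Pool.Agent.N681.MK.evo μ (w i) O (m i)) Ψ) {j r : ℕ} {α : Fin r → Pq j}
    (hα : Function.Injective α) {ε : ℝ} (hε : 0 < ε) :
    ∀ᶠ i in atTop, ∀ p : Fin r → Pq (m i),
      |(16 : ℝ) ^ (r * m i) * Cn μ (w i) (m i + j) (fun a => jn (α a) (p a)) O -
        Cn μ F j α Ψ| < ε := by
  have hA : ∀ i, Adm (TTn μ (w i) (m i)) := fun i => (hw i).TTn (m i)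
  have t := Cn_tendsto (μ := μ) (fun i => (hA i).nrm (μ := μ)) hF h
    (fun i => Pool.Agent.N681.MK.cont_evo (hw i) hO (m i)) hΨ h' α
  rw [Metric.tendsto_atTop] at t
  obtain ⟨N, hN⟩ := t ε hε
  filter_upwards [eventually_ge_atTop N] with i hi p
  have h1 := hN i hi
  rw [Real.dist_eq, Cn_nrm (hA i)] at h1
  rw [Cn_evo (hw i) hα p hO hc]
  exact h1

end

end Pool.Agent.N109.T3
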