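import Mathlib
import Pool.Agent.N109.T3.Lim
import Pool.Agent.N989.MK.Main

/-!
# The renormalised field of a limit theory
-/

open MeasureTheory Pool.Agent.N991.MK Pool.Agent.N989.MK Filter
open Pool.Agent.N681.MK (evo evo_add evo_zero evo_congr_nrm evo_nrm cont_evo)
open scoped Topology

namespace Pool.Agent.N109.T3

set_option linter.unusedSectionVars false

noncomputable section

variable {G : Type*} [Group G] [TopologicalSpace G] [IsTopologicalGroup G] [CompactSpace G]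
  [MeasurableSpace G] [BorelSpace G] [SecondCountableTopology G]
  {μ : Measure G} [IsProbabilityMeasure μ] [μ.IsHaarMeasure] [μ.IsMulRightInvariant]
  [μ.IsInvInvariant]

/-- the conditional expectation of a plaquette given the boundary -/
theorem CE_eq {Z : G → ℝ} (hZ : Adm Z) {O : G → ℝ} (hO : Continuous O) (hc : Cls O) (j : ℕ)
    (p : Pq j) (V : BE j → G) :
    CE μ Z j V (fun U => O (hol U p)) = PP μ Z O j (lp V) := by
  classical
  have h1 : Zbw μ (fun q x => Z x * ins1 p O q x) V =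
      ZZ μ j (fun q x => Z x * ins1 p O q x) (lp V) := by
    refine Zbw_eq j (fun q => ?_) (fun q => ?_) V
    · refine hZ.cont.mul ?_
      unfold ins1
      by_cases h : q = p
      · simpa [h] using hO
      · simpa [h] using continuous_const
    · intro g x
      beta_reduce
      rw [hZ.cls]
      congr 1
      unfold ins1
      rw [hc g x]
  have h2 := WF_ins1 (μ := μ) hZ hO hc j p
  unfold WF at h2
  rw [h2] at h1
  unfold CE
  rw [Zb_TTn hZ]
  have h3 : ∫ I : IE j → G, O (hol (Sum.elim V I : Ed j → G) p) *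
      wt Z (Sum.elim V I : Ed j → G) ∂(Measure.pi fun _ => μ) =
      Zbw μ (fun q x => Z x * ins1 p O q x) V := by
    unfold Zbw
    refine integral_congr_ae (Eventually.of_forall fun I => ?_)
    beta_reduce
    unfold wtt wt
    rw [Finset.prod_mul_distrib, prod_ins1, mul_comm]
  rw [h3, h1]
  have hp := ((hZ.TTn (μ := μ) j).pos (lp V)).ne'
  field_simp

variable {Fk φ : ℤ → G → ℝ}

/-- a limit theory with its renormalised field -/
structure FT (μ : Measure G) (Fk φ : ℤ → G → ℝ) : Prop where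
  adm : ∀ k, Adm (Fk k)
  int : ∀ k, ∫ x, Fk k x ∂μ = 1
  rcs : ∀ k, Fk (k + 1) = nrm μ (TT μ (Fk k))
  cont : ∀ k, Continuous (φ k)
  cls : ∀ k, Cls (φ k)
  one : ∀ k, φ k 1 = 0
  step : ∀ k, φ (k + 1) = evo μ (Fk k) (φ k) 1

lemma FT.iterF (h : FT μ Fk φ) (k : ℤ) (j : ℕ) : nrm μ (TTn μ (Fk k) j) = Fk (k + j) :=
  traj_iter h.adm h.rcs h.int k j

lemma FT.nrmF (h : FT μ Fk φ) (k : ℤ) : nrm μ (Fk k) = Fk k := by
  have h1 := h.iterF k 0
  rw [Nat.cast_zero, add_zero] at h1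
  exact h1

lemma FT.iter (h : FT μ Fk φ) (k : ℤ) : ∀ j : ℕ, evo μ (Fk k) (φ k) j = φ (k + j)
  | 0 => by
    rw [evo_zero (h.adm k), h.one k]
    funext x
    simp
  | j + 1 => by
    rw [evo_add (h.adm k) (h.cont k) j 1, h.iter k j,
      evo_congr_nrm (μ := μ) ((h.adm k).TTn j) (h.adm (k + j))
        (by rw [h.iterF k j, h.nrmF]) (φ (k + j)) 1, ← h.step]
    congr 1
    push_cast
    ring

/-- the field at the larger cutoff is the conditional expectation -/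
theorem FT.ce (h : FT μ Fk φ) (k : ℤ) (j : ℕ) : ∃ c : ℝ, ∀ (p : Pq j) (V : BE j → G),
    16 ^ j * CE μ (Fk k) j V (fun U => φ k (hol U p)) = φ (k + j) (lp V) + c := by
  refine ⟨16 ^ j * PP μ (Fk k) (φ k) j 1, fun p V => ?_⟩
  rw [CE_eq (h.adm k) (h.cont k) (h.cls k), ← h.iter k j,
    evo_eq (h.adm k) (h.cont k) (h.cls k)]
  beta_reduce
  ring

/-- the change of the cutoff -/
theorem FT.cn (h : FT μ Fk φ) (k : ℤ) {m j r : ℕ} {α : Fin r → Pq j}
    (hα : Function.Injective α) (p : Fin r → Pq m) :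
    (16 : ℝ) ^ (r * m) * Cn μ (Fk k) (m + j) (fun a => jn (α a) (p a)) (φ k) =
      Cn μ (Fk (k + m)) j α (φ (k + m)) := by
  rw [Cn_evo (h.adm k) hα p (h.cont k) (h.cls k), ← Cn_nrm ((h.adm k).TTn m), h.iterF k m,
    h.iter k m]

lemma inj2 {j : ℕ} {α β : Pq j} (h : α ≠ β) : Function.Injective ![α, β] := by
  intro a b hab
  fin_cases a <;> fin_cases b
  · rfl
  · exact absurd hab h
  · exact absurd hab.symm h
  · rfl

theorem FT.cv (h : FT μ Fk φ) (k : ℤ) {m j : ℕ} {α β : Pq j} (hαβ : α ≠ β) (p q : Pq m) :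
    (16 : ℝ) ^ (2 * m) * Cv μ (Fk k) (m + j) (jn α p) (jn β q) (φ k) (φ k) =
      Cv μ (Fk (k + m)) j α β (φ (k + m)) (φ (k + m)) := by
  rw [Cv_eq (h.adm k) _ _ (h.cont k), Cv_eq (h.adm _) _ _ (h.cont _), ← h.cn k (inj2 hαβ) ![p, q]]
  congr 2
  funext a
  fin_cases a <;> rfl

lemma anc_le : ∀ {j : ℕ} (p q : Pq j), anc j p q ≤ j
  | 0, _, _ => le_rfl
  | j + 1, (s, r, p), (s', r', q) => by
    change (if s = s' ∧ r = r' then anc j p q else j + 1) ≤ j + 1
    split_ifs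
    · exact (anc_le p q).trans (Nat.le_succ j)
    · exact le_rfl

lemma anc_self : ∀ {j : ℕ} (p : Pq j), anc j p p = 0
  | 0, _ => rfl
  | j + 1, (s, r, p) => by
    change (if s = s ∧ r = r then anc j p p else j + 1) = 0
    simp [anc_self p]

lemma anc_jn_same {k : ℕ} : ∀ {j : ℕ} (α : Pq j) (p q : Pq k),
    anc (k + j) (jn α p) (jn α q) = anc k p q
  | 0, _, _, _ => rfl
  | j + 1, (s, r, α), p, q => by
    change (if s = s ∧ r = r then anc (k + j) (jn α p) (jn α q) else k + j + 1) = _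
    simp [anc_jn_same α p q]

/-- exponential clustering of the field, with the same rate at all cutoffs -/
theorem FT.gap (h : FT μ Fk φ) {C c : ℝ} (hc : 0 < c)
    (hg : ∀ (i : ℕ) (p q : Pq i) (f g : G → ℝ), p ≠ q → Continuous f → Cls f →
      (∀ x, |f x| ≤ 1) → Continuous g → Cls g → (∀ x, |g x| ≤ 1) →
      |Cv μ (Fk 0) i p q f g| ≤ C * Real.exp (-(c * (4 : ℝ) ^ ((0 : ℤ) + anc i p q)))) :
    ∃ C c : ℝ, 0 < c ∧ ∀ (k : ℤ) (j : ℕ) (p q : Pq j), k ≤ 0 → 1 ≤ k + anc j p q →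
      |(16 : ℝ) ^ (-2 * k) * Cv μ (Fk k) j p q (φ k) (φ k)| ≤
        C * Real.exp (-(c * (4 : ℝ) ^ (k + anc j p q))) := by
  obtain ⟨B, hB1, hB⟩ := exists_bd (h.cont 0)
  have hB0 : 0 < B := by linarith
  refine ⟨B ^ 2 * C, c, hc, fun k j p q hk hkj => ?_⟩
  obtain ⟨m, rfl⟩ : ∃ m : ℕ, k = -m := ⟨k.natAbs, by omega⟩
  have h1 := anc_le p q
  obtain ⟨j', rfl⟩ : ∃ j', j = m + j' := ⟨j - m, by omega⟩
  obtain ⟨α, p', rfl⟩ := jn_surj p
  obtain ⟨β, q', rfl⟩ := jn_surj q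
  have hne : α ≠ β := by
    rintro rfl
    have h2 := anc_le p' q'
    rw [anc_jn_same] at hkj
    omega
  rw [anc_jn p' q' hne] at hkj ⊢
  have h2 := h.cv (-m) hne p' q'
  have e1 : (-(m : ℤ)) + m = 0 := by ring
  rw [e1] at h2
  have e2 : (16 : ℝ) ^ (-2 * (-(m : ℤ))) = 16 ^ (2 * m) := by
    rw [show -2 * (-(m : ℤ)) = ((2 * m : ℕ) : ℤ) by push_cast; ring, zpow_natCast]
  rw [e2, h2]
  have h3 := hg j' α β (fun x => B⁻¹ * φ 0 x) (fun x => B⁻¹ * φ 0 x) hne
    (continuous_const.mul (h.cont 0)) (fun g x => by beta_reduce; rw [h.cls 0])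
    (fun x => by
      rw [abs_mul, abs_of_pos (inv_pos.2 hB0), inv_mul_le_iff₀ hB0]
      have := hB x
      linarith)
    (continuous_const.mul (h.cont 0)) (fun g x => by beta_reduce; rw [h.cls 0])
    (fun x => by
      rw [abs_mul, abs_of_pos (inv_pos.2 hB0), inv_mul_le_iff₀ hB0]
      have := hB x
      linarith)
  have h4 : Cv μ (Fk 0) j' α β (fun x => B⁻¹ * φ 0 x) (fun x => B⁻¹ * φ 0 x) =
      (B⁻¹) ^ 2 * Cv μ (Fk 0) j' α β (φ 0) (φ 0) := by
    have e : (fun x => B⁻¹ * φ 0 x) = fun x => B⁻¹ * φ 0 x + 0 := by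
      funext x
      ring
    have hcc : Continuous fun x => B⁻¹ * φ 0 x := continuous_const.mul (h.cont 0)
    rw [Cv_eq (h.adm 0) _ _ hcc, Cv_eq (h.adm 0) _ _ (h.cont 0), e,
      Cn_affine (h.adm 0) _ (h.cont 0)]
  rw [h4, abs_mul, abs_of_pos (by positivity : 0 < (B⁻¹) ^ 2), inv_pow,
    inv_mul_le_iff₀ (by positivity)] at h3
  refine h3.trans (le_of_eq ?_)
  have e3 : (0 : ℤ) + (anc j' α β : ℤ) = -(m : ℤ) + ((m + anc j' α β : ℕ) : ℤ) := by
    push_cast
    ring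
  rw [e3]
  ring

end

end Pool.Agent.N109.T3
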