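import Mathlib
import Pool.Agent.N109.T3.Near
import Pool.Agent.N109.T3.RF
import Pool.Agent.N839.T3.ShortV
import Pool.Agent.N453.MK.Traj4
import Pool.Agent.N681.MK.Tan6
import Pool.Agent.N989.MK.Setup
import Pool.Agent.N989.MK.Main2
import Pool.Agent.N991.MK.Iso

/-!
# The renormalised field of the continuum limit: assembly
-/

open MeasureTheory Matrix Filter Pool.Agent.N991.MK Pool.Agent.N988.MK Pool.Agent.N989.MK
open scoped Matrix.Norms.Frobenius Topology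
open Pool.Agent.H906R3.YM Pool.Agent.W793.YM Pool.Agent.TH618.YM Pool.Agent.N984.TW
open Pool.Agent.N681.MK (evo dTn fld TanFlow TP_weaken CS lim_cs)
open Pool.Agent.N839.T3 (LT IsCov cv_nonneg)

namespace Pool.Agent.N109.T3

set_option linter.unusedSectionVars false

noncomputable section

variable {N n : ℕ} {G : Subgroup (UN N)}
variable [MeasurableSpace G] [BorelSpace G] {μ : Measure G} [IsProbabilityMeasure μ]
  [μ.IsHaarMeasure]

section

variable [CompactSpace G] [SecondCountableTopology G] [μ.IsMulRightInvariant]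
  [μ.IsInvInvariant] {X : Fin n → Matrix (Fin N) (Fin N) ℂ} {P : Matrix (Fin N) (Fin N) ℂ}
  {cA u : ℝ} {F : ℤ → G → ℝ}

lemma lt_adm (h : LimitTheory μ X P cA u F) (k : ℤ) : Adm (F k) :=
  ⟨h.cont k, h.pos k, fun g x => h.cls k g x, fun x => h.sym k x⟩

lemma lt_rcs (h : LimitTheory μ X P cA u F) (k : ℤ) : F (k + 1) = nrm μ (TT μ (F k)) := by
  funext x
  obtain ⟨V, rfl⟩ := lp_surj 1 x
  have h1 := h.consistent k 1 V
  rw [Zb_TTn (lt_adm h k), Zt_TTn (lt_adm h k)] at h1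
  have e : TTn μ (F k) 1 = TT μ (F k) := rfl
  rw [e] at h1
  have e2 : F (k + 1) = F (k + (1 : ℕ)) := by norm_num
  rw [e2, ← h1]
  unfold nrm
  rw [inv_mul_eq_div]

lemma lt_WW (h : LimitTheory μ X P cA u F) (k : ℤ) :
    WW μ (chiP P) (F k) = ∫ x, chr P x * F k x ∂μ := by
  unfold WW
  rw [h.int_one k, div_one]
  refine integral_congr_ae (Eventually.of_forall fun x => ?_)
  exact mul_comm _ _

lemma lt_W1 (hcA : 0 < cA) (h : LimitTheory μ X P cA u F) :
    Tendsto (fun j : ℕ => WW μ (chiP P) (F (-j))) atTop (𝓝 1) := by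
  obtain ⟨C, hC⟩ := h.free
  obtain ⟨A, hA⟩ : ∃ A, A = 4 * ((∑ a, (trace ((P * X a)ᴴ * (P * X a))).re) / (trace P).re) / cA :=
    ⟨_, rfl⟩
  have key : ∀ j : ℕ, 1 ≤ j → |WW μ (chiP P) (F (-j)) - 1| ≤ (|A| + 2 * |C|) * (1 / j) := by
    intro j hj
    have hj0 : (0 : ℝ) < j := by exact_mod_cast hj
    have hj1 : (1 : ℝ) ≤ j := by exact_mod_cast hj
    have h1 := hC j hj
    rw [← lt_WW h] at h1
    have e1 : 4 * ((∑ a, (trace ((P * X a)ᴴ * (P * X a))).re) / (trace P).re) / (cA * j) =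
        A * (1 / j) := by
      rw [hA]
      field_simp
    rw [e1] at h1
    have h2 : C * (1 + Real.log j) / j ^ 2 ≤ 2 * |C| * (1 / j) := by
      have h3 : Real.log j ≤ j := (Real.log_le_sub_one_of_pos hj0).trans (by linarith)
      have h4 : 0 ≤ Real.log j := Real.log_nonneg hj1
      rw [mul_one_div, div_le_div_iff₀ (by positivity) hj0]
      have h5 : C * (1 + Real.log j) ≤ |C| * (2 * j) :=
        mul_le_mul (le_abs_self C) (by linarith) (by linarith) (abs_nonneg C)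
      calc C * (1 + Real.log j) * j ≤ |C| * (2 * j) * j := mul_le_mul_of_nonneg_right h5 hj0.le
        _ = _ := by ring
    have h3 : WW μ (chiP P) (F (-j)) - 1 = -(1 - WW μ (chiP P) (F (-j)) - A * (1 / j)) -
        A * (1 / j) := by ring
    rw [h3]
    refine (abs_sub _ _).trans ?_
    rw [abs_neg, abs_mul, abs_of_pos (by positivity : (0 : ℝ) < 1 / j)]
    linarith
  rw [tendsto_iff_norm_sub_tendsto_zero]
  refine squeeze_zero' (Eventually.of_forall fun j => norm_nonneg _)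
    (g := fun j : ℕ => (|A| + 2 * |C|) * (1 / (j : ℝ))) ?_ ?_
  · filter_upwards [eventually_ge_atTop 1] with j hj
    exact key j hj
  · have := tendsto_one_div_atTop_nhds_zero_nat.const_mul (|A| + 2 * |C|)
    simpa using this

end

/-- the constant of the adjoint representation, for all vectors of the Lie algebra -/
lemma casimir_full (μ : Measure G) [IsProbabilityMeasure μ] [μ.IsHaarMeasure]
    (hG : SimpleGroup G) (B : Frame G n) {P : Matrix (Fin N) (Fin N) ℂ}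
    (hP : Constituent G P) {cA : ℝ}
    (h2 : ∀ c, ∑ a, (trace ((B.X c * B.X a - B.X a * B.X c)ᴴ *
      (B.X c * B.X a - B.X a * B.X c))).re = cA) :
    ∀ x : Fin n → ℝ, ∑ a, ‖LX B x * B.X a - B.X a * LX B x‖ ^ 2 = cA * ∑ a, x a ^ 2 := by
  have hGc : IsClosed (G : Set (UN N)) := hG.closed
  have : CompactSpace G := isCompact_iff_compactSpace.1 hGc.isCompact
  have : ConnectedSpace G := isConnected_iff_connectedSpace.1 hG.connected
  have := haar_right μ
  have := haar_inv μ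
  have hn : 0 < n := frame_pos B hGc hG.nonabelian
  obtain ⟨cA', hcA', hcas⟩ := exists_cA B hGc hG.nonabelian hG.simple
  have e : cA' = cA := by
    have h3 := hcas (Pi.single ⟨0, hn⟩ 1)
    have e1 : LX B (Pi.single ⟨0, hn⟩ (1 : ℝ)) = B.X ⟨0, hn⟩ := LX_single B _
    rw [e1] at h3
    have e2 : ∑ a, (Pi.single ⟨0, hn⟩ (1 : ℝ) : Fin n → ℝ) a ^ 2 = 1 := by
      rw [Finset.sum_eq_single ⟨0, hn⟩]
      · simp
      · intro b _ hb
        simp [hb]
      · intro h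
        exact absurd (Finset.mem_univ _) h
    rw [e2, mul_one] at h3
    rw [← h3, ← h2 ⟨0, hn⟩]
    refine Finset.sum_congr rfl fun a _ => ?_
    rw [sq_ip]
  rw [← e]
  exact hcas

section

variable [CompactSpace G] [ConnectedSpace G] [SecondCountableTopology G] [μ.IsMulRightInvariant]
  [μ.IsInvInvariant]

/-- **the renormalised field of a limit theory** -/
theorem ren_field (hG : SimpleGroup G) (B : Frame G n) {P : Matrix (Fin N) (Fin N) ℂ}
    (hP : Constituent G P) {cA : ℝ} (hcA0 : 0 < cA)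
    (hcA : ∀ x : Fin n → ℝ, ∑ a, ‖LX B x * B.X a - B.X a * LX B x‖ ^ 2 = cA * ∑ a, x a ^ 2)
    {u : ℝ} {F : ℤ → G → ℝ} (hL : LimitTheory μ B.X P cA u F) {S : G → ℝ} {β : ℕ → ℝ}
    {l : ℕ → ℕ} (ha : Appr μ F S β l) :
    ∃ φ : ℤ → G → ℝ, RenField μ B.X cA F φ ∧
      ∀ k : ℤ, UT (fun m : ℕ => evo μ (F (-m)) (fun g : G => (trace (mx g)).re)
        ((m : ℤ) + k).toNat) (φ k) := by
  have hF : ∀ k, Adm (F k) := lt_adm hL
  have hFs := lt_rcs hL
  have hW1 := lt_W1 hcA0 hL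
  have hW : ∀ k, WW μ (chiP P) (F k) < 1 := fun k => by
    rw [lt_WW hL]
    exact (hL.wilson k).2
  obtain ⟨m, hg⟩ := exists_gen B hG.closed hG.connected
  have hI : IrC G P := ⟨⟨hP.herm, hP.idem, hP.comm⟩, hP.ne, hP.irr, hP.nontriv⟩
  have ho : Obs μ (chiP P : G → ℝ) := obs_chiP hI
  have hIs : IsoG B := isoG_of_simple B hG.closed hG.nonabelian hG.simple
  have hn : 0 < n := frame_pos B hG.closed hG.nonabelian
  obtain ⟨ra, hra, hEx⟩ := Pool.Agent.N453.MK.exact_lattice B μ hG.closed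
  obtain ⟨rb, εb, hrb, hεb, hεb1, hVar⟩ := Pool.Agent.N453.MK.var_lattice (B := B) (cA := cA) μ
    hG.closed hIs hn fun x => by rw [hcA x, Pool.Agent.N991.MK.nE_sq]
  obtain ⟨κS, r, ε, h1, K, h0, C, A, R, K', hκS, hr, hr3, -, hε, hε3, hK', hgr, hadm, hsc, hbw,
    Fl, hT⟩ := setup_S μ hG B hP hcA0 hcA ha.bare (lt_min hra hrb) hεb
  have hadm' : ∀ β, Adm (bw S β) := fun β => by rw [hbw]; exact hadm _
  have hconv := appr_ut (μ := μ) hadm' ha.conv
  have hex := hex_of Fl ho hadm hK' hsc hg (β := fun i => κS * β i)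
    (fun i => mul_pos hκS (ha.pos i)) ha.len hF (fun k => by
      simpa only [← hbw] using hconv k) hW1 hW
  simp only [← hbw] at hex
  obtain ⟨hc0, h2, C2, -, T0⟩ := hT _ 1 cp_tr (curv_tr B hG.closed)
  obtain ⟨Φ, a1, a2, a3, a4, a5⟩ := T0.conv Fl.c_pos Fl.C_nn Fl.R_nn hc0 (fun i => hadm' (β i))
    ha.len hF hFs hconv hex
  have hCS : ∀ k, CS (Φ k) := lim_cs ⟨cls_obs cp_tr, sy_obs cp_tr⟩ (fun i => hadm' (β i)) a3
  have ft : FT μ F Φ := ⟨hF, hL.int_one, hFs, a1, fun k => (hCS k).1, a2, a5⟩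
  have hlt : LT μ (fun i => bw S (β i)) l (fun g : G => (trace (mx g)).re) F Φ :=
    ⟨ft, fun i => hadm' (β i), ha.len, hc0, cls_obs cp_tr, sy_obs cp_tr, hconv, a3⟩
  refine ⟨Φ, ⟨a1, fun k g x => (hCS k).1 g x, fun k x => (hCS k).2 x, a2, fun k j => ft.ce k j,
    fun k m j r α hα p => ft.cn k hα p, ?_, ?_, ?_, ?_, ?_⟩, a4⟩
  · exact near_mat B hG.closed hr T0 Fl.c_pos Fl.C_nn Fl.R_nn ha.len hex a3
  · obtain ⟨m0, cv, Cv, hcv, hb⟩ := hVar r hr (hr3.trans (min_le_right _ _)) hgr hε3 one_pos hc0 T0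
      Fl.c_pos Fl.C_nn Fl.R_nn (fun i => hadm' (β i)) ha.len hex
      (Pool.Agent.N453.MK.soft_of_conv (fun i => hadm' (β i)) hF hconv)
    exact ⟨m0, cv, Cv, hcv, Pool.Agent.N839.T3.short_of_vr hlt fun m hm d =>
      (hb m hm).mono fun i hi => hi d⟩
  · have hb := hEx r hr (hr3.trans (min_le_left _ _)) hgr (hε3.trans hεb1) one_pos hc0 T0 Fl.c_pos
      Fl.C_nn Fl.R_nn (fun i => hadm' (β i)) ha.len hex
    refine Pool.Agent.N839.T3.exact_of_vr hlt fun e he => ?_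
    obtain ⟨m0, hm0⟩ := hb e he
    refine ⟨m0, fun m hm => (hm0 m hm).mono fun i hi => ?_⟩
    have e1 : (n : ℝ) / 2 * (1 / (cA / 8)) ^ 2 = n / 2 * (8 / cA) ^ 2 := by
      rw [one_div_div]
    rw [e1] at hi
    exact hi
  · exact Pool.Agent.N839.T3.pos_of_vr ft fun k => (hCS k).2
  · obtain ⟨Cg, cg, hcg, hgap⟩ := hL.gap
    exact ft.gap hcg fun i p q f g hpq hf hfc hf1 hg hgc hg1 =>
      hgap 0 i p q f g hpq hf hfc hf1 hg hgc hg1

end

/-- **Main theorem** -/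
theorem gluon_main (hG : SimpleGroup G) {X : Fin n → Matrix (Fin N) (Fin N) ℂ}
    (hX : LieBasis G X) {P : Matrix (Fin N) (Fin N) ℂ} (hP : Constituent G P) :
    ∃ cA : ℝ, 0 < cA ∧
      (∀ c, ∑ a, (trace ((X c * X a - X a * X c)ᴴ * (X c * X a - X a * X c))).re = cA) ∧
      (∀ u : ℝ, 0 < u → u < 1 → ∃ F : ℤ → G → ℝ, LimitTheory μ X P cA u F ∧
        ∃ (β : ℕ → ℝ) (l : ℕ → ℕ), Appr μ F (fun g => (trace (mx g)).re) β l) ∧
      ∀ (u : ℝ) (F : ℤ → G → ℝ), LimitTheory μ X P cA u F →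
        (∃ (S : G → ℝ) (β : ℕ → ℝ) (l : ℕ → ℕ), Appr μ F S β l) →
        ∃ φ : ℤ → G → ℝ, RenField μ X cA F φ ∧
          ∀ (S : G → ℝ) (β : ℕ → ℝ) (l : ℕ → ℕ), Appr μ F S β l →
            ∀ (O : G → ℝ) (κ : ℝ), ClassPoly G O → Curv X O κ →
              ∀ (k : ℤ) (j r : ℕ) (α : Fin r → Pq j), Function.Injective α → ∀ ε : ℝ, 0 < ε →
                ∀ᶠ i in atTop, ∀ p : Fin r → Pq ((l i : ℤ) + k).toNat,
                  |(16 : ℝ) ^ (r * ((l i : ℤ) + k).toNat) *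
                      Cn μ (bw S (β i)) (((l i : ℤ) + k).toNat + j) (fun a => jn (α a) (p a)) O -
                    κ ^ r * Cn μ (F k) j α (φ k)| < ε := by
  have hGc : IsClosed (G : Set (UN N)) := hG.closed
  have : CompactSpace G := isCompact_iff_compactSpace.1 hGc.isCompact
  have : ConnectedSpace G := isConnected_iff_connectedSpace.1 hG.connected
  have := haar_right μ
  have := haar_inv μ
  obtain ⟨B, rfl⟩ := exists_frame_of X hX.mem hX.orth hX.full
  obtain ⟨cA, hcA, h2, -, -, u₀, -, hmain⟩ := hier_main (μ := μ) hG hX hP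
  have hcas := casimir_full μ hG B hP h2
  refine ⟨cA, hcA, h2, fun u hu hu1 => ?_, fun u F hL ha => ?_⟩
  · obtain ⟨F, hL, ⟨β, φ, hβ, -, hmono, hconv⟩, -⟩ := hmain u hu hu1
    exact ⟨F, hL, fun i => β (φ i), φ, bare_tr, fun i => (hβ _).1, hmono.tendsto_atTop, hconv⟩
  obtain ⟨S₀, β₀, l₀, ha⟩ := ha
  obtain ⟨Φ, hR, hΦ⟩ := ren_field hG B hP hcA hcas hL ha
  refine ⟨Φ, hR, fun S β l hS O κ hO hκ k j r α hα ε hε => ?_⟩
  have hF : ∀ k, Adm (F k) := lt_adm hL
  obtain ⟨b1, b2, b3, b4⟩ := model_op hG B hP hcA hcas hF (lt_rcs hL) (lt_W1 hcA hL)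
    (fun k => by rw [lt_WW hL]; exact (hL.wilson k).2) hΦ hS hO hκ
  have hc5 : Continuous fun x => κ * Φ k x := continuous_const.mul (hR.cont k)
  have h5 := corr_conv (μ := μ) (fun i => b1 (β i)) (hF k) (b3 k) b2 (cls_obs hO) hc5 (b4 k) hα hε
  have h6 : Cn μ (F k) j α (fun x => κ * Φ k x) = κ ^ r * Cn μ (F k) j α (Φ k) := by
    have e : (fun x => κ * Φ k x) = fun x => κ * Φ k x + 0 := by
      funext x
      ring
    rw [e, Cn_affine (hF k) _ (hR.cont k)]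
  rw [h6] at h5
  exact h5

end

end Pool.Agent.N109.T3
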