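import Mathlib
import Pool.Agent.N109.T3.Defs3

/-!
# The renormalised field: the properties without the operator product expansion
-/

open MeasureTheory Matrix Filter
open scoped Topology
open Pool.Agent.N989.MK

namespace Pool.Agent.N109.T3

noncomputable section

variable {N n : ℕ} {G : Subgroup (unitaryGroup (Fin N) ℂ)} [MeasurableSpace G]

/-- The properties of the renormalised field `φ` of the limit theory `F`: `φ k` is the field of a
plaquette with side `2 ^ k` in the theory with the cutoff `2 ^ k`, multiplied by the fourth power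
of the cutoff. -/
structure GluonField0 (μ : Measure G) (X : Fin n → Matrix (Fin N) (Fin N) ℂ) (cA : ℝ)
    (F φ : ℤ → G → ℝ) : Prop where
  cont : ∀ k, Continuous (φ k)
  cls : ∀ k g x, φ k (g * x * g⁻¹) = φ k x
  sym : ∀ k x, φ k x⁻¹ = φ k x
  one : ∀ k, φ k 1 = 0
  /-- The field at the cutoff `2 ^ (k + j)` is the field at the cutoff `2 ^ k`, averaged with the
  given values of the gauge field on the boundary of the square with the side `2 ^ (k + j)`,
  rescaled with the dimension four and renormalised by the subtraction of a constant. -/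
  step : ∀ (k : ℤ) (j : ℕ), ∃ c : ℝ, ∀ (p : Pq j) (V : BE j → G),
    16 ^ j * CE μ (F k) j V (fun U => φ k (hol U p)) = φ (k + j) (lp V) + c
  /-- The correlation functions of distinct plaquettes do not depend on the cutoff. -/
  cutoff : ∀ (k : ℤ) (m j r : ℕ) (α : Fin r → Pq j), Function.Injective α →
    ∀ p : Fin r → Pq m,
      (16 : ℝ) ^ (r * m) * Cn μ (F k) (m + j) (fun a => jn (α a) (p a)) (φ k) =
        Cn μ (F (k + m)) j α (φ (k + m))
  /-- Small plaquettes: up to corrections of the relative order `1 / j` at the cutoff `2 ^ (-j)`,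
  the field is minus one half of the square of the curvature. -/
  near : ∃ (j0 : ℕ) (C r : ℝ), 0 < r ∧ ∀ j : ℕ, j0 ≤ j → ∃ a : ℝ, |a - 1| ≤ C / j ∧
    ∀ (y : Fin n → ℝ) (g : G), (∑ b, y b ^ 2) ≤ r ^ 2 → mx g = NormedSpace.exp (∑ b, y b • X b) →
      |φ (-j) g + a / 2 * ∑ b, y b ^ 2| ≤ C / j * (∑ b, y b ^ 2) ^ 2
  /-- Short distances: the correlation functions of the plaquettes with side `2 ^ (-m)` of a square
  with side `2 ^ (j - m)`, multiplied by `m ^ r`, converge to those of the free theory, uniformly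
  in the volume. -/
  free : ∀ (j r : ℕ) (α : Fin r → Pq j), Function.Injective α → ∀ ε : ℝ, 0 < ε → ∃ m0 : ℕ,
    ∀ (m d : ℕ) (β : Pq d), m0 ≤ m →
      |(m : ℝ) ^ r * Cn μ (F (-m)) (j + d) (fun a => jn β (α a)) (φ (-m)) -
        (8 / cA) ^ r * CG n (fun a => jn β (α a))| ≤ ε
  /-- The two-point function at short distances, uniformly in the volume and the positions. -/
  two : ∀ ε : ℝ, 0 < ε → ∃ m0 : ℕ, ∀ (k : ℤ) (j : ℕ) (p q : Pq j), p ≠ q →
    k + anc j p q ≤ -m0 →
      |16 ^ (2 * anc j p q) * (k + anc j p q : ℝ) ^ 2 * Cv μ (F k) j p q (φ k) (φ k) -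
        n / 2 * (8 / cA * kap p q) ^ 2| ≤ ε
  /-- Positivity. -/
  pos : ∀ (k : ℤ) (j : ℕ) (p q : Pq j), Sep p q → 0 ≤ Cv μ (F k) j p q (φ k) (φ k)
  /-- Large distances: exponential clustering, with the same rate at all cutoffs. -/
  gap : ∃ C c : ℝ, 0 < c ∧ ∀ (k : ℤ) (j : ℕ) (p q : Pq j), k ≤ 0 → 1 ≤ k + anc j p q →
    |(16 : ℝ) ^ (-2 * k) * Cv μ (F k) j p q (φ k) (φ k)| ≤
      C * Real.exp (-(c * (4 : ℝ) ^ (k + anc j p q)))
  /-- Infinite volume: the correlation functions in the blocks `β` of the squares with side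
  `2 ^ (k + j + d)` converge, exponentially fast in the area, wherever the blocks are. -/
  vol : ∀ (k : ℤ) (j r : ℕ) (α : Fin r → Pq j), ∃ L C c : ℝ, 0 < c ∧ ∀ (d : ℕ) (β : Pq d),
    |Cn μ (F k) (j + d) (fun a => jn β (α a)) (φ k) - L| ≤ C * Real.exp (-(c * 4 ^ d))

end

end Pool.Agent.N109.T3
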