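import Mathlib
import Pool.Agent.N838.T3.CovB

/-!
# The infinite volume limit: averaging

The mean of an observable of a block is averaged over larger and larger squares; the averages
converge, with an error exponentially small in the area.
-/

open MeasureTheory Pool.Agent.N991.MK Pool.Agent.N989.MK Filter
open scoped Topology

namespace Pool.Agent.N109.T3

set_option linter.unusedSectionVars false

noncomputable section

/-! ### Sequences which converge exponentially in the area -/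

/-- convergence with an error exponentially small in the area -/
def RC (x : ℕ → ℝ) : Prop :=
  ∃ L C c : ℝ, 0 < c ∧ ∀ d : ℕ, |x d - L| ≤ C * Real.exp (-(c * 4 ^ d))

lemma RC.norm {x : ℕ → ℝ} (h : RC x) : ∃ L C c : ℝ, 0 < c ∧ 0 ≤ C ∧
    ∀ d : ℕ, |x d - L| ≤ C * Real.exp (-(c * 4 ^ d)) := by
  obtain ⟨L, C, c, hc, h⟩ := h
  have h0 := (abs_nonneg _).trans (h 0)
  exact ⟨L, C, c, hc, nonneg_of_mul_nonneg_left h0 (Real.exp_pos _), h⟩

lemma RC.const (a : ℝ) : RC fun _ => a := ⟨a, 0, 1, one_pos, fun d => by simp⟩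

lemma exp_mono4 {c c' : ℝ} (h : c ≤ c') (d : ℕ) :
    Real.exp (-(c' * 4 ^ d)) ≤ Real.exp (-(c * 4 ^ d)) :=
  Real.exp_le_exp.2 (neg_le_neg (mul_le_mul_of_nonneg_right h (by positivity)))

lemma RC.add {x y : ℕ → ℝ} (hx : RC x) (hy : RC y) : RC fun d => x d + y d := by
  obtain ⟨L, C, c, hc, hC, h⟩ := hx.norm
  obtain ⟨L', C', c', hc', hC', h'⟩ := hy.norm
  refine ⟨L + L', C + C', min c c', lt_min hc hc', fun d => ?_⟩
  have e1 := mul_le_mul_of_nonneg_left (exp_mono4 (min_le_left c c') d) hC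
  have e2 := mul_le_mul_of_nonneg_left (exp_mono4 (min_le_right c c') d) hC'
  have e3 := h d
  have e4 := h' d
  calc |x d + y d - (L + L')| = |(x d - L) + (y d - L')| := by congr 1; ring
    _ ≤ |x d - L| + |y d - L'| := abs_add_le _ _
    _ ≤ _ := by rw [add_mul]; linarith

lemma RC.mul {x y : ℕ → ℝ} (hx : RC x) (hy : RC y) : RC fun d => x d * y d := by
  obtain ⟨L, C, c, hc, hC, h⟩ := hx.norm
  obtain ⟨L', C', c', hc', hC', h'⟩ := hy.norm
  refine ⟨L * L', C * (|L'| + C') + |L| * C', min c c', lt_min hc hc', fun d => ?_⟩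
  have e1 := mul_le_mul_of_nonneg_left (exp_mono4 (min_le_left c c') d) hC
  have e2 := mul_le_mul_of_nonneg_left (exp_mono4 (min_le_right c c') d) hC'
  have e3 := h d
  have e4 := h' d
  have e5 : |y d| ≤ |L'| + C' := by
    have e6 : Real.exp (-(c' * 4 ^ d)) ≤ 1 := Real.exp_le_one_iff.2 (by
      have : 0 ≤ c' * 4 ^ d := by positivity
      linarith)
    have e7 : C' * Real.exp (-(c' * 4 ^ d)) ≤ C' * 1 := mul_le_mul_of_nonneg_left e6 hC'
    have e8 : |y d| ≤ |L'| + |y d - L'| := by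
      have := abs_add_le L' (y d - L')
      rwa [add_sub_cancel] at this
    linarith
  have hE : 0 ≤ Real.exp (-(min c c' * 4 ^ d)) := (Real.exp_pos _).le
  calc |x d * y d - L * L'| = |(x d - L) * y d + L * (y d - L')| := by congr 1; ring
    _ ≤ |x d - L| * |y d| + |L| * |y d - L'| := by
      refine (abs_add_le _ _).trans ?_
      rw [abs_mul, abs_mul]
    _ ≤ (C * Real.exp (-(min c c' * 4 ^ d))) * (|L'| + C') +
        |L| * (C' * Real.exp (-(min c c' * 4 ^ d))) := by
      refine add_le_add (mul_le_mul (e3.trans e1) e5 (abs_nonneg _) (mul_nonneg hC hE))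
        (mul_le_mul_of_nonneg_left (e4.trans e2) (abs_nonneg _))
    _ = _ := by ring

lemma RC.neg {x : ℕ → ℝ} (hx : RC x) : RC fun d => -x d := by
  have := (RC.const (-1)).mul hx
  simpa using this

lemma RC.sum {κ : Type*} (s : Finset κ) {x : κ → ℕ → ℝ} (h : ∀ a ∈ s, RC (x a)) :
    RC fun d => ∑ a ∈ s, x a d := by
  classical
  induction s using Finset.induction_on with
  | empty =>
    simp only [Finset.sum_empty]
    exact RC.const 0
  | insert a s ha ih =>
    simp only [Finset.sum_insert ha]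
    exact (h a (Finset.mem_insert_self a s)).add
      (ih fun b hb => h b (Finset.mem_insert_of_mem hb))

lemma RC.prod {κ : Type*} (s : Finset κ) {x : κ → ℕ → ℝ} (h : ∀ a ∈ s, RC (x a)) :
    RC fun d => ∏ a ∈ s, x a d := by
  classical
  induction s using Finset.induction_on with
  | empty =>
    simp only [Finset.prod_empty]
    exact RC.const 1
  | insert a s ha ih =>
    simp only [Finset.prod_insert ha]
    exact (h a (Finset.mem_insert_self a s)).mul
      (ih fun b hb => h b (Finset.mem_insert_of_mem hb))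

lemma RC.of_shift {x : ℕ → ℝ} (d0 : ℕ) (h : RC fun e => x (d0 + e)) : RC x := by
  obtain ⟨L, C, c, hc, hC, h⟩ := h.norm
  have h4 : (0 : ℝ) < 4 ^ d0 := by positivity
  refine ⟨L, C + ∑ i ∈ Finset.range d0, |x i - L| * Real.exp (c / 4 ^ d0 * 4 ^ i), c / 4 ^ d0,
    by positivity, fun d => ?_⟩
  have hS : 0 ≤ ∑ i ∈ Finset.range d0, |x i - L| * Real.exp (c / 4 ^ d0 * 4 ^ i) :=
    Finset.sum_nonneg fun i _ => mul_nonneg (abs_nonneg _) (Real.exp_pos _).le
  have hE : 0 < Real.exp (-(c / 4 ^ d0 * 4 ^ d)) := Real.exp_pos _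
  rcases Nat.lt_or_ge d d0 with hd | hd
  · have h1 : |x d - L| * Real.exp (c / 4 ^ d0 * 4 ^ d) ≤
        ∑ i ∈ Finset.range d0, |x i - L| * Real.exp (c / 4 ^ d0 * 4 ^ i) :=
      Finset.single_le_sum (f := fun i => |x i - L| * Real.exp (c / 4 ^ d0 * 4 ^ i))
        (fun i _ => mul_nonneg (abs_nonneg _) (Real.exp_pos _).le) (Finset.mem_range.2 hd)
    have h2 : |x d - L| = |x d - L| * Real.exp (c / 4 ^ d0 * 4 ^ d) *
        Real.exp (-(c / 4 ^ d0 * 4 ^ d)) := by
      rw [mul_assoc, ← Real.exp_add, add_neg_cancel, Real.exp_zero, mul_one]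
    rw [h2]
    exact mul_le_mul_of_nonneg_right (h1.trans (le_add_of_nonneg_left hC)) hE.le
  · obtain ⟨e, rfl⟩ := Nat.exists_eq_add_of_le hd
    have h1 := h e
    have e1 : c / 4 ^ d0 * 4 ^ (d0 + e) = c * 4 ^ e := by
      rw [pow_add]
      field_simp
    rw [e1]
    exact h1.trans (mul_le_mul_of_nonneg_right (le_add_of_nonneg_right hS) (Real.exp_pos _).le)

/-- the limit of a sequence with small increments -/
lemma RC.of_incr {x : ℕ → ℝ} {s : ℝ} (hs : 0 ≤ s)
    (h : ∀ e : ℕ, |x (e + 1) - x e| ≤ s * (21 / 100) ^ 4 ^ e * (2 / 9) ^ e) : RC x := by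
  have hq : (0 : ℝ) < 21 / 100 := by norm_num
  have hq1 : (21 / 100 : ℝ) < 1 := by norm_num
  have h1 : ∀ e, (21 / 100 : ℝ) ^ 4 ^ e ≤ 1 := fun e => pow_le_one₀ hq.le hq1.le
  have hd : ∀ n : ℕ, dist (x n) (x (n + 1)) ≤ s * (2 / 9) ^ n := fun n => by
    rw [dist_comm, Real.dist_eq]
    refine (h n).trans (mul_le_mul_of_nonneg_right ?_ (by positivity))
    exact mul_le_of_le_one_right hs (h1 n)
  have hc := cauchySeq_of_le_geometric (2 / 9) s (by norm_num) hd
  obtain ⟨L, hL⟩ := cauchySeq_tendsto_of_complete hc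
  refine ⟨L, s / (1 - 2 / 9), -Real.log (21 / 100), neg_pos.2 (Real.log_neg hq hq1), fun e => ?_⟩
  have hd2 : ∀ n : ℕ, dist (x (e + n)) (x (e + n + 1)) ≤
      s * (21 / 100) ^ 4 ^ e * (2 / 9) ^ n := fun n => by
    rw [dist_comm, Real.dist_eq]
    refine (h (e + n)).trans (mul_le_mul ?_ ?_ (by positivity) (by positivity))
    · refine mul_le_mul_of_nonneg_left (pow_le_pow_of_le_one hq.le hq1.le ?_) hs
      exact Nat.pow_le_pow_right (by norm_num) (Nat.le_add_right e n)
    · exact pow_le_pow_of_le_one (by norm_num) (by norm_num) (Nat.le_add_left n e)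
  have hL2 : Tendsto (fun n => x (e + n)) atTop (𝓝 L) := by
    have := (tendsto_add_atTop_iff_nat (f := x) e).2 hL
    refine this.congr fun n => by rw [add_comm]
  have h3 := dist_le_of_le_geometric_of_tendsto₀ (f := fun n => x (e + n)) (2 / 9)
    (s * (21 / 100) ^ 4 ^ e) (by norm_num) hd2 hL2
  rw [Real.dist_eq, add_zero] at h3
  refine h3.trans (le_of_eq ?_)
  have e1 : -(-Real.log (21 / 100) * 4 ^ e) = Real.log (21 / 100) * ((4 ^ e : ℕ) : ℝ) := by
    push_cast
    ring
  rw [e1, mul_comm (Real.log (21 / 100)), ← Real.log_pow, Real.exp_log (by positivity)]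
  ring

/-! ### One step -/

variable {G : Type*} [Group G] [TopologicalSpace G] [IsTopologicalGroup G] [CompactSpace G]
  [MeasurableSpace G] [BorelSpace G] [SecondCountableTopology G]
  {μ : Measure G} [IsProbabilityMeasure μ] [μ.IsHaarMeasure] [μ.IsMulRightInvariant]
  [μ.IsInvInvariant]

lemma int_shift (g : G → ℝ) (x : G) : ∫ y, g (y⁻¹ * x) ∂μ = ∫ y, g y ∂μ := by
  rw [integral_inv_eq_self (μ := μ) (fun y => g (y * x))]
  exact integral_mul_right_eq_self (μ := μ) g x

/-- the deviation of a convolution from a constant -/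
lemma conv_dev_le {f g : G → ℝ} (hf : Continuous f) (hg : Continuous g) (h0 : ∀ x, 0 ≤ f x)
    {c b : ℝ} (h : ∀ x, |g x - c| ≤ b) (x : G) :
    |conv μ f g x - (∫ y, f y ∂μ) * c| ≤ (∫ y, f y ∂μ) * b := by
  have c2 : Continuous fun y => g (y⁻¹ * x) := by fun_prop
  have i1 : Integrable (fun y => f y * g (y⁻¹ * x)) μ := integrable_of_cont (hf.mul c2)
  have i2 : Integrable (fun y => f y * c) μ := integrable_of_cont (hf.mul continuous_const)
  have i3 : Integrable (fun y => f y * b) μ := integrable_of_cont (hf.mul continuous_const)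
  unfold Pool.Agent.N991.MK.conv
  rw [← integral_mul_const, ← integral_sub i1 i2, ← integral_mul_const]
  refine (abs_integral_le_integral_abs).trans (integral_mono ?_ i3 fun y => ?_)
  · exact (i1.sub i2).abs
  · beta_reduce
    rw [← mul_sub, abs_mul, abs_of_nonneg (h0 y)]
    exact mul_le_mul_of_nonneg_left (h _) (h0 y)

/-- **one step of the averaging** -/
lemma avg_step {f g : G → ℝ} (hf : Adm f) (hg : Continuous g) {a M s : ℝ} (ha0 : 0 ≤ a)
    (ha : a ≤ 1 / 10) (hs : Sm μ a f) (hM : ∫ y, g y ∂μ = M * ∫ y, f y ∂μ)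
    (h : ∀ x, |g x - M * f x| ≤ s * f x) (x : G) :
    |Pool.Agent.N838.T3.lft μ f g x - M * TT μ f x| ≤ 10 / 9 * (a * s) * TT μ f x := by
  set I := ∫ y, f y ∂μ with hI
  have hI0 : 0 < I := hf.ipos
  have hs0 : 0 ≤ s := by
    have h1 := (abs_nonneg _).trans (h 1)
    exact nonneg_of_mul_nonneg_left h1 (hf.pos 1)
  have cff : Continuous (conv μ f f) := cont_conv hf.cont hf.cont
  have c3 : Continuous (conv μ f (conv μ f f)) := cont_conv hf.cont cff
  have d2 : ∀ x, |conv μ f f x - I * I| ≤ I * (a * I) :=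
    conv_dev_le hf.cont hf.cont (fun x => (hf.pos x).le) hs
  have d3 : ∀ x, |conv μ f (conv μ f f) x - I * (I * I)| ≤ I * (I * (a * I)) :=
    conv_dev_le hf.cont cff (fun x => (hf.pos x).le) d2
  have k1 : Pool.Agent.N838.T3.KK μ f f x = H4 μ f x := by
    rw [Pool.Agent.N838.T3.KK_self hf.cont]
  -- the lower bound
  have c2f : Continuous fun y => f (y⁻¹ * x) := by have := hf.cont; fun_prop
  have c2g : Continuous fun y => g (y⁻¹ * x) := by fun_prop
  have lo : (1 - a) * (I * (I * I)) * I ≤ H4 μ f x := by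
    rw [← k1]
    unfold Pool.Agent.N838.T3.KK Pool.Agent.N991.MK.conv
    change _ ≤ ∫ y, conv μ f (conv μ f f) y * f (y⁻¹ * x) ∂μ
    have e1 : (1 - a) * (I * (I * I)) * I = ∫ y, (1 - a) * (I * (I * I)) * f (y⁻¹ * x) ∂μ := by
      rw [integral_const_mul, int_shift]
    rw [e1]
    refine integral_mono (integrable_of_cont (continuous_const.mul c2f))
      (integrable_of_cont (c3.mul c2f)) fun y => ?_
    refine mul_le_mul_of_nonneg_right ?_ (hf.pos _).le
    have h1 := (abs_le.1 (d3 y)).1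
    nlinarith
  -- the difference
  have up : |Pool.Agent.N838.T3.KK μ f g x - M * Pool.Agent.N838.T3.KK μ f f x| ≤
      (a * s) * ((I * (I * I)) * I) := by
    have i1 : Integrable (fun y => conv μ f (conv μ f f) y * g (y⁻¹ * x)) μ :=
      integrable_of_cont (c3.mul c2g)
    have i2 : Integrable (fun y => conv μ f (conv μ f f) y * f (y⁻¹ * x)) μ :=
      integrable_of_cont (c3.mul c2f)
    have i3 : Integrable (fun y => g (y⁻¹ * x)) μ := integrable_of_cont c2g
    have i4 : Integrable (fun y => f (y⁻¹ * x)) μ := integrable_of_cont c2f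
    have e1 : Pool.Agent.N838.T3.KK μ f g x - M * Pool.Agent.N838.T3.KK μ f f x =
        ∫ y, (conv μ f (conv μ f f) y - I * (I * I)) * (g (y⁻¹ * x) - M * f (y⁻¹ * x)) ∂μ := by
      have e2 : ∀ y, (conv μ f (conv μ f f) y - I * (I * I)) *
          (g (y⁻¹ * x) - M * f (y⁻¹ * x)) =
          (conv μ f (conv μ f f) y * g (y⁻¹ * x) -
            M * (conv μ f (conv μ f f) y * f (y⁻¹ * x))) -
          I * (I * I) * (g (y⁻¹ * x) - M * f (y⁻¹ * x)) := fun y => by ring
      have i5 : Integrable (fun y => conv μ f (conv μ f f) y * g (y⁻¹ * x) -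
            M * (conv μ f (conv μ f f) y * f (y⁻¹ * x))) μ := i1.sub (i2.const_mul M)
      have i6 : Integrable (fun y => g (y⁻¹ * x) - M * f (y⁻¹ * x)) μ := i3.sub (i4.const_mul M)
      simp only [e2]
      rw [integral_sub i5 (i6.const_mul _), integral_sub i1 (i2.const_mul M),
        integral_const_mul, integral_const_mul, integral_sub i3 (i4.const_mul M),
        integral_const_mul, int_shift, int_shift, hM, ← hI, sub_self, mul_zero, sub_zero]
      rfl
    rw [e1]
    have h3 : ∀ y, |(conv μ f (conv μ f f) y - I * (I * I)) *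
        (g (y⁻¹ * x) - M * f (y⁻¹ * x))| ≤ I * (I * (a * I)) * s * f (y⁻¹ * x) := by
      intro y
      rw [abs_mul, mul_assoc (I * (I * (a * I)))]
      exact mul_le_mul (d3 y) (h _) (abs_nonneg _) (by positivity)
    refine (abs_integral_le_integral_abs).trans ?_
    have e4 : (a * s) * ((I * (I * I)) * I) =
        ∫ y, I * (I * (a * I)) * s * f (y⁻¹ * x) ∂μ := by
      rw [integral_const_mul, int_shift]
      ring
    rw [e4]
    refine integral_mono (integrable_of_cont ?_) (integrable_of_cont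
      (continuous_const.mul c2f)) h3
    exact ((c3.sub continuous_const).mul (c2g.sub (continuous_const.mul c2f))).abs
  have hH : 0 < H4 μ f x := (hf.H4 (μ := μ)).pos x
  have e5 : Pool.Agent.N838.T3.lft μ f g x - M * TT μ f x = H4 μ f x ^ 3 *
      (Pool.Agent.N838.T3.KK μ f g x - M * Pool.Agent.N838.T3.KK μ f f x) := by
    rw [k1]
    unfold Pool.Agent.N838.T3.lft Pool.Agent.N989.MK.TT
    ring
  have e6 : TT μ f x = H4 μ f x ^ 3 * H4 μ f x := by
    unfold Pool.Agent.N989.MK.TT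
    ring
  rw [e5, abs_mul, abs_of_pos (pow_pos hH 3), e6, ← mul_assoc, mul_comm _ (H4 μ f x ^ 3),
    mul_assoc]
  refine mul_le_mul_of_nonneg_left ?_ (pow_pos hH 3).le
  refine up.trans ?_
  have h7 : (I * (I * I)) * I ≤ 10 / 9 * H4 μ f x := by
    have : 0 < (I * (I * I)) * I := by positivity
    nlinarith
  have := mul_le_mul_of_nonneg_left h7 (mul_nonneg ha0 hs0)
  linarith

/-! ### The sequence of the averages -/

lemma Sm_scale {a c : ℝ} (hc : 0 ≤ c) {f : G → ℝ} (h : Sm μ a f) : Sm μ a fun x => c * f x := by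
  intro x
  rw [integral_const_mul]
  have h1 := mul_le_mul_of_nonneg_left (h x) hc
  calc |c * f x - c * ∫ y, f y ∂μ| = c * |f x - ∫ y, f y ∂μ| := by
        rw [← mul_sub, abs_mul, abs_of_nonneg hc]
    _ ≤ _ := by linarith

lemma Sm_mono {a b : ℝ} (hab : a ≤ b) {f : G → ℝ} (hf : Adm f) (h : Sm μ a f) : Sm μ b f :=
  fun x => (h x).trans (mul_le_mul_of_nonneg_right hab hf.ipos.le)

/-- **the averages converge** -/
theorem avg_conv {f W : ℕ → G → ℝ} (hf : Adm (f 0)) (hW : Continuous (W 0))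
    (h1 : ∀ e, f (e + 1) = TT μ (f e))
    (h2 : ∀ e, W (e + 1) = Pool.Agent.N838.T3.lft μ (f e) (W e))
    (hs : Sm μ (1 / 10) (f 0)) : RC fun e => (∫ x, W e x ∂μ) / ∫ x, f e x ∂μ := by
  have hT : ∀ e, f e = TTn μ (f 0) e := by
    intro e
    induction e with
    | zero => rfl
    | succ e ih =>
      rw [h1, ih]
      rfl
  have hA : ∀ e, Adm (f e) := fun e => by rw [hT]; exact hf.TTn e
  have hS : ∀ e, Sm μ (10 / 21 * (21 / 100) ^ 4 ^ e) (f e) := fun e => by
    rw [hT]
    exact hs.TTn hf e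
  have hWc : ∀ e, Continuous (W e) := by
    intro e
    induction e with
    | zero => exact hW
    | succ e ih =>
      rw [h2]
      exact Pool.Agent.N838.T3.cont_lft (hA e).cont ih
  have hc : Continuous fun x => |W 0 x / f 0 x - (∫ x, W 0 x ∂μ) / ∫ x, f 0 x ∂μ| :=
    (((hWc 0).div (hA 0).cont fun x => ((hA 0).pos x).ne').sub continuous_const).abs
  obtain ⟨z, -, hz⟩ := isCompact_univ.exists_isMaxOn (Set.univ_nonempty (α := G)) hc.continuousOn
  obtain ⟨s, hsd⟩ : ∃ s, s = |W 0 z / f 0 z - (∫ x, W 0 x ∂μ) / ∫ x, f 0 x ∂μ| := ⟨_, rfl⟩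
  have hs0 : 0 ≤ s := by rw [hsd]; exact abs_nonneg _
  have hq1 : ∀ e : ℕ, (21 / 100 : ℝ) ^ 4 ^ e ≤ 21 / 100 := fun e => by
    calc (21 / 100 : ℝ) ^ 4 ^ e ≤ (21 / 100) ^ 1 :=
          pow_le_pow_of_le_one (by norm_num) (by norm_num) (Nat.one_le_pow _ _ (by norm_num))
      _ = _ := pow_one _
  have hI : ∀ e, 0 < ∫ x, f e x ∂μ := fun e => (hA e).ipos
  -- the deviations
  have step : ∀ e (t : ℝ), (∀ x, |W e x - (∫ x, W e x ∂μ) / (∫ x, f e x ∂μ) * f e x| ≤
      t * f e x) →
      |(∫ x, W (e + 1) x ∂μ) / (∫ x, f (e + 1) x ∂μ) - (∫ x, W e x ∂μ) / ∫ x, f e x ∂μ| ≤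
        10 / 9 * (10 / 21 * (21 / 100) ^ 4 ^ e * t) ∧
      ∀ x, |W (e + 1) x - (∫ x, W (e + 1) x ∂μ) / (∫ x, f (e + 1) x ∂μ) * f (e + 1) x| ≤
        20 / 9 * (10 / 21 * (21 / 100) ^ 4 ^ e * t) * f (e + 1) x := by
    intro e t ht
    set M := (∫ x, W e x ∂μ) / ∫ x, f e x ∂μ with hM
    set b := 10 / 21 * (21 / 100 : ℝ) ^ 4 ^ e with hb
    have hb0 : 0 ≤ b := by positivity
    have hb1 : b ≤ 1 / 10 := by
      have := hq1 e
      rw [hb]
      linarith
    have hMI : ∫ y, W e y ∂μ = M * ∫ y, f e y ∂μ := by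
      rw [hM, div_mul_cancel₀ _ (hI e).ne']
    have k1 : ∀ x, |W (e + 1) x - M * f (e + 1) x| ≤ 10 / 9 * (b * t) * f (e + 1) x := by
      intro x
      rw [h1, h2]
      exact avg_step (hA e) (hWc e) hb0 hb1 (hS e) hMI ht x
    have iW : Integrable (W (e + 1)) μ := integrable_of_cont (hWc (e + 1))
    have iF : Integrable (f (e + 1)) μ := (hA (e + 1)).integrable
    have k2 : |(∫ x, W (e + 1) x ∂μ) - M * ∫ x, f (e + 1) x ∂μ| ≤
        10 / 9 * (b * t) * ∫ x, f (e + 1) x ∂μ := by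
      rw [← integral_const_mul, ← integral_sub iW (iF.const_mul M), ← integral_const_mul]
      refine (abs_integral_le_integral_abs).trans (integral_mono
        (iW.sub (iF.const_mul M)).abs (iF.const_mul _) k1)
    have k3 : |(∫ x, W (e + 1) x ∂μ) / (∫ x, f (e + 1) x ∂μ) - M| ≤ 10 / 9 * (b * t) := by
      have hI1 := hI (e + 1)
      have e1 : (∫ x, W (e + 1) x ∂μ) / (∫ x, f (e + 1) x ∂μ) - M =
          ((∫ x, W (e + 1) x ∂μ) - M * ∫ x, f (e + 1) x ∂μ) / ∫ x, f (e + 1) x ∂μ := by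
        field_simp
      rw [e1, abs_div, abs_of_pos hI1, div_le_iff₀ hI1]
      exact k2
    refine ⟨k3, fun x => ?_⟩
    have k4 := k1 x
    have hfx := (hA (e + 1)).pos x
    have e2 : W (e + 1) x - (∫ x, W (e + 1) x ∂μ) / (∫ x, f (e + 1) x ∂μ) * f (e + 1) x =
        (W (e + 1) x - M * f (e + 1) x) -
          ((∫ x, W (e + 1) x ∂μ) / (∫ x, f (e + 1) x ∂μ) - M) * f (e + 1) x := by ring
    rw [e2]
    refine (abs_sub _ _).trans ?_
    rw [abs_mul, abs_of_pos hfx]
    have k5 := mul_le_mul_of_nonneg_right k3 hfx.le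
    linarith
  have hdev : ∀ e : ℕ, ∀ x, |W e x - (∫ x, W e x ∂μ) / (∫ x, f e x ∂μ) * f e x| ≤
      s * (2 / 9) ^ e * f e x := by
    intro e
    induction e with
    | zero =>
      intro x
      have hfx := (hA 0).pos x
      have h3 : |W 0 x / f 0 x - (∫ x, W 0 x ∂μ) / ∫ x, f 0 x ∂μ| ≤ s := by
        rw [hsd]
        exact hz (Set.mem_univ x)
      have e1 : W 0 x - (∫ x, W 0 x ∂μ) / (∫ x, f 0 x ∂μ) * f 0 x =
          (W 0 x / f 0 x - (∫ x, W 0 x ∂μ) / ∫ x, f 0 x ∂μ) * f 0 x := by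
        rw [sub_mul, div_mul_cancel₀ _ hfx.ne']
      rw [e1, abs_mul, abs_of_pos hfx, pow_zero, mul_one]
      exact mul_le_mul_of_nonneg_right h3 hfx.le
    | succ e ih =>
      intro x
      refine ((step e _ ih).2 x).trans (mul_le_mul_of_nonneg_right ?_ ((hA (e + 1)).pos x).le)
      have h3 := hq1 e
      have h4 : 0 ≤ s * (2 / 9) ^ e := by positivity
      rw [pow_succ]
      nlinarith
  refine RC.of_incr hs0 fun e => ?_
  refine (step e _ (hdev e)).1.trans ?_
  have h4 : 0 ≤ s * (21 / 100) ^ 4 ^ e * (2 / 9) ^ e := by positivity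
  linarith

end

end Pool.Agent.N109.T3
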