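import Mathlib
import Pool.Agent.N109.T3.VolA
import Pool.Agent.N109.T3.Lim

/-!
# The infinite volume limit of the correlation functions
-/

open MeasureTheory Pool.Agent.N991.MK Pool.Agent.N989.MK Filter
open scoped Topology

namespace Pool.Agent.N109.T3

set_option linter.unusedSectionVars false

noncomputable section

variable {G : Type*} [Group G] [TopologicalSpace G] [IsTopologicalGroup G] [CompactSpace G]
  [MeasurableSpace G] [BorelSpace G] [SecondCountableTopology G]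
  {μ : Measure G} [IsProbabilityMeasure μ] [μ.IsHaarMeasure] [μ.IsMulRightInvariant]
  [μ.IsInvInvariant] {Z : G → ℝ}

/-- the weight of a block with insertions, averaged over larger and larger squares -/
def WL (μ : Measure G) (Z : G → ℝ) (j : ℕ) (f : G → ℝ) : ℕ → G → ℝ
  | 0 => f
  | d + 1 => Pool.Agent.N838.T3.lft μ (TTn μ Z (j + d)) (WL μ Z j f d)

lemma inss_insC {n r : ℕ} (p : Fin r → Pq n) {O : Fin r → G → ℝ} (hO : ∀ a, Continuous (O a))
    (hc : ∀ a, Cls (O a)) : Pool.Agent.N838.T3.InsC (inss p O) :=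
  ⟨fun q => inss_cont p hO q, fun q => inss_cls p hc q⟩

/-- the insertions of one block -/
lemma inss_sub {n r : ℕ} (s q : Fin 4) (p : Fin r → Pq n) (O : Fin r → G → ℝ) :
    (fun p' : Pq n => inss (fun a => (show Pq (n + 1) from (s, q, p a))) O
      (show Pq (n + 1) from (s, q, p'))) = inss p O := by
  funext p' x
  unfold inss
  refine Finset.prod_congr rfl fun a _ => ?_
  by_cases h : p' = p a
  · have h1 : (show Pq (n + 1) from (s, q, p')) = (show Pq (n + 1) from (s, q, p a)) := by rw [h]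
    rw [if_pos h, if_pos h1]
  · have h1 : ¬ (show Pq (n + 1) from (s, q, p')) = (show Pq (n + 1) from (s, q, p a)) := by
      intro h2
      exact h (Prod.ext_iff.1 (Prod.ext_iff.1 h2).2).2
    rw [if_neg h, if_neg h1]

lemma inss_out {n r : ℕ} {s q s' q' : Fin 4} (h : ¬(s' = s ∧ q' = q)) (p : Fin r → Pq n)
    (O : Fin r → G → ℝ) (p' : Pq n) (x : G) :
    inss (fun a => (show Pq (n + 1) from (s, q, p a))) O (show Pq (n + 1) from (s', q', p')) x =
      1 := by
  unfold inss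
  refine Finset.prod_eq_one fun a _ => ?_
  have h1 : ¬ (show Pq (n + 1) from (s', q', p')) = (show Pq (n + 1) from (s, q, p a)) := by
    intro h2
    exact h ⟨(Prod.ext_iff.1 h2).1, (Prod.ext_iff.1 (Prod.ext_iff.1 h2).2).1⟩
  exact if_neg h1

/-- **all insertions in one block** -/
lemma WF_block (hZ : Adm Z) {j r : ℕ} (α : Fin r → Pq j) {O : Fin r → G → ℝ}
    (hO : ∀ a, Continuous (O a)) (hc : ∀ a, Cls (O a)) : ∀ (d : ℕ) (β : Pq d),
    WF μ Z (j + d) (inss (fun a => jn β (α a)) O) = WL μ Z j (WF μ Z j (inss α O)) d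
  | 0, _ => rfl
  | d + 1, (s, q, β) => by
    have hI : Pool.Agent.N838.T3.InsC (inss (n := j + (d + 1))
        (fun a => jn ((s, q, β) : Fin 4 × Fin 4 × Pq d) (α a)) O) := inss_insC _ hO hc
    have h1 := Pool.Agent.N838.T3.WF_lift (μ := μ) hZ (n := j + d)
      (F := inss (fun a => (show Pq (j + d + 1) from (s, q, jn β (α a)))) O) hI s q
      (fun s' q' h p' x => inss_out h (fun a => jn β (α a)) O p' x)
    have h2 := inss_sub s q (fun a => jn β (α a)) O
    rw [h2, WF_block hZ α hO hc d β] at h1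
    exact h1

/-- the expectation of a product of observables of a block -/
lemma Ex_block (hZ : Adm Z) {j r : ℕ} (α : Fin r → Pq j) {O : Fin r → G → ℝ}
    (hO : ∀ a, Continuous (O a)) (hc : ∀ a, Cls (O a)) (d : ℕ) (β : Pq d) :
    Ex μ Z (j + d) (fun U => ∏ a, O a (hol U (jn β (α a)))) =
      (∫ x, WL μ Z j (WF μ Z j (inss α O)) d x ∂μ) / ∫ x, TTn μ Z (j + d) x ∂μ := by
  rw [Ex_inss hZ (fun a => jn β (α a)) hO hc, ← WF_block hZ α hO hc d β]
  rfl

/-- the convergence of the averages -/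
theorem WL_conv (hZ : Adm Z) (h : ∃ d0, Sm μ (1 / 10) (TTn μ Z d0)) (j : ℕ) {f : G → ℝ}
    (hf : Continuous f) :
    RC fun d => (∫ x, WL μ Z j f d x ∂μ) / ∫ x, TTn μ Z (j + d) x ∂μ := by
  obtain ⟨d0, h0⟩ := h
  have hW : ∀ d, Continuous (WL μ Z j f d) := by
    intro d
    induction d with
    | zero => exact hf
    | succ d ih => exact Pool.Agent.N838.T3.cont_lft (hZ.TTn (j + d)).cont ih
  have h1 : Sm μ (1 / 10) (TTn μ Z (d0 + j)) := by
    have h2 := h0.TTn (hZ.TTn (μ := μ) d0) j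
    rw [← TTn_add] at h2
    refine Sm_mono ?_ (hZ.TTn (d0 + j)) h2
    have h3 : (21 / 100 : ℝ) ^ 4 ^ j ≤ (21 / 100) ^ 1 :=
      pow_le_pow_of_le_one (by norm_num) (by norm_num) (Nat.one_le_pow _ _ (by norm_num))
    linarith
  refine RC.of_shift d0 ?_
  refine avg_conv (f := fun e => TTn μ Z (j + (d0 + e))) (W := fun e => WL μ Z j f (d0 + e))
    (hZ.TTn _) (hW _) (fun e => rfl) (fun e => rfl) ?_
  have e : j + (d0 + 0) = d0 + j := by omega
  rw [e]
  exact h1

/-- linearity -/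
lemma Ex_sum (hZ : Adm Z) {n : ℕ} {κ : Type*} (s : Finset κ) (c : κ → ℝ)
    {O : κ → (Ed n → G) → ℝ} (hO : ∀ t ∈ s, Continuous (O t)) :
    Ex μ Z n (fun U => ∑ t ∈ s, O t U * c t) = ∑ t ∈ s, Ex μ Z n (O t) * c t := by
  have hw : Continuous fun U : Ed n → G => wt Z U := wt_cont hZ.cont
  have hI : ∀ {g : (Ed n → G) → ℝ}, Continuous g → Integrable g (Measure.pi fun _ => μ) :=
    fun hg => hg.integrable_of_hasCompactSupport (HasCompactSupport.of_compactSpace _)
  unfold Ex
  have e : ∀ U, (∑ t ∈ s, O t U * c t) * wt Z U = ∑ t ∈ s, c t * (O t U * wt Z U) := by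
    intro U
    rw [Finset.sum_mul]
    exact Finset.sum_congr rfl fun t _ => by ring
  simp only [e]
  have hi : ∀ t ∈ s, Integrable (fun U : Ed n → G => c t * (O t U * wt Z U))
      (Measure.pi fun _ => μ) := fun t ht => (hI ((hO t ht).mul hw)).const_mul (c t)
  rw [integral_finsetSum _ hi, Finset.sum_div]
  refine Finset.sum_congr rfl fun t _ => ?_
  rw [integral_const_mul]
  ring

open Classical in
/-- **the infinite volume limit of the centred correlation functions** -/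
theorem vol_limit (hZ : Adm Z) (h : ∃ d0, Sm μ (1 / 10) (TTn μ Z d0)) {O : G → ℝ}
    (hO : Continuous O) (hc : Cls O) {j r : ℕ} (α : Fin r → Pq j) :
    ∃ L C c : ℝ, 0 < c ∧ ∀ (d : ℕ) (β : Pq d),
      |Cn μ Z (j + d) (fun a => jn β (α a)) O - L| ≤ C * Real.exp (-(c * 4 ^ d)) := by
  -- the observables of a subset of the points
  obtain ⟨Ot, hOt⟩ : ∃ Ot : Finset (Fin r) → Fin r → G → ℝ, Ot = fun t a =>
    if a ∈ t then O else fun _ => 1 := ⟨_, rfl⟩
  have hOc : ∀ t a, Continuous (Ot t a) := by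
    intro t a
    rw [hOt]
    by_cases ha : a ∈ t
    · simpa [ha] using hO
    · simpa [ha] using continuous_const
  have hOl : ∀ t a, Cls (Ot t a) := by
    intro t a
    rw [hOt]
    by_cases ha : a ∈ t
    · simpa [ha] using hc
    · simp only [ha, if_false]
      exact fun _ _ => rfl
  obtain ⟨E, hE⟩ : ∃ E : Finset (Fin r) → ℕ → ℝ, E = fun t d =>
    (∫ x, WL μ Z j (WF μ Z j (inss α (Ot t))) d x ∂μ) / ∫ x, TTn μ Z (j + d) x ∂μ := ⟨_, rfl⟩
  have hEc : ∀ t, RC (E t) := by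
    intro t
    rw [hE]
    exact WL_conv hZ h j (Pool.Agent.N838.T3.cont_WF hZ (inss_insC α (hOc t) (hOl t)))
  have hprod : ∀ (t : Finset (Fin r)) (d : ℕ) (β : Pq d) (U : Ed (j + d) → G),
      ∏ a ∈ t, O (hol U (jn β (α a))) = ∏ a, Ot t a (hol U (jn β (α a))) := by
    intro t d β U
    rw [hOt, ← Finset.prod_subset (Finset.subset_univ t)]
    · refine Finset.prod_congr rfl fun a ha => ?_
      simp only [ha, if_true]
    · intro a _ ha
      simp only [ha, if_false]
  have hEx : ∀ (t : Finset (Fin r)) (d : ℕ) (β : Pq d),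
      Ex μ Z (j + d) (fun U => ∏ a ∈ t, O (hol U (jn β (α a)))) = E t d := by
    intro t d β
    rw [hE]
    beta_reduce
    rw [← Ex_block hZ α (hOc t) (hOl t) d β]
    congr 1
    funext U
    exact hprod t d β U
  have hm : ∀ (a : Fin r) (d : ℕ) (β : Pq d),
      Ex μ Z (j + d) (fun U => O (hol U (jn β (α a)))) = E {a} d := by
    intro a d β
    rw [← hEx {a} d β]
    congr 1
    funext U
    rw [Finset.prod_singleton]
  have hcont : ∀ (t : Finset (Fin r)) (d : ℕ) (β : Pq d),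
      Continuous fun U : Ed (j + d) → G => ∏ a ∈ t, O (hol U (jn β (α a))) := fun t d β =>
    continuous_finsetProd _ fun a _ => cont_obs hO _
  have key : RC fun d => ∑ t ∈ Finset.univ.powerset, E t d * ∏ a ∈ Finset.univ \ t, -E {a} d :=
    RC.sum _ fun t _ => (hEc t).mul (RC.prod _ fun a _ => (hEc {a}).neg)
  obtain ⟨L, C, c, hc0, hL⟩ := key
  refine ⟨L, C, c, hc0, fun d β => ?_⟩
  refine le_trans (le_of_eq ?_) (hL d)
  congr 2
  unfold Cn
  have e1 : (fun U : Ed (j + d) → G => ∏ a, (O (hol U (jn β (α a))) -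
      Ex μ Z (j + d) (fun U => O (hol U (jn β (α a)))))) = fun U =>
      ∑ t ∈ Finset.univ.powerset, (∏ a ∈ t, O (hol U (jn β (α a)))) *
        ∏ a ∈ Finset.univ \ t, -E {a} d := by
    funext U
    rw [← Finset.prod_add]
    refine Finset.prod_congr rfl fun a _ => ?_
    rw [hm a d β, sub_eq_add_neg]
  rw [e1, Ex_sum hZ _ (fun t : Finset (Fin r) => ∏ a ∈ Finset.univ \ t, -E {a} d)
    (fun t _ => hcont t d β)]
  exact Finset.sum_congr rfl fun t _ => by rw [hEx t d β]

/-- small deviations at all large scales -/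
lemma Sm_all {F : ℤ → G → ℝ} (hF : ∀ k, Adm (F k)) (hFs : ∀ k, F (k + 1) = nrm μ (TT μ (F k)))
    {k1 : ℤ} (h : Sm μ (1 / 10) (F k1)) (k : ℤ) : ∃ d0, Sm μ (1 / 10) (TTn μ (F k) d0) := by
  -- the iterates are multiples
  have hit : ∀ (k : ℤ) (d : ℕ), ∃ c : ℝ, 0 < c ∧ TTn μ (F k) d = fun x => c * F (k + d) x := by
    intro k d
    induction d with
    | zero => exact ⟨1, one_pos, by funext x; simp [Pool.Agent.N989.MK.TTn]⟩
    | succ d ih =>
      obtain ⟨c, hc, e⟩ := ih
      have h1 := hFs (k + d)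
      have hI : 0 < ∫ x, TT μ (F (k + d)) x ∂μ := ((hF (k + d)).TT (μ := μ)).ipos
      refine ⟨c ^ 16 * ∫ x, TT μ (F (k + d)) x ∂μ, by positivity, ?_⟩
      have e2 : TTn μ (F k) (d + 1) = TT μ (TTn μ (F k) d) := rfl
      have e3 : k + ((d + 1 : ℕ) : ℤ) = k + d + 1 := by push_cast; ring
      rw [e2, e, e3, h1]
      funext x
      unfold nrm Pool.Agent.N989.MK.TT
      have e4 : H4 μ (fun x => c * F (k + d) x) = fun x => c ^ 4 * H4 μ (F (k + d)) x :=
        Pool.Agent.N109.T3.H4_scale c _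
      rw [e4]
      have hI' : (∫ y, H4 μ (F (k + d)) y ^ 4 ∂μ) ≠ 0 := hI.ne'
      field_simp
  -- from `k1` upwards
  have hup : ∀ e : ℕ, Sm μ (1 / 10) (F (k1 + e)) := by
    intro e
    have h2 := h.TTn (hF k1) e
    have h3 : (21 / 100 : ℝ) ^ 4 ^ e ≤ (21 / 100) ^ 1 :=
      pow_le_pow_of_le_one (by norm_num) (by norm_num) (Nat.one_le_pow _ _ (by norm_num))
    obtain ⟨c, hc, e1⟩ := hit k1 e
    have h4 : F (k1 + e) = fun x => c⁻¹ * TTn μ (F k1) e x := by
      rw [e1]
      funext x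
      field_simp
    have h5 : Sm μ (1 / 10) (TTn μ (F k1) e) := Sm_mono (by linarith) ((hF k1).TTn e) h2
    rw [h4]
    exact Sm_scale (by positivity) h5
  refine ⟨(k1 - k).toNat, ?_⟩
  obtain ⟨c, hc, e1⟩ := hit k (k1 - k).toNat
  rw [e1]
  refine Sm_scale hc.le ?_
  have e2 : k + ((k1 - k).toNat : ℤ) = k1 + ((k - k1).toNat : ℤ) := by omega
  rw [e2]
  exact hup _

/-- small deviations are preserved by uniform limits -/
lemma Sm_lim {a : ℝ} {f : ℕ → G → ℝ} {F : G → ℝ} (hf : ∀ i, Continuous (f i)) (hF : Continuous F)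
    (h : UT f F) (hs : ∀ᶠ i in atTop, Sm μ a (f i)) : Sm μ a F := by
  intro x
  have h1 : Tendsto (fun i => f i x) atTop (𝓝 (F x)) := by
    rw [Metric.tendsto_atTop']
    intro ε hε
    obtain ⟨n, hn⟩ := eventually_atTop.1 (h ε hε)
    exact ⟨n, fun i hi => by rw [Real.dist_eq]; exact hn i hi.le x⟩
  have h2 : Tendsto (fun i => ∫ y, f i y ∂μ) atTop (𝓝 (∫ y, F y ∂μ)) :=
    ut_int (fun i => integrable_of_cont (hf i)) (integrable_of_cont hF) h
  have h3 : Tendsto (fun i => |f i x - ∫ y, f i y ∂μ|) atTop (𝓝 |F x - ∫ y, F y ∂μ|) :=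
    (h1.sub h2).abs
  exact le_of_tendsto_of_tendsto h3 (h2.const_mul a) (hs.mono fun i hi => hi x)

end

end Pool.Agent.N109.T3
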