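import Mathlib
import Pool.Agent.N109.T3.VolB
import Pool.Agent.N109.T3.Flw

/-!
# The limit theories at large scales
-/

open MeasureTheory Pool.Agent.N991.MK Pool.Agent.N989.MK Filter
open scoped Topology

namespace Pool.Agent.N109.T3

set_option linter.unusedSectionVars false

noncomputable section

variable {G : Type*} [Group G] [TopologicalSpace G] [IsTopologicalGroup G] [CompactSpace G]
  [MeasurableSpace G] [BorelSpace G] [SecondCountableTopology G]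
  {μ : Measure G} [IsProbabilityMeasure μ] [μ.IsHaarMeasure] [μ.IsMulRightInvariant]
  [μ.IsInvInvariant] {χ : G → ℝ} {n : ℕ} {D : ED G n} {Zb : ℝ → G → ℝ}
  {P : (G → ℝ) → ℝ → ℝ → Prop} {c h0 C A R : ℝ}

/-- **the effective weights of the limit theory are nearly constant at large scales** -/
theorem Sm_flow (Fl : Flow μ χ D Zb P c h0 C A R) {m : ℕ} (hg : Gen D m 1)
    {f : ℕ → G → ℝ} {l : ℕ → ℕ} (hf : ∀ i, Adm (f i)) (hl : Tendsto l atTop atTop)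
    {F : ℤ → G → ℝ} (hF : ∀ k, Adm (F k))
    (hconv : ∀ k : ℤ, UT (fun i x => nrm μ (TTn μ (f i) ((l i : ℤ) + k).toNat) x) (F k))
    (hex : ∀ hq : ℝ, ∃ k0 : ℕ, ∀ k : ℕ, k0 ≤ k → ∃ Hu : ℝ, ∀ᶠ i in atTop, ∃ h ρ,
      TP μ P c C hq R (f i) (l i - k) h ρ ∧ h (l i - k) ≤ Hu) :
    ∃ k1 : ℤ, Sm μ (1 / 10) (F k1) := by
  obtain ⟨k0, hk0⟩ := hex h0
  obtain ⟨Hu, hHu⟩ := hk0 k0 le_rfl
  obtain ⟨K, hK, hent⟩ := Fl.ent Hu
  obtain ⟨n1, hn1⟩ := exists_small (μ := μ) hg hK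
  refine ⟨-(k0 : ℤ) + n1, ?_⟩
  refine Sm_lim (fun i => ((hf i).TTn (μ := μ) _).nrm.cont) (hF _).cont (hconv _) ?_
  filter_upwards [hHu, hl.eventually (eventually_ge_atTop k0)] with i hi hli
  obtain ⟨h, ρ, tp, hh⟩ := hi
  have h1 := hent _ _ _ (tp.p _ le_rfl) (tp.lo _ le_rfl) hh
  have h2 := hn1 _ ((hf i).TTn (μ := μ) (l i - k0)) h1
  rw [← TTn_add] at h2
  have e : ((l i : ℤ) + (-(k0 : ℤ) + n1)).toNat = l i - k0 + n1 := by omega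
  rw [e]
  have hI : 0 < ∫ x, TTn μ (f i) (l i - k0 + n1) x ∂μ := ((hf i).TTn (μ := μ) _).ipos
  have h3 := Sm_scale (μ := μ) (inv_pos.2 hI).le h2
  exact h3

/-- **the infinite volume limit** -/
theorem vol_flow (Fl : Flow μ χ D Zb P c h0 C A R) {m : ℕ} (hg : Gen D m 1)
    {f : ℕ → G → ℝ} {l : ℕ → ℕ} (hf : ∀ i, Adm (f i)) (hl : Tendsto l atTop atTop)
    {F : ℤ → G → ℝ} (hF : ∀ k, Adm (F k)) (hFs : ∀ k, F (k + 1) = nrm μ (TT μ (F k)))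
    (hconv : ∀ k : ℤ, UT (fun i x => nrm μ (TTn μ (f i) ((l i : ℤ) + k).toNat) x) (F k))
    (hex : ∀ hq : ℝ, ∃ k0 : ℕ, ∀ k : ℕ, k0 ≤ k → ∃ Hu : ℝ, ∀ᶠ i in atTop, ∃ h ρ,
      TP μ P c C hq R (f i) (l i - k) h ρ ∧ h (l i - k) ≤ Hu)
    {O : G → ℝ} (hO : Continuous O) (hc : Cls O) (k : ℤ) {j r : ℕ} (α : Fin r → Pq j) :
    ∃ L C c : ℝ, 0 < c ∧ ∀ (d : ℕ) (β : Pq d),
      |Cn μ (F k) (j + d) (fun a => jn β (α a)) O - L| ≤ C * Real.exp (-(c * 4 ^ d)) := by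
  obtain ⟨k1, h1⟩ := Sm_flow Fl hg hf hl hF hconv hex
  exact vol_limit (hF k) (Sm_all hF hFs h1 k) hO hc α

end

end Pool.Agent.N109.T3
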