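import Mathlib
import Pool.Agent.N989.MK.Part2
import Pool.Agent.N991.MK.Vol
import Pool.Agent.N988.MK.Nrm

/-!
# Scaling limits of concentrated functions: definitions

`Sc B hG h g γ` says that the functions `g m` on the group, at the points `exp (x / √(h m))`,
converge to `γ x`, and that they are dominated by Gaussians of the width `1 / √(h m)`.
-/

open MeasureTheory Filter Matrix Pool.Agent.N991.MK Pool.Agent.N989.MK
open scoped Matrix.Norms.Frobenius Topology
open Pool.Agent.H906R3.YM Pool.Agent.W793.YM Pool.Agent.TH618.YM Pool.Agent.N984.TW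

namespace Pool.Agent.N109.T3

noncomputable section

variable {N n : ℕ} {G : Subgroup (UN N)}

/-- scaling limits -/
structure Sc (B : Frame G n) (hG : IsClosed (G : Set (UN N))) (h : ℕ → ℝ) (g : ℕ → G → ℝ)
    (γ : (Fin n → ℝ) → ℝ) : Prop where
  cont : ∀ m, Continuous (g m)
  contγ : Continuous γ
  lim : ∀ (v : ℕ → Fin n → ℝ) (x : Fin n → ℝ), Tendsto v atTop (𝓝 x) →
    Tendsto (fun m => g m (Eg B hG ((√(h m))⁻¹ • v m))) atTop (𝓝 (γ x))
  dom : ∃ C c : ℝ, 0 < c ∧ ∀ᶠ m in atTop, ∀ y : G, |g m y| ≤ C * Real.exp (-(c * h m * nN y ^ 2))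

/-- the normalisation -/
def nz [MeasurableSpace G] (μ : Measure G) (h : ℝ) : ℝ :=
  ∫ y, Real.exp (-(h / 2 * nN y ^ 2)) ∂μ

/-- The convolution of functions on `ℝ ^ n`. -/
def cvR (f g : (Fin n → ℝ) → ℝ) (x : Fin n → ℝ) : ℝ := ∫ y, f y * g (x - y)

/-- The partition functions of the free theory with the weights `w` of the plaquettes, as functions
of the flux. -/
def ZR : ∀ j, (Pq j → (Fin n → ℝ) → ℝ) → (Fin n → ℝ) → ℝ
  | 0, w => w ()
  | j + 1, w => fun x => ∏ s : Fin 4,
      cvR (cvR (ZR j fun p => w (s, 0, p)) (ZR j fun p => w (s, 1, p)))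
        (cvR (ZR j fun p => w (s, 2, p)) (ZR j fun p => w (s, 3, p))) x

/-- the Gaussian weight -/
def gs (x : Fin n → ℝ) : ℝ := Real.exp (-(∑ b, x b ^ 2) / 2)

open Classical in
/-- several insertions -/
def insR {j r : ℕ} (p : Fin r → Pq j) (O : Fin r → (Fin n → ℝ) → ℝ) : Pq j → (Fin n → ℝ) → ℝ :=
  fun q x => ∏ a, if q = p a then O a x else 1

/-- The expectation of the product of the functions `O a` of the plaquettes `p a` in the free
theory. -/
def ER {j r : ℕ} (p : Fin r → Pq j) (O : Fin r → (Fin n → ℝ) → ℝ) : ℝ :=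
  (∫ x, ZR j (fun q x => gs x * insR p O q x) x) / ∫ x, ZR (n := n) j (fun _ x => gs x) x

/-- The field of the free theory. -/
def fr (x : Fin n → ℝ) : ℝ := -(∑ b, x b ^ 2) / 2

/-- The centred correlation functions of the field of the free theory. -/
def CR (n : ℕ) {j r : ℕ} (p : Fin r → Pq j) : ℝ :=
  ER p fun a (x : Fin n → ℝ) => fr x - ER (fun _ : Fin 1 => p a) fun _ (x : Fin n → ℝ) => fr x

end

end Pool.Agent.N109.T3
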