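import Mathlib
import Pool.Agent.N109.T3.Fin
import Pool.Agent.N109.T3.Mid3
import Pool.Agent.N109.T3.VolC
import Pool.Agent.N453.MK.Lim3
import Pool.Agent.N453.MK.Lim4
import Pool.Agent.N565.T3U.Blk
import Pool.Agent.N681.T3.U4

/-!
# The renormalised field: infinite volume limit and short distance behaviour in all volumes
-/

open MeasureTheory Matrix Filter Pool.Agent.N991.MK Pool.Agent.N988.MK Pool.Agent.N989.MK
open scoped Matrix.Norms.Frobenius Topology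
open Pool.Agent.H906R3.YM Pool.Agent.W793.YM Pool.Agent.TH618.YM Pool.Agent.N984.TW
open Pool.Agent.N681.MK (evo)
open Pool.Agent.N839.T3 (SD)

namespace Pool.Agent.N109.T3

set_option linter.unusedSectionVars false

noncomputable section

section

variable {G : Type*} [Group G] [TopologicalSpace G] [IsTopologicalGroup G] [CompactSpace G]
  [MeasurableSpace G] [BorelSpace G] [SecondCountableTopology G]
  {μ : Measure G} [IsProbabilityMeasure μ] [μ.IsHaarMeasure] [μ.IsMulRightInvariant]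
  [μ.IsInvInvariant] {F : ℤ → G → ℝ}

/-- the iterates are multiples of the weights of the limit theory -/
lemma TTn_mul (hF : ∀ k, Adm (F k)) (hFs : ∀ k, F (k + 1) = nrm μ (TT μ (F k))) (k : ℤ) (d : ℕ) :
    ∃ c : ℝ, 0 < c ∧ TTn μ (F k) d = fun x => c * F (k + d) x := by
  induction d with
  | zero => exact ⟨1, one_pos, by funext x; simp [Pool.Agent.N989.MK.TTn]⟩
  | succ d ih =>
    obtain ⟨c, hc, e⟩ := ih
    have h1 := hFs (k + d)
    have hI : 0 < ∫ x, TT μ (F (k + d)) x ∂μ := ((hF (k + d)).TT (μ := μ)).ipos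
    refine ⟨c ^ 16 * ∫ x, TT μ (F (k + d)) x ∂μ, by positivity, ?_⟩
    have e2 : TTn μ (F k) (d + 1) = TT μ (TTn μ (F k) d) := rfl
    have e3 : k + ((d + 1 : ℕ) : ℤ) = k + d + 1 := by push_cast; ring
    rw [e2, e, e3, h1]
    funext x
    unfold nrm Pool.Agent.N989.MK.TT
    have e4 : H4 μ (fun x => c * F (k + d) x) = fun x => c ^ 4 * H4 μ (F (k + d)) x :=
      Pool.Agent.N109.T3.H4_scale c _
    rw [e4]
    have hI' : (∫ y, H4 μ (F (k + d)) y ^ 4 ∂μ) ≠ 0 := hI.ne'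
    field_simp

end

variable {N n : ℕ} {G : Subgroup (UN N)}
variable [MeasurableSpace G] [BorelSpace G] {μ : Measure G} [IsProbabilityMeasure μ]
  [μ.IsHaarMeasure]

section

variable [CompactSpace G] [ConnectedSpace G] [SecondCountableTopology G] [μ.IsMulRightInvariant]
  [μ.IsInvInvariant]

/-- the environments of the squares of all levels -/
lemma env_link {F : ℤ → G → ℝ} (hF : ∀ k, Adm (F k))
    (hFs : ∀ k, F (k + 1) = nrm μ (TT μ (F k))) {cA c₁ C₂ r' : ℝ} (hcA : 0 < cA) (hc₁ : 0 < c₁)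
    (hC₂ : 0 < C₂) {m1 : ℕ}
    (h : ∀ m : ℕ, m1 ≤ m → ∀ d : ℕ,
        (∀ x, Pool.Agent.N565.MK.env μ (F (-m)) 0 d x ≤ Pool.Agent.N565.MK.env μ (F (-m)) 0 d 1) ∧
        ∀ x : G, nN x ≤ r' → c₁ * Pool.Agent.N565.MK.env μ (F (-m)) 0 d 1 *
          Real.exp (-(C₂ * m * nN x ^ 2)) ≤ Pool.Agent.N565.MK.env μ (F (-m)) 0 d x) (s : ℕ) :
    ∀ᶠ m : ℕ in atTop, ∀ d, (∀ x, Pool.Agent.N838.T3.env μ (F (-m)) s d x ≤
        Pool.Agent.N838.T3.env μ (F (-m)) s d 1) ∧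
      ∀ x : G, nN x ≤ r' → c₁ * Pool.Agent.N838.T3.env μ (F (-m)) s d 1 *
        Real.exp (-(C₂ * 8 / cA * (cA / 8 * m * nN x ^ 2))) ≤
          Pool.Agent.N838.T3.env μ (F (-m)) s d x := by
  filter_upwards [eventually_ge_atTop (m1 + s)] with m hm d
  obtain ⟨c, hc, e1⟩ := TTn_mul (μ := μ) hF hFs (-m) s
  have e2 : (-(m : ℤ) + (s : ℤ)) = -((m - s : ℕ) : ℤ) := by omega
  rw [e2] at e1
  obtain ⟨C, hC, e3⟩ := Pool.Agent.N453.MK.env_mulc (μ := μ) hc (F (-((m - s : ℕ) : ℤ))) d 0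
  have e4 : Pool.Agent.N838.T3.env μ (F (-m)) s d =
      fun x => C * Pool.Agent.N565.MK.env μ (F (-((m - s : ℕ) : ℤ))) 0 d x := by
    have e5 := Pool.Agent.N565.MK.env_TTn (μ := μ) (F (-(m : ℤ))) s d 0
    rw [add_zero] at e5
    rw [Pool.Agent.N838.T3.env_same, ← e5, e1, e3]
  obtain ⟨h1, h2⟩ := h (m - s) (by omega) d
  rw [e4]
  refine ⟨fun x => mul_le_mul_of_nonneg_left (h1 x) hC.le, fun x hx => ?_⟩
  have h3 := mul_le_mul_of_nonneg_left (h2 x hx) hC.le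
  refine le_trans ?_ h3
  have hE : 0 < Pool.Agent.N565.MK.env μ (F (-((m - s : ℕ) : ℤ))) 0 d 1 :=
    (Pool.Agent.N565.MK.env_adm (μ := μ) (hF _) d 0).pos 1
  have h4 : Real.exp (-(C₂ * 8 / cA * (cA / 8 * m * nN x ^ 2))) ≤
      Real.exp (-(C₂ * ((m - s : ℕ) : ℝ) * nN x ^ 2)) := by
    refine Real.exp_le_exp.2 (neg_le_neg ?_)
    have e5 : C₂ * 8 / cA * (cA / 8 * m * nN x ^ 2) = C₂ * m * nN x ^ 2 := by field_simp
    rw [e5]
    have h5 : ((m - s : ℕ) : ℝ) ≤ m := by exact_mod_cast Nat.sub_le m s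
    exact mul_le_mul_of_nonneg_right (mul_le_mul_of_nonneg_left h5 hC₂.le) (sq_nonneg _)
  calc c₁ * (C * Pool.Agent.N565.MK.env μ (F (-((m - s : ℕ) : ℤ))) 0 d 1) *
        Real.exp (-(C₂ * 8 / cA * (cA / 8 * m * nN x ^ 2)))
      ≤ c₁ * (C * Pool.Agent.N565.MK.env μ (F (-((m - s : ℕ) : ℤ))) 0 d 1) *
        Real.exp (-(C₂ * ((m - s : ℕ) : ℝ) * nN x ^ 2)) :=
        mul_le_mul_of_nonneg_left h4 (by positivity)
    _ = _ := by ring

/-- **the renormalised field of a limit theory** -/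
theorem gluon_field3 (hG : SimpleGroup G) (B : Frame G n) {P : Matrix (Fin N) (Fin N) ℂ}
    (hP : Constituent G P) {cA : ℝ} (hcA0 : 0 < cA)
    (hcA : ∀ x : Fin n → ℝ, ∑ a, ‖LX B x * B.X a - B.X a * LX B x‖ ^ 2 = cA * ∑ a, x a ^ 2)
    {u : ℝ} {F : ℤ → G → ℝ} (hL : LimitTheory μ B.X P cA u F) {S : G → ℝ} {β : ℕ → ℝ}
    {l : ℕ → ℕ} (ha : Appr μ F S β l) :
    ∃ φ : ℤ → G → ℝ, GluonField0 μ B.X cA F φ ∧
      ∀ k : ℤ, UT (fun m : ℕ => evo μ (F (-m)) (fun g : G => (trace (mx g)).re)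
        ((m : ℤ) + k).toNat) (φ k) := by
  have hF : ∀ k, Adm (F k) := lt_adm hL
  have hFs := lt_rcs hL
  have hW1 := lt_W1 hcA0 hL
  have hW : ∀ k, WW μ (chiP P) (F k) < 1 := fun k => by
    rw [lt_WW hL]
    exact (hL.wilson k).2
  obtain ⟨φ, hR, hφ⟩ := ren_field hG B hP hcA0 hcA hL ha
  obtain ⟨m, hg⟩ := exists_gen B hG.closed hG.connected
  have hI : IrC G P := ⟨⟨hP.herm, hP.idem, hP.comm⟩, hP.ne, hP.irr, hP.nontriv⟩
  have ho : Obs μ (chiP P : G → ℝ) := obs_chiP hI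
  have hIs : IsoG B := isoG_of_simple B hG.closed hG.nonabelian hG.simple
  have hn : 0 < n := frame_pos B hG.closed hG.nonabelian
  obtain ⟨r₁, hr₁, hsd⟩ := Pool.Agent.N453.MK.sd_limit B μ hG.closed
  obtain ⟨r₂, ε₂, hr₂, hε₂, hε21, henv⟩ := Pool.Agent.N453.MK.env_limit (B := B) (cA := cA) μ
    hG.closed hIs hn fun x => by rw [hcA x, Pool.Agent.N991.MK.nE_sq]
  obtain ⟨κS, r, ε, h1, K, h0, C, A, R, K', hκS, hr, hr3, -, hε, hε3, hK', hgr, hadm, hsc, hbw,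
    Fl, hT⟩ := setup_S μ hG B hP hcA0 hcA ha.bare (lt_min hr₁ hr₂) hε₂
  have hadm' : ∀ β, Adm (bw S β) := fun β => by rw [hbw]; exact hadm _
  have hconv := appr_ut (μ := μ) hadm' ha.conv
  have hex := hex_of Fl ho hadm hK' hsc hg (β := fun i => κS * β i)
    (fun i => mul_pos hκS (ha.pos i)) ha.len hF (fun k => by
      simpa only [← hbw] using hconv k) hW1 hW
  simp only [← hbw] at hex
  obtain ⟨hc0, h2, C2, -, T0⟩ := hT _ 1 cp_tr (curv_tr B hG.closed)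
  obtain ⟨Φ, a1, a2, a3, a4, a5⟩ := T0.conv Fl.c_pos Fl.C_nn Fl.R_nn hc0 (fun i => hadm' (β i))
    ha.len hF hFs hconv hex
  have hΦ : Φ = φ := by
    funext k
    exact Pool.Agent.N681.MK.UT.uniq (a4 k) (hφ k)
  subst hΦ
  have hcls : ∀ k, Cls (Φ k) := fun k g x => hR.cls k g x
  have ft : FT μ F Φ := ⟨hF, hL.int_one, hFs, a1, hcls, a2, a5⟩
  obtain ⟨s1, s2⟩ := hsd r hr (hr3.trans (min_le_left _ _)) hgr (hε3.trans hε21) one_pos hc0 T0
    Fl.c_pos Fl.C_nn Fl.R_nn (fun i => hadm' (β i)) ha.len hex hF a1 hconv a3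
  have s3 : SD B hG.closed atTop (fun m : ℕ => cA / 8 * (m : ℝ))
      (fun m y => cA / 8 * (m : ℝ) * Φ (-m) y * (F (-m) y / F (-m) 1)) (fun x => fr x * gs x) :=
    s2.congr (fun _ _ => rfl) fun x => by ring
  obtain ⟨m1, c₁, C₂, r', hc₁, hC₂, hr', hE⟩ := henv r hr (hr3.trans (min_le_right _ _)) hgr hε3
    one_pos hc0 T0 Fl.c_pos Fl.C_nn Fl.R_nn (fun i => hadm' (β i)) ha.len hex hF hconv
  have hfree : ∀ (j r : ℕ) (α : Fin r → Pq j), Function.Injective α → ∀ ε : ℝ, 0 < ε →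
      ∃ m0 : ℕ, ∀ (m d : ℕ) (β : Pq d), m0 ≤ m →
        |(m : ℝ) ^ r * Cn μ (F (-m)) (j + d) (fun a => jn β (α a)) (Φ (-m)) -
          (8 / cA) ^ r * CG n (fun a => jn β (α a))| ≤ ε := by
    intro j r₀ α hα e he
    have h3 := Pool.Agent.N681.T3.free_unif (μ := μ) (n := n) (Z := fun m : ℕ => F (-m))
      (φ := fun m : ℕ => Φ (-m)) (fun m => hF _) (fun m => a1 _) hcA0 α
      (Pool.Agent.N565.T3U.field_UL (μ := μ) (h := fun m : ℕ => cA / 8 * (m : ℝ))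
        (f := fun m : ℕ => F (-m)) (φ := fun m : ℕ => Φ (-m)) (fun m => hF _) (fun m => a1 _)
        (fun m => hcls _) s1 s3 hc₁ (show 0 < C₂ * 8 / cA by positivity) hr'
        (env_link hF hFs hcA0 hc₁ hC₂ hE) hα)
    obtain ⟨m0, hm0⟩ := h3.2 e he
    exact ⟨m0, fun m d β hm => hm0 m ⟨d, β⟩ hm⟩
  refine ⟨Φ, ⟨hR.cont, hR.cls, hR.sym, hR.one, hR.step, hR.cutoff, hR.near, hfree, ?_, hR.pos,
    hR.gap, fun k j r' α => vol_flow Fl hg (fun i => hadm' (β i)) ha.len hF hFs hconv hex (a1 k)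
      (hcls k) k α⟩, hφ⟩
  intro e he
  obtain ⟨m0, hm0⟩ := Pool.Agent.N681.T3.two_unif (μ := μ) ft (n := n) (cA := cA)
    (fun α hα => hfree 1 2 α hα) e he
  refine ⟨m0, fun k j p q hpq hk => ?_⟩
  have h4 := hm0 k j p q hpq hk
  have e1 : (n : ℝ) / 2 * (8 / cA * kap p q) ^ 2 = n / 2 * (8 / cA) ^ 2 * kap p q ^ 2 := by ring
  rw [e1]
  exact h4

end

end

end Pool.Agent.N109.T3
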