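import Mathlib
import Pool.Agent.N681.T3.Ope5

/-!
# The operator product expansion: from the flow of the square to conditional expectations
-/

open MeasureTheory Pool.Agent.N991.MK Pool.Agent.N989.MK Filter
open Pool.Agent.N681.MK (evo)
open scoped Topology

namespace Pool.Agent.N109.T3

set_option linter.unusedSectionVars false

noncomputable section

variable {G : Type*} [Group G] [TopologicalSpace G] [IsTopologicalGroup G] [CompactSpace G]
  [MeasurableSpace G] [BorelSpace G] [SecondCountableTopology G]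
  {μ : Measure G} [IsProbabilityMeasure μ] [μ.IsHaarMeasure] [μ.IsMulRightInvariant]
  [μ.IsInvInvariant] {F φ : ℤ → G → ℝ}

/-- **the operator product expansion** -/
theorem ope_field (ft : FT μ F φ) {cA : ℝ}
    (H : ∀ (s : ℤ) (ε : ℝ), 0 < ε → ∃ m0 : ℕ, ∀ (m J d : ℕ) (β : Pq (J + d)) (e : ℝ), m0 ≤ m →
      (J : ℤ) - m = s → e = Ex μ (F (-m)) (J + d) (fun U => φ (-m) (hol U β)) → ∀ x x' : G,
        |m * (evo μ (F (-m)) (fun y => (φ (-m) y - e) ^ 2) J x -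
          evo μ (F (-m)) (fun y => (φ (-m) y - e) ^ 2) J x') +
            64 / (5 * cA) * (φ s x - φ s x')| ≤ ε) :
    ∀ (s : ℤ) (ε : ℝ), 0 < ε → ∃ m0 : ℕ, ∀ (k : ℤ) (j d : ℕ) (β : Pq d) (p q : Pq j) (e : ℝ),
      Sep p q → k + j = s → k + anc j p q ≤ -m0 →
      e = Ex μ (F k) (j + d) (fun U => φ k (hol U (jn β p))) → ∀ V V' : BE j → G,
        |-(k + anc j p q : ℝ) * 16 ^ (j + anc j p q) *
            (CE μ (F k) j V (fun U => (φ k (hol U p) - e) * (φ k (hol U q) - e)) -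
              CE μ (F k) j V' (fun U => (φ k (hol U p) - e) * (φ k (hol U q) - e))) +
          64 / (5 * cA) * 16 ^ j * (CE μ (F k) j V (fun U => φ k (hol U p)) -
            CE μ (F k) j V' (fun U => φ k (hol U p)))| ≤ ε := by
  intro s ε hε
  obtain ⟨m0, hm0⟩ := H s ε hε
  refine ⟨m0, fun k j d β p q e hpq => ?_⟩
  revert k d β e
  refine Pool.Agent.N681.T3.split_sep p q hpq (P := fun j p q => ∀ (k : ℤ) (d : ℕ) (β : Pq d)
    (e : ℝ), k + j = s → k + anc j p q ≤ -m0 →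
      e = Ex μ (F k) (j + d) (fun U => φ k (hol U (jn β p))) → ∀ V V' : BE j → G,
        |-(k + anc j p q : ℝ) * 16 ^ (j + anc j p q) *
            (CE μ (F k) j V (fun U => (φ k (hol U p) - e) * (φ k (hol U q) - e)) -
              CE μ (F k) j V' (fun U => (φ k (hol U p) - e) * (φ k (hol U q) - e))) +
          64 / (5 * cA) * 16 ^ j * (CE μ (F k) j V (fun U => φ k (hol U p)) -
            CE μ (F k) j V' (fun U => φ k (hol U p)))| ≤ ε) ?_
  intro a D α s1 s1' r r' p₀ q₀ hs k d β e hk hanc he V V'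
  rw [Pool.Agent.N681.T3.anc_block α p₀ q₀ hs] at hanc ⊢
  obtain ⟨m, hm⟩ : ∃ m : ℕ, k + (a + 1 : ℕ) = -(m : ℤ) :=
    ⟨(-(k + (a + 1 : ℕ))).toNat, by omega⟩
  obtain ⟨e', he'⟩ : ∃ e', e' = Ex μ (F (k + (a + 1 : ℕ))) (D + d)
    (fun U => φ (k + (a + 1 : ℕ)) (hol U (jn β α))) := ⟨_, rfl⟩
  have h5 := Pool.Agent.N681.T3.ope5 ft k α β r r' hs p₀ q₀ he he' V V'
  have hJ : (D : ℤ) - m = s := by
    rw [← hk]
    push_cast
    omega
  rw [hm] at h5 he'
  have h6 := hm0 m D d (jn β α) e' (by omega) hJ he' (lp V) (lp V')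
  rw [← h5] at h6
  obtain ⟨c, hc⟩ := ft.ce k (a + 1 + D)
  have h7 := hc (jn α ((s1, r, p₀) : Fin 4 × Fin 4 × Pq a)) V
  have h8 := hc (jn α ((s1, r, p₀) : Fin 4 × Fin 4 × Pq a)) V'
  rw [hk] at h7 h8
  have e1 : -((k : ℝ) + ((a + 1 : ℕ) : ℝ)) = m := by
    have h9 : ((k + ((a + 1 : ℕ) : ℤ) : ℤ) : ℝ) = ((-(m : ℤ) : ℤ) : ℝ) := by rw [hm]
    push_cast at h9 ⊢
    linarith
  have e2 : (16 : ℝ) ^ (a + 1 + D + (a + 1)) = 16 ^ (2 * (a + 1) + D) := by
    congr 1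
    ring
  rw [e1, e2]
  refine le_trans (le_of_eq ?_) h6
  congr 1
  have e3 : φ s (lp V) - φ s (lp V') = 16 ^ (a + 1 + D) *
      (CE μ (F k) (a + 1 + D) V (fun U => φ k (hol U (jn α ((s1, r, p₀) : Fin 4 × Fin 4 × Pq a)))) -
        CE μ (F k) (a + 1 + D) V'
          (fun U => φ k (hol U (jn α ((s1, r, p₀) : Fin 4 × Fin 4 × Pq a))))) := by
    rw [mul_sub, h7, h8]
    ring
  rw [e3]
  ring

end

end Pool.Agent.N109.T3
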