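import Mathlib
import Pool.Agent.N109.T3.Fin3
import Pool.Agent.N109.T3.OpeF
import Pool.Agent.N984.OPE.Fin
import Pool.Agent.N984.OPE.Sq
import Pool.Agent.N453.T3.Sq
import Pool.Agent.N681.T3.Ope4

/-!
# The renormalised field of a limit theory, with the operator product expansion
-/

open MeasureTheory Matrix Filter Pool.Agent.N991.MK Pool.Agent.N988.MK Pool.Agent.N989.MK
open scoped Matrix.Norms.Frobenius Topology
open Pool.Agent.H906R3.YM Pool.Agent.W793.YM Pool.Agent.TH618.YM Pool.Agent.N984.TW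
open Pool.Agent.N681.MK (evo)
open Pool.Agent.N839.T3 (SD)

namespace Pool.Agent.N109.T3

set_option linter.unusedSectionVars false

noncomputable section

variable {N n : ℕ} {G : Subgroup (UN N)}
variable [MeasurableSpace G] [BorelSpace G] {μ : Measure G} [IsProbabilityMeasure μ]
  [μ.IsHaarMeasure]

section

variable [CompactSpace G] [ConnectedSpace G] [SecondCountableTopology G] [μ.IsMulRightInvariant]
  [μ.IsInvInvariant]

/-- **the operator product expansion** -/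
theorem ope_of (hG : SimpleGroup G) (B : Frame G n) {P : Matrix (Fin N) (Fin N) ℂ}
    (hP : Constituent G P) {cA : ℝ} (hcA0 : 0 < cA)
    (hcA : ∀ x : Fin n → ℝ, ∑ a, ‖LX B x * B.X a - B.X a * LX B x‖ ^ 2 = cA * ∑ a, x a ^ 2)
    {u : ℝ} {F : ℤ → G → ℝ} (hL : LimitTheory μ B.X P cA u F) {S : G → ℝ} {β : ℕ → ℝ}
    {l : ℕ → ℕ} (ha : Appr μ F S β l) {φ : ℤ → G → ℝ} (hcls : ∀ k, Cls (φ k))
    (hφ : ∀ k : ℤ, UT (fun m : ℕ => evo μ (F (-m)) (fun g : G => (trace (mx g)).re)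
        ((m : ℤ) + k).toNat) (φ k)) :
    ∀ (s : ℤ) (ε : ℝ), 0 < ε → ∃ m0 : ℕ, ∀ (k : ℤ) (j d : ℕ) (β : Pq d) (p q : Pq j) (e : ℝ),
      Sep p q → k + j = s → k + anc j p q ≤ -m0 →
      e = Ex μ (F k) (j + d) (fun U => φ k (hol U (jn β p))) → ∀ V V' : BE j → G,
        |-(k + anc j p q : ℝ) * 16 ^ (j + anc j p q) *
            (CE μ (F k) j V (fun U => (φ k (hol U p) - e) * (φ k (hol U q) - e)) -
              CE μ (F k) j V' (fun U => (φ k (hol U p) - e) * (φ k (hol U q) - e))) +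
          64 / (5 * cA) * 16 ^ j * (CE μ (F k) j V (fun U => φ k (hol U p)) -
            CE μ (F k) j V' (fun U => φ k (hol U p)))| ≤ ε := by
  have hF : ∀ k, Adm (F k) := lt_adm hL
  have hFs := lt_rcs hL
  have hW1 := lt_W1 hcA0 hL
  have hW : ∀ k, WW μ (chiP P) (F k) < 1 := fun k => by
    rw [lt_WW hL]
    exact (hL.wilson k).2
  obtain ⟨m, hg⟩ := exists_gen B hG.closed hG.connected
  have hI : IrC G P := ⟨⟨hP.herm, hP.idem, hP.comm⟩, hP.ne, hP.irr, hP.nontriv⟩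
  have ho : Obs μ (chiP P : G → ℝ) := obs_chiP hI
  have hIs : IsoG B := isoG_of_simple B hG.closed hG.nonabelian hG.simple
  have hn : 0 < n := frame_pos B hG.closed hG.nonabelian
  have hcA' : ∀ x : Fin n → ℝ, ∑ a, ‖LX B x * B.X a - B.X a * LX B x‖ ^ 2 = cA * nE x ^ 2 :=
    fun x => by rw [hcA x, Pool.Agent.N991.MK.nE_sq]
  obtain ⟨r₁, hr₁, hsd⟩ := Pool.Agent.N453.MK.sd_limit B μ hG.closed
  obtain ⟨r₂, ε₂, hr₂, hε₂, hε21, henv⟩ := Pool.Agent.N453.MK.env_limit (B := B) (cA := cA) μ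
    hG.closed hIs hn hcA'
  obtain ⟨r₃, ε₃, hr₃, hε₃', hsq⟩ := Pool.Agent.N984.OPE.exists_sq (B := B) μ hG.closed hIs hn
    hcA' (h6_all B) (casPair hG.closed hcA)
  obtain ⟨κS, r, ε, h1, K, h0, C, A, R, K', hκS, hr, hr3, -, hε, hε3, hK', hgr, hadm, hsc, hbw,
    Fl, hT⟩ := setup_S μ hG B hP hcA0 hcA ha.bare (lt_min (lt_min hr₁ hr₂) hr₃)
      (lt_min hε₂ hε₃')
  have hadm' : ∀ β, Adm (bw S β) := fun β => by rw [hbw]; exact hadm _
  have hconv := appr_ut (μ := μ) hadm' ha.conv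
  have hex := hex_of Fl ho hadm hK' hsc hg (β := fun i => κS * β i)
    (fun i => mul_pos hκS (ha.pos i)) ha.len hF (fun k => by
      simpa only [← hbw] using hconv k) hW1 hW
  simp only [← hbw] at hex
  obtain ⟨hc0, h2, C2, -, T0⟩ := hT _ 1 cp_tr (curv_tr B hG.closed)
  obtain ⟨Φ, a1, a2, a3, a4, a5⟩ := T0.conv Fl.c_pos Fl.C_nn Fl.R_nn hc0 (fun i => hadm' (β i))
    ha.len hF hFs hconv hex
  have hΦ : Φ = φ := by
    funext k
    exact Pool.Agent.N681.MK.UT.uniq (a4 k) (hφ k)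
  subst hΦ
  have ft : FT μ F Φ := ⟨hF, hL.int_one, hFs, a1, hcls, a2, a5⟩
  obtain ⟨s1, s2⟩ := hsd r hr (hr3.trans ((min_le_left _ _).trans (min_le_left _ _))) hgr
    ((hε3.trans (min_le_left _ _)).trans hε21) one_pos hc0 T0
    Fl.c_pos Fl.C_nn Fl.R_nn (fun i => hadm' (β i)) ha.len hex hF a1 hconv a3
  have s3 : SD B hG.closed atTop (fun m : ℕ => cA / 8 * (m : ℝ))
      (fun m y => cA / 8 * (m : ℝ) * Φ (-m) y * (F (-m) y / F (-m) 1)) (fun x => fr x * gs x) :=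
    s2.congr (fun _ _ => rfl) fun x => by ring
  obtain ⟨m1, c₁, C₂, r', hc₁, hC₂, hr', hE⟩ := henv r hr
    (hr3.trans ((min_le_left _ _).trans (min_le_right _ _))) hgr (hε3.trans (min_le_left _ _))
    one_pos hc0 T0 Fl.c_pos Fl.C_nn Fl.R_nn (fun i => hadm' (β i)) ha.len hex hF hconv
  obtain ⟨h3, C3, -, hC3, hSq⟩ := hsq ε hε (hε3.trans (min_le_right _ _)) r hr
    (hr3.trans (min_le_right _ _)) h1 K
  have hc8 : 0 < cA / 8 := by positivity
  have hP2 := Pool.Agent.N984.OPE.sq_limit (P := PT B μ r ε h1 K) (T := TSt B r) T0 hSq hC3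
    (fun f g h a e s T => TSt_smul T s) Fl.c_pos Fl.C_nn Fl.R_nn hc0 (fun i => hadm' (β i))
    ha.len hex (ι := {v : Fin n → ℝ // nE v < r}) (X := fun v => Eg B hG.closed v.1)
    (q := fun v => nE v.1 ^ 2) (fun _ => sq_nonneg _)
    (fun f g h ρ a e hP T v => by
      have := TSt.near hG.closed hP.1 T v.2
      rwa [← pow_mul]) hF a1 hconv a3
  have hP3 := Pool.Agent.N453.T3.sq_scaling (μ := μ) hc8 hF hFs a1 hcls a5 s1 s3
  have hP4 := Pool.Agent.N681.T3.ope4 (μ := μ) (h := fun m : ℕ => cA / 8 * (m : ℝ))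
    (f := fun m : ℕ => F (-m)) (φ := fun m : ℕ => Φ (-m)) (fun m => hF _) (fun m => a1 _)
    (fun m => hcls _) s1 s3 hc₁ (show 0 < C₂ * 8 / cA by positivity) hr'
    (env_link hF hFs hcA0 hc₁ hC₂ hE)
  have H := Pool.Agent.N984.OPE.ope_H (μ := μ) hG.closed hn hr hc8 ft hP2 hP3 hP4
  refine ope_field ft (cA := cA) fun s e he => ?_
  obtain ⟨m0, hm0⟩ := H s e he
  refine ⟨m0, fun m J d β e' hm hJ he' x x' => ?_⟩
  have h4 := hm0 m J d β e' hm hJ he' x x'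
  have e1 : 8 / (5 * (cA / 8)) = 64 / (5 * cA) := by
    field_simp
    norm_num
  rwa [e1] at h4

/-- **the renormalised field of a limit theory** -/
theorem gluon_field4 (hG : SimpleGroup G) (B : Frame G n) {P : Matrix (Fin N) (Fin N) ℂ}
    (hP : Constituent G P) {cA : ℝ} (hcA0 : 0 < cA)
    (hcA : ∀ x : Fin n → ℝ, ∑ a, ‖LX B x * B.X a - B.X a * LX B x‖ ^ 2 = cA * ∑ a, x a ^ 2)
    {u : ℝ} {F : ℤ → G → ℝ} (hL : LimitTheory μ B.X P cA u F) {S : G → ℝ} {β : ℕ → ℝ}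
    {l : ℕ → ℕ} (ha : Appr μ F S β l) :
    ∃ φ : ℤ → G → ℝ, GluonField μ B.X cA F φ ∧
      ∀ k : ℤ, UT (fun m : ℕ => evo μ (F (-m)) (fun g : G => (trace (mx g)).re)
        ((m : ℤ) + k).toNat) (φ k) := by
  obtain ⟨φ, h, hφ⟩ := gluon_field3 hG B hP hcA0 hcA hL ha
  exact ⟨φ, ⟨h.cont, h.cls, h.sym, h.one, h.step, h.cutoff, h.near, h.free, h.two,
    ope_of hG B hP hcA0 hcA hL ha (fun k g x => h.cls k g x) hφ, h.pos, h.gap, h.vol⟩, hφ⟩

end

end

end Pool.Agent.N109.T3
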