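import Mathlib
import Pool.Agent.N109.T3.Fin4
import Pool.Agent.N989.MK.Main3
import Pool.Agent.N991.MK.Act3
import Pool.Agent.N991.MK.Act4

/-!
# The renormalised fields of all continuum limits
-/

open MeasureTheory Matrix Filter Pool.Agent.N991.MK Pool.Agent.N988.MK Pool.Agent.N989.MK
open scoped Matrix.Norms.Frobenius Topology
open Pool.Agent.H906R3.YM Pool.Agent.W793.YM Pool.Agent.TH618.YM Pool.Agent.N984.TW
open Pool.Agent.N681.MK (evo)

namespace Pool.Agent.N109.T3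

set_option linter.unusedSectionVars false

noncomputable section

variable {N n : ℕ} {G : Subgroup (UN N)}
variable [MeasurableSpace G] [BorelSpace G] {μ : Measure G} [IsProbabilityMeasure μ]
  [μ.IsHaarMeasure]

/-- **Main theorem** -/
theorem gluon_fam (hG : SimpleGroup G) {X : Fin n → Matrix (Fin N) (Fin N) ℂ}
    (hX : LieBasis G X) :
    ∃ (cA : ℝ) (F φ : ℝ → ℤ → G → ℝ), 0 < cA ∧
      (∀ c, ∑ a, (trace ((X c * X a - X a * X c)ᴴ * (X c * X a - X a * X c))).re = cA) ∧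
      (∀ s, ∃ (β : ℕ → ℝ) (l : ℕ → ℕ), Appr μ (F s) (fun g => (trace (mx g)).re) β l) ∧
      (∀ (S : G → ℝ) (β : ℕ → ℝ) (l : ℕ → ℕ) (F' : ℤ → G → ℝ), Appr μ F' S β l →
        F' = (fun _ _ => 1) ∨ ∃ s, F' = F s) ∧
      (∀ s k, F s (k + 1) = F (s - cA / 8) k ∧ φ s (k + 1) = φ (s - cA / 8) k) ∧
      (∀ s, GluonField μ X cA (F s) (φ s)) ∧
      (∀ (s : ℝ) (S : G → ℝ) (β : ℕ → ℝ) (l : ℕ → ℕ), Appr μ (F s) S β l →
        ∀ (O : G → ℝ) (κ : ℝ), ClassPoly G O → Curv X O κ →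
          ∀ (k : ℤ) (j r : ℕ) (α : Fin r → Pq j), Function.Injective α → ∀ ε : ℝ, 0 < ε →
            ∀ᶠ i in atTop, ∀ p : Fin r → Pq ((l i : ℤ) + k).toNat,
              |(16 : ℝ) ^ (r * ((l i : ℤ) + k).toNat) *
                  Cn μ (bw S (β i)) (((l i : ℤ) + k).toNat + j) (fun a => jn (α a) (p a)) O -
                κ ^ r * Cn μ (F s k) j α (φ s k)| < ε) ∧
      (∀ (s : ℝ) (k : ℤ) (x : G),
        HasDerivAt (fun t => Real.log (F t k x / F t k 1)) (φ s k x) s) ∧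
      ∀ (s : ℝ) (k : ℤ) (j : ℕ) (O : (Ed j → G) → ℝ), Continuous O →
        HasDerivAt (fun t => Ex μ (F t k) j O)
          (∑ p : Pq j, (Ex μ (F s k) j (fun U => O U * φ s k (hol U p)) -
            Ex μ (F s k) j O * Ex μ (F s k) j (fun U => φ s k (hol U p)))) s := by
  have hGc : IsClosed (G : Set (UN N)) := hG.closed
  have : CompactSpace G := isCompact_iff_compactSpace.1 hGc.isCompact
  have : ConnectedSpace G := isConnected_iff_connectedSpace.1 hG.connected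
  have := haar_right μ
  have := haar_inv μ
  obtain ⟨cA, F, hcA, h2, hT, hLo, -, -, hsc, q₀, hq₀, hS⟩ := class_main (μ := μ) hG hX
  obtain ⟨P, hP⟩ := Pool.Agent.N565.MK.exists_constituent hG
  obtain ⟨B, rfl⟩ := exists_frame_of X hX.mem hX.orth hX.full
  have hn : 0 < n := frame_pos B hGc hG.nonabelian
  have hcas := casimir_full μ hG B hP h2
  have hLs : ∀ s, Loops μ B.X P cA (F s) := (hLo P hP).1
  have hF : ∀ (β : ℕ → ℝ) (l : ℕ → ℕ), (∀ i, 0 < β i) → Tendsto l atTop atTop → ∀ s,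
      Tendsto (par cA 1 β l) atTop (𝓝 s) →
      ConvS μ (fun g : G => (trace (mx g)).re) β l (F s) := by
    intro β l hβ hl s hs
    obtain ⟨κ, q, -, h3, h5, h4, -⟩ := hS _ bare_tr
    exact conv_tr B hGc hn hX.mem hq₀ h3 h5 (fun β l hβ hl => (h4 β l hβ hl).1) β l hβ hl s hs
  obtain ⟨happ, φ, hQ, hev, hcont, hder, hsh, hEx⟩ := act_family hG B hP hcA hcas hT hLs hF
    (Q := GluonField μ B.X cA) fun u F' hL β l ha => by
      obtain ⟨ψ, h5, h6⟩ := gluon_field4 hG B hP hcA hcas hL ha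
      exact ⟨ψ, h5, h5.cont, h6⟩
  refine ⟨cA, F, φ, hcA, h2, happ, fun S β l F' ha => ?_, fun s k => ⟨hsc s k, hsh _ hsc s k⟩,
    hQ, ?_, hder, hEx⟩
  · obtain ⟨κ, q, -, -, -, h4, -⟩ := hS S ha.bare
    have h5 := (h4 β l ha.pos ha.len).2.2.2 F' ha.conv
    first
      | exact h5
      | exact h5.2
  intro s S β l ha O κ hO hκ k j r α hα ε hε
  have hL := lt_of hcA (hT s) (hLs s)
  have hA : ∀ k, Adm (F s k) := lt_adm hL
  obtain ⟨b1, b2, b3, b4⟩ := model_op hG B hP hcA hcas hA (lt_rcs hL) (lt_W1 hcA hL)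
    (fun k => by rw [lt_WW hL]; exact (hL.wilson k).2) (hev s) ha hO hκ
  have hc5 : Continuous fun x => κ * φ s k x := continuous_const.mul ((hQ s).cont k)
  have h5 := corr_conv (μ := μ) (fun i => b1 (β i)) (hA k) (b3 k) b2 (cls_obs hO) hc5 (b4 k) hα hε
  have h6 : Cn μ (F s k) j α (fun x => κ * φ s k x) = κ ^ r * Cn μ (F s k) j α (φ s k) := by
    have e : (fun x => κ * φ s k x) = fun x => κ * φ s k x + 0 := by
      funext x
      ring
    rw [e, Cn_affine (hA k) _ ((hQ s).cont k)]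
  rw [h6] at h5
  exact h5

end

end Pool.Agent.N109.T3
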