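import Mathlib
import Pool.Agent.N109.T3.Fin
import Pool.Agent.N109.T3.Defs2
import Pool.Agent.N109.T3.VolC
import Pool.Agent.N453.MK.Lim3
import Pool.Agent.N681.T3.B2
import Pool.Agent.N838.T3.FreeG

/-!
# The renormalised field: infinite volume limit and short distance behaviour
-/

open MeasureTheory Matrix Filter Pool.Agent.N991.MK Pool.Agent.N988.MK Pool.Agent.N989.MK
open scoped Matrix.Norms.Frobenius Topology
open Pool.Agent.H906R3.YM Pool.Agent.W793.YM Pool.Agent.TH618.YM Pool.Agent.N984.TW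
open Pool.Agent.N681.MK (evo dTn fld TanFlow TP_weaken CS lim_cs)
open Pool.Agent.N839.T3 (LT IsCov cv_nonneg)

namespace Pool.Agent.N109.T3

set_option linter.unusedSectionVars false

noncomputable section

variable {N n : ℕ} {G : Subgroup (UN N)}
variable [MeasurableSpace G] [BorelSpace G] {μ : Measure G} [IsProbabilityMeasure μ]
  [μ.IsHaarMeasure]

section

variable [CompactSpace G] [ConnectedSpace G] [SecondCountableTopology G] [μ.IsMulRightInvariant]
  [μ.IsInvInvariant]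

/-- **the renormalised field of a limit theory** -/
theorem gluon_field (hG : SimpleGroup G) (B : Frame G n) {P : Matrix (Fin N) (Fin N) ℂ}
    (hP : Constituent G P) {cA : ℝ} (hcA0 : 0 < cA)
    (hcA : ∀ x : Fin n → ℝ, ∑ a, ‖LX B x * B.X a - B.X a * LX B x‖ ^ 2 = cA * ∑ a, x a ^ 2)
    {u : ℝ} {F : ℤ → G → ℝ} (hL : LimitTheory μ B.X P cA u F) {S : G → ℝ} {β : ℕ → ℝ}
    {l : ℕ → ℕ} (ha : Appr μ F S β l) :
    ∃ φ : ℤ → G → ℝ, GluonField μ B.X cA F φ ∧
      ∀ k : ℤ, UT (fun m : ℕ => evo μ (F (-m)) (fun g : G => (trace (mx g)).re)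
        ((m : ℤ) + k).toNat) (φ k) := by
  have hF : ∀ k, Adm (F k) := lt_adm hL
  have hFs := lt_rcs hL
  have hW1 := lt_W1 hcA0 hL
  have hW : ∀ k, WW μ (chiP P) (F k) < 1 := fun k => by
    rw [lt_WW hL]
    exact (hL.wilson k).2
  obtain ⟨φ, hR, hφ⟩ := ren_field hG B hP hcA0 hcA hL ha
  obtain ⟨m, hg⟩ := exists_gen B hG.closed hG.connected
  have hI : IrC G P := ⟨⟨hP.herm, hP.idem, hP.comm⟩, hP.ne, hP.irr, hP.nontriv⟩
  have ho : Obs μ (chiP P : G → ℝ) := obs_chiP hI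
  obtain ⟨r₁, hr₁, hsd⟩ := Pool.Agent.N453.MK.sd_limit B μ hG.closed
  obtain ⟨κS, r, ε, h1, K, h0, C, A, R, K', hκS, hr, hr3, -, hε, hε3, hK', hgr, hadm, hsc, hbw,
    Fl, hT⟩ := setup_S μ hG B hP hcA0 hcA ha.bare hr₁ (show (0 : ℝ) < 1 / 1000 by norm_num)
  have hadm' : ∀ β, Adm (bw S β) := fun β => by rw [hbw]; exact hadm _
  have hconv := appr_ut (μ := μ) hadm' ha.conv
  have hex := hex_of Fl ho hadm hK' hsc hg (β := fun i => κS * β i)
    (fun i => mul_pos hκS (ha.pos i)) ha.len hF (fun k => by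
      simpa only [← hbw] using hconv k) hW1 hW
  simp only [← hbw] at hex
  obtain ⟨hc0, h2, C2, -, T0⟩ := hT _ 1 cp_tr (curv_tr B hG.closed)
  obtain ⟨Φ, a1, a2, a3, a4, a5⟩ := T0.conv Fl.c_pos Fl.C_nn Fl.R_nn hc0 (fun i => hadm' (β i))
    ha.len hF hFs hconv hex
  have hΦ : Φ = φ := by
    funext k
    exact Pool.Agent.N681.MK.UT.uniq (a4 k) (hφ k)
  subst hΦ
  refine ⟨Φ, ⟨hR, fun j r' α hα => ?_, fun k j r' α => ?_⟩, hφ⟩
  · obtain ⟨s1, s2⟩ := hsd r hr hr3 hgr hε3 one_pos hc0 T0 Fl.c_pos Fl.C_nn Fl.R_nn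
      (fun i => hadm' (β i)) ha.len hex hF a1 hconv a3
    have h3 := Pool.Agent.N681.T3.Cn_lim (μ := μ) (l := atTop)
      (f := fun m : ℕ => F (-m)) (φ := fun m : ℕ => Φ (-m)) (κ := 1)
      (fun m => hF _) (fun m => a1 _) (fun m g x => hR.cls _ g x) s1 s2 hα
    have h4 := h3.const_mul ((8 / cA) ^ r')
    rw [one_pow, one_mul, Pool.Agent.N838.T3.CR_eq_CG] at h4
    refine h4.congr fun m => ?_
    have e : (8 / cA) ^ r' * (cA / 8 * (m : ℝ)) ^ r' = (m : ℝ) ^ r' := by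
      rw [← mul_pow]
      congr 1
      field_simp
    rw [← mul_assoc, e]
  · exact vol_flow Fl hg (fun i => hadm' (β i)) ha.len hF hFs hconv hex (a1 k)
      (fun g x => hR.cls k g x) k α

end

end

end Pool.Agent.N109.T3
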